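import Pool.Agent.MP_195eb9_ag.WeakDML

/-!
Subadditivity of degrees of functions on a curve, by counting dimensions.
-/

namespace Pool.Agent.H69K

open IntermediateField Module

universe u

variable {F K : Type u} [Field F] [Field K] [Algebra F K] {ι : Type} [Fintype ι]

variable (F) in
/-- The span of the monomials in `b` with exponents at most `e`. -/
def Abox (b : ι → K) (e : ι → ℕ) : Submodule F K :=
  Submodule.span F {x | ∃ α : ι → ℕ, α ≤ e ∧ x = ∏ l, b l ^ α l}

theorem Abox_fin (b : ι → K) (e : ι → ℕ) : Module.Finite F (Abox F b e) := by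
  classical
  refine Module.Finite.span_of_finite F ?_
  have : {x | ∃ α : ι → ℕ, α ≤ e ∧ x = ∏ l, b l ^ α l} =
      (fun α : ι → ℕ => ∏ l, b l ^ α l) '' Set.Iic e := by
    ext x
    simp [eq_comm]
  rw [this]
  exact (Set.finite_Iic e).image _

theorem Abox_mono (b : ι → K) {e e' : ι → ℕ} (h : e ≤ e') : Abox F b e ≤ Abox F b e' := by
  refine Submodule.span_mono ?_
  rintro x ⟨α, hα, rfl⟩
  exact ⟨α, hα.trans h, rfl⟩

theorem Abox_mul (b : ι → K) {e e' : ι → ℕ} {x y : K} (hx : x ∈ Abox F b e)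
    (hy : y ∈ Abox F b e') : x * y ∈ Abox F b (e + e') := by
  induction hx using Submodule.span_induction with
  | zero => simp
  | add x x' _ _ h h' => rw [add_mul]; exact add_mem h h'
  | smul c x _ h => rw [smul_mul_assoc]; exact Submodule.smul_mem _ c h
  | mem x hx =>
    induction hy using Submodule.span_induction with
    | zero => simp
    | add y y' _ _ h h' => rw [mul_add]; exact add_mem h h'
    | smul c y _ h => rw [mul_smul_comm]; exact Submodule.smul_mem _ c h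
    | mem y hy =>
      obtain ⟨α, hα, rfl⟩ := hx
      obtain ⟨β, hβ, rfl⟩ := hy
      refine Submodule.subset_span ⟨α + β, add_le_add hα hβ, ?_⟩
      simp [pow_add, Finset.prod_mul_distrib]

theorem aeval_mem_Abox {k : Type u} [Field k] [Algebra k F] [Algebra k K] [IsScalarTower k F K]
    (b : ι → K) {e : ι → ℕ} {q : MvPolynomial ι k} (hq : ∀ l, q.degreeOf l ≤ e l) :
    MvPolynomial.aeval b q ∈ Abox F b e := by
  rw [MvPolynomial.aeval_def, MvPolynomial.eval₂_eq']
  refine Submodule.sum_mem _ fun d hd => ?_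
  rw [IsScalarTower.algebraMap_apply k F K, ← Algebra.smul_def]
  refine Submodule.smul_mem _ _ (Submodule.subset_span ⟨d, fun l => ?_, rfl⟩)
  exact (MvPolynomial.monomial_le_degreeOf l hd).trans (hq l)

theorem MonoA_mon (b : ι → K) {e α : ι → ℕ} (h : α ≤ e) : ∏ l, b l ^ α l ∈ Abox F b e :=
  Submodule.subset_span ⟨α, h, rfl⟩

theorem MonoA_of_mon (b : ι → K) {e : ι → ℕ} {g : K} {W : Submodule F K}
    (h : ∀ α : ι → ℕ, α ≤ e → g * ∏ l, b l ^ α l ∈ W) {x : K} (hx : x ∈ Abox F b e) :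
    g * x ∈ W := by
  induction hx using Submodule.span_induction with
  | zero => simp
  | add x x' _ _ h h' => rw [mul_add]; exact add_mem h h'
  | smul c x _ h => rw [mul_smul_comm]; exact Submodule.smul_mem _ c h
  | mem x hx =>
    obtain ⟨α, hα, rfl⟩ := hx
    exact h α hα

theorem MonoA_pow [DecidableEq ι] (b : ι → K) (l : ι) (j : ℕ) :
    b l ^ j ∈ Abox F b (Pi.single l j) := by
  have h : ∏ i, b i ^ (Pi.single l j : ι → ℕ) i = b l ^ j := by
    rw [Finset.prod_eq_single l] <;> simp +contextual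
  rw [← h]
  exact MonoA_mon b le_rfl

theorem MonoA_enl (b : ι → K) {u v : ι → ℕ} {g : K}
    (h : ∀ x ∈ Abox F b u, g * x ∈ Abox F b v) (t : ι → ℕ) :
    ∀ x ∈ Abox F b (u + t), g * x ∈ Abox F b (v + t) := by
  intro x hx
  refine MonoA_of_mon b (fun α hα => ?_) hx
  have e : ∏ l, b l ^ α l = (∏ l, b l ^ min (α l) (u l)) * ∏ l, b l ^ (α l - u l) := by
    rw [← Finset.prod_mul_distrib]
    refine Finset.prod_congr rfl fun l _ => ?_
    rw [← pow_add]
    congr 1
    omega
  rw [e, ← mul_assoc]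
  refine Abox_mul b (h _ (MonoA_mon b fun l => min_le_right _ _)) (MonoA_mon b fun l => ?_)
  have := hα l
  simp only [Pi.add_apply] at this
  change α l - u l ≤ t l
  omega

variable (F) in
/-- The saturated space of the plan. -/
def MonoA_S (b : ι → K) (d e : ι → ℕ) : Submodule F K where
  carrier := {g | ∃ s, ∀ x ∈ Abox F b (d + s), g * x ∈ Abox F b (e + s)}
  zero_mem' := ⟨0, fun x _ => by simp⟩
  add_mem' := by
    rintro g g' ⟨s, h⟩ ⟨s', h'⟩
    refine ⟨s + s', fun x hx => ?_⟩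
    rw [add_mul]
    refine add_mem ?_ ?_
    · rw [← add_assoc] at hx ⊢
      exact MonoA_enl b h s' x hx
    · rw [add_comm s s', ← add_assoc] at hx ⊢
      exact MonoA_enl b h' s x hx
  smul_mem' := by
    rintro c g ⟨s, h⟩
    refine ⟨s, fun x hx => ?_⟩
    rw [smul_mul_assoc]
    exact Submodule.smul_mem _ c (h x hx)

theorem MonoA_S_zero [DecidableEq ι] (b : ι → K) (l₀ : ι) (h₀ : Transcendental F (b l₀)) :
    MonoA_S F b (Pi.single l₀ 1) 0 = ⊥ := by
  rw [eq_bot_iff]
  rintro g ⟨s, h⟩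
  rw [Submodule.mem_bot]
  by_contra hg
  rw [zero_add] at h
  have := Abox_fin (F := F) b s
  have := Abox_fin (F := F) b (Pi.single l₀ 1 + s)
  let φ : Abox F b (Pi.single l₀ 1 + s) →ₗ[F] Abox F b s :=
    (LinearMap.mulLeft F g).restrict h
  have hφ : Function.Injective φ := by
    intro x y hxy
    have : g * x.1 = g * y.1 := congrArg Subtype.val hxy
    exact Subtype.ext (mul_left_cancel₀ hg this)
  have hle : Abox F b s ≤ Abox F b (Pi.single l₀ 1 + s) := Abox_mono b le_add_self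
  have heq := Submodule.eq_of_le_of_finrank_le hle (LinearMap.finrank_le_finrank_of_injective hφ)
  have h1 : (1 : K) ∈ Abox F b s := by
    have := MonoA_mon (F := F) b (e := s) (α := 0) (fun _ => Nat.zero_le _)
    simpa using this
  refine h₀ (IsIntegral.isAlgebraic ?_)
  refine isIntegral_of_smul_mem_submodule (Abox F b s) ?_ ?_ (b l₀) fun x hx => ?_
  · intro hb
    rw [hb, Submodule.mem_bot] at h1
    exact one_ne_zero h1
  · exact Module.Finite.iff_fg.mp inferInstance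
  · rw [heq, smul_eq_mul]
    have := Abox_mul b (MonoA_pow (F := F) b l₀ 1) hx
    rwa [pow_one] at this

theorem MonoA_rel (z : K) (hz : Transcendental F z → finrank F⟮z⟯ K ≠ 0)
    (g : Fin (finrank F⟮z⟯ K + 1) → K) :
    ∃ q : Fin (finrank F⟮z⟯ K + 1) → Polynomial F, (∃ i, q i ≠ 0) ∧
      ∑ i, Polynomial.aeval z (q i) * g i = 0 := by
  classical
  by_cases ht : IsAlgebraic F z
  · obtain ⟨p, hp, hp0⟩ := ht
    exact ⟨fun _ => p, ⟨0, hp⟩, by simp [hp0]⟩
  have : Module.Finite F⟮z⟯ K := Module.finite_of_finrank_pos (Nat.pos_of_ne_zero (hz ht))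
  have hdep : ¬ LinearIndependent F⟮z⟯ g := fun h => by
    have := h.fintype_card_le_finrank
    simp at this
  obtain ⟨r, hr, i₀, hi₀⟩ := Fintype.not_linearIndependent_iff.mp hdep
  have hrep : ∀ i, ∃ p d : Polynomial F, Polynomial.aeval z d ≠ 0 ∧
      Polynomial.aeval z p = (r i : K) * Polynomial.aeval z d := by
    intro i
    obtain ⟨p, d, h⟩ := (mem_adjoin_simple_iff F (r i : K)).mp (r i).2
    by_cases hd : Polynomial.aeval z d = 0
    · exact ⟨0, 1, by simp, by simp [h, hd]⟩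
    · exact ⟨p, d, hd, by rw [h, div_mul_cancel₀ _ hd]⟩
  choose p d hd hp using hrep
  have key : ∀ i, Polynomial.aeval z (p i * ∏ j ∈ Finset.univ.erase i, d j) =
      (r i : K) * ∏ j, Polynomial.aeval z (d j) := by
    intro i
    rw [map_mul, map_prod, hp, mul_assoc,
      Finset.mul_prod_erase Finset.univ (fun j => Polynomial.aeval z (d j)) (Finset.mem_univ i)]
  refine ⟨fun i => p i * ∏ j ∈ Finset.univ.erase i, d j, ⟨i₀, fun h => ?_⟩, ?_⟩
  · have := key i₀
    have h' : p i₀ * ∏ j ∈ Finset.univ.erase i₀, d j = 0 := h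
    rw [h', map_zero] at this
    refine mul_ne_zero ?_ (Finset.prod_ne_zero_iff.mpr fun j _ => hd j) this.symm
    exact fun h0 => hi₀ (Subtype.ext h0)
  · have : ∑ i, (r i : K) * g i = 0 := hr
    simp only [key]
    calc _ = (∑ i, (r i : K) * g i) * ∏ j, Polynomial.aeval z (d j) := by
          rw [Finset.sum_mul]
          exact Finset.sum_congr rfl fun i _ => by ring
      _ = 0 := by rw [this, zero_mul]

theorem MonoA_step [DecidableEq ι] (b : ι → K) (d e : ι → ℕ) (l : ι) {n : ℕ} (g : Fin n → K)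
    (hg : ∀ i, g i ∈ MonoA_S F b d (e + Pi.single l 1)) (q : Fin n → Polynomial F)
    (hq : ∃ i, q i ≠ 0) (hrel : ∑ i, Polynomial.aeval (b l) (q i) * g i = 0) :
    ∃ c : Fin n → F, (∃ i, c i ≠ 0) ∧ ∑ i, c i • g i ∈ MonoA_S F b d e := by
  classical
  obtain ⟨i₀, hi₀, hmax⟩ := Finset.exists_max_image (Finset.univ.filter fun i => q i ≠ 0)
    (fun i => (q i).natDegree) (by obtain ⟨i, hi⟩ := hq; exact ⟨i, by simpa using hi⟩)
  have hq0 : q i₀ ≠ 0 := by simpa using hi₀
  obtain ⟨m, hm⟩ : ∃ m, m = (q i₀).natDegree := ⟨_, rfl⟩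
  have hdeg : ∀ i, (q i).natDegree < m + 1 := by
    intro i
    by_cases h : q i = 0
    · simp [h]
    · have := hmax i (by simpa using h)
      omega
  choose s hs using hg
  have hs' : ∀ i, ∀ x ∈ Abox F b (d + ∑ j, s j),
      g i * x ∈ Abox F b (e + Pi.single l 1 + ∑ j, s j) := by
    intro i
    have := MonoA_enl b (hs i) (∑ j ∈ Finset.univ.erase i, s j)
    rwa [add_assoc, add_assoc _ (s i), Finset.add_sum_erase Finset.univ s (Finset.mem_univ i)]
      at this
  obtain ⟨t, ht⟩ : ∃ t, t = ∑ j, s j := ⟨_, rfl⟩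
  rw [← ht] at hs'
  refine ⟨fun i => (q i).coeff m, ⟨i₀, ?_⟩, t + Pi.single l m, fun x hx => ?_⟩
  · rw [hm]
    exact Polynomial.leadingCoeff_ne_zero.mpr hq0
  have hlow : ∀ i j, j < m → ∀ x ∈ Abox F b (d + t + Pi.single l j),
      g i * x ∈ Abox F b (e + (t + Pi.single l m)) := by
    intro i j hj x hx
    refine Abox_mono b (fun a => ?_) (MonoA_enl b (hs' i) _ x hx)
    simp only [Pi.add_apply, Pi.single_apply]
    split_ifs <;> omega
  refine MonoA_of_mon b (fun α hα => ?_) hx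
  by_cases hl : m ≤ α l
  · have e1 : ∏ a, b a ^ α a = b l ^ m * ∏ a, b a ^ (α - Pi.single l m : ι → ℕ) a := by
      have h : ∏ i, b i ^ (Pi.single l m : ι → ℕ) i = b l ^ m := by
        rw [Finset.prod_eq_single l] <;> simp +contextual
      rw [← h, ← Finset.prod_mul_distrib]
      refine Finset.prod_congr rfl fun a _ => ?_
      rw [← pow_add]
      congr 1
      simp only [Pi.sub_apply]
      by_cases ha : a = l
      · subst ha
        simp only [Pi.single_eq_same]
        omega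
      · simp [Pi.single_eq_of_ne ha]
    have hy : ∏ a, b a ^ (α - Pi.single l m : ι → ℕ) a ∈ Abox F b (d + t) := by
      refine MonoA_mon b fun a => ?_
      have := hα a
      simp only [Pi.add_apply, Pi.sub_apply] at this ⊢
      omega
    obtain ⟨y, hy'⟩ : ∃ y, y = ∏ a, b a ^ (α - Pi.single l m : ι → ℕ) a := ⟨_, rfl⟩
    rw [← hy'] at e1 hy
    have e2 : (∑ i, (q i).coeff m • g i) * b l ^ m =
        -∑ i, ∑ j ∈ Finset.range m, (q i).coeff j • (g i * b l ^ j) := by
      rw [eq_neg_iff_add_eq_zero, Finset.sum_mul, ← Finset.sum_add_distrib, ← hrel]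
      refine Finset.sum_congr rfl fun i _ => ?_
      rw [Polynomial.aeval_eq_sum_range' (hdeg i), Finset.sum_range_succ, add_mul, Finset.sum_mul,
        add_comm]
      congr 1
      · exact Finset.sum_congr rfl fun j _ => by rw [smul_mul_assoc, mul_comm]
      · rw [smul_mul_assoc, smul_mul_assoc, mul_comm]
    rw [e1, ← mul_assoc, e2, neg_mul, Finset.sum_mul]
    refine neg_mem (Submodule.sum_mem _ fun i _ => ?_)
    rw [Finset.sum_mul]
    refine Submodule.sum_mem _ fun j hj => ?_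
    rw [smul_mul_assoc, mul_assoc, mul_comm (b l ^ j)]
    exact Submodule.smul_mem _ _
      (hlow i j (Finset.mem_range.mp hj) _ (Abox_mul b hy (MonoA_pow b l j)))
  · rw [Finset.sum_mul]
    refine Submodule.sum_mem _ fun i _ => ?_
    rw [smul_mul_assoc]
    refine Submodule.smul_mem _ _ (hlow i (m - 1) (by omega) _ (MonoA_mon b fun a => ?_))
    have := hα a
    simp only [Pi.add_apply, Pi.single_apply] at this ⊢
    split_ifs at this ⊢ with h
    · subst h
      omega
    · omega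

theorem MonoA_bound [DecidableEq ι] (b : ι → K) (l₀ : ι) (h₀ : Transcendental F (b l₀))
    (hfin : ∀ l, Transcendental F (b l) → finrank F⟮b l⟯ K ≠ 0) (N : ℕ) :
    ∀ e : ι → ℕ, ∑ l, e l = N → ∀ W : Submodule F K, Module.Finite F W →
      W ≤ MonoA_S F b (Pi.single l₀ 1) e → finrank F W ≤ ∑ l, e l * finrank F⟮b l⟯ K := by
  induction N with
  | zero =>
    intro e he W _ hW
    have : e = 0 := funext fun l => Finset.sum_eq_zero_iff.mp he l (Finset.mem_univ l)
    rw [this, MonoA_S_zero b l₀ h₀, le_bot_iff] at hW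
    rw [hW, finrank_bot]
    exact Nat.zero_le _
  | succ N ih =>
    intro e he W hfW hW
    obtain ⟨l, -, hl⟩ := Finset.exists_ne_zero_of_sum_ne_zero (s := Finset.univ) (f := e)
      (by omega)
    obtain ⟨e', rfl⟩ : ∃ e' : ι → ℕ, e = e' + Pi.single l 1 := by
      refine ⟨e - Pi.single l 1, funext fun a => ?_⟩
      simp only [Pi.add_apply, Pi.sub_apply, Pi.single_apply]
      split_ifs with h
      · subst h
        omega
      · omega
    have he' : ∑ a, e' a = N := by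
      simp only [Pi.add_apply, Finset.sum_add_distrib, Finset.sum_pi_single', Finset.mem_univ,
        if_true] at he
      omega
    let S := MonoA_S F b (Pi.single l₀ 1) e'
    let ψ : W →ₗ[F] K ⧸ S := S.mkQ.comp W.subtype
    have h1 : finrank F (LinearMap.range ψ) ≤ finrank F⟮b l⟯ K := by
      by_contra hlt
      have hli := (Module.finBasis F (LinearMap.range ψ)).linearIndependent.comp
        (Fin.castLE (Nat.succ_le_of_lt (not_le.mp hlt))) (Fin.castLE_injective _)
      have hli' := hli.map' (LinearMap.range ψ).subtype (Submodule.ker_subtype _)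
      choose w hw using fun i : Fin (finrank F⟮b l⟯ K + 1) =>
        (Module.finBasis F (LinearMap.range ψ)
          (Fin.castLE (Nat.succ_le_of_lt (not_le.mp hlt)) i)).2
      obtain ⟨q, hq, hrel⟩ := MonoA_rel (b l) (hfin l) fun i => (w i : K)
      obtain ⟨c, ⟨i, hi⟩, hc⟩ := MonoA_step b _ e' l (fun i => (w i : K))
        (fun i => hW (w i).2) q hq hrel
      refine hi (Fintype.linearIndependent_iff.mp hli' c ?_ i)
      have : S.mkQ (∑ i, c i • (w i : K)) = 0 := (Submodule.Quotient.mk_eq_zero S).mpr hc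
      rw [map_sum] at this
      rw [← this]
      refine Finset.sum_congr rfl fun i _ => ?_
      rw [map_smul]
      congr 1
      exact (hw i).symm
    have h2 : finrank F (LinearMap.ker ψ) ≤ ∑ a, e' a * finrank F⟮b a⟯ K := by
      rw [← Submodule.finrank_map_subtype_eq]
      refine ih e' he' _ inferInstance ?_
      rintro x ⟨y, hy, rfl⟩
      exact (Submodule.Quotient.mk_eq_zero S).mp hy
    have h3 := ψ.finrank_range_add_finrank_ker
    have h4 : ∑ a, (e' + Pi.single l 1 : ι → ℕ) a * finrank F⟮b a⟯ K =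
        ∑ a, e' a * finrank F⟮b a⟯ K + finrank F⟮b l⟯ K := by
      simp [add_mul, Finset.sum_add_distrib, Pi.single_apply]
    omega

/-- Upper bound. Plan: `S e = {g | ∃ s, ∀ x ∈ Abox (s + single l₀ 1), g * x ∈ Abox (s + e)}` is a
subspace (enlarge `s` by `Abox_mul`-type splitting of monomials), `S 0 = ⊥` (else
`Abox (s + single l₀ 1) = Abox s` by dimension, so `b l₀` stabilises a nonzero finite dimensional
space and is algebraic), `Abox e ≤ S (e + single l₀ 1)`, and any `η l + 1` elements `gᵢ` of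
`S (e + single l 1)` have a nontrivial `F`-combination in `S e`: take a relation
`∑ qᵢ(b l) gᵢ = 0` with `qᵢ ∈ F[X]` not all zero of maximal degree `m` (for algebraic `b l` use
the minimal polynomial and one element), `g = ∑ (coeff m qᵢ) gᵢ`; with a common `s` for all `gᵢ`
take `s' = s + single l m` and split monomials by whether the exponent of `b l` is `≥ m`. -/
theorem Abox_upper [DecidableEq ι] (b : ι → K) (l₀ : ι) (h₀ : Transcendental F (b l₀))
    (hfin : ∀ l, Transcendental F (b l) → finrank F⟮b l⟯ K ≠ 0) (e : ι → ℕ) :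
    finrank F (Abox F b e) ≤ ∑ l, e l * finrank F⟮b l⟯ K + finrank F⟮b l₀⟯ K := by
  have h := MonoA_bound b l₀ h₀ hfin _ (e + Pi.single l₀ 1) rfl _ (Abox_fin b e) fun g hg =>
    ⟨0, fun x hx => by
      rw [add_zero] at hx ⊢
      exact Abox_mul b hg hx⟩
  refine h.trans (le_of_eq ?_)
  simp [add_mul, Finset.sum_add_distrib, Pi.single_apply]

end Pool.Agent.H69K

/-!
Subadditivity of degrees of functions on a curve, by counting dimensions.
-/

namespace Pool.Agent.H69K

open IntermediateField Module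

universe u

variable {F K : Type u} [Field F] [Field K] [Algebra F K] {ι : Type} [Fintype ι]

/-- Polynomials of degree `< T` with coefficients in `A`. -/
def MonoB_P (A : Submodule F K) (T : ℕ) : Submodule F (Polynomial K) where
  carrier := {q | (∀ j, q.coeff j ∈ A) ∧ ∀ j, T ≤ j → q.coeff j = 0}
  add_mem' := fun {p q} hp hq => ⟨fun j => by
    rw [Polynomial.coeff_add]
    exact A.add_mem (hp.1 j) (hq.1 j), fun j hj => by
    rw [Polynomial.coeff_add, hp.2 j hj, hq.2 j hj, add_zero]⟩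
  zero_mem' := ⟨fun j => by simp, fun j _ => by simp⟩
  smul_mem' := fun c {q} hq => ⟨fun j => by
    rw [Polynomial.coeff_smul]
    exact A.smul_mem c (hq.1 j), fun j hj => by
    rw [Polynomial.coeff_smul, hq.2 j hj, smul_zero]⟩

theorem MonoB_monomial {A : Submodule F K} {T j : ℕ} (hj : j < T) {x : K} (hx : x ∈ A) :
    Polynomial.monomial j x ∈ MonoB_P A T := by
  refine ⟨fun i => ?_, fun i hi => ?_⟩
  · rw [Polynomial.coeff_monomial]
    split_ifs
    · exact hx
    · exact A.zero_mem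
  · rw [Polynomial.coeff_monomial, if_neg (by omega)]

theorem MonoB_equiv (A : Submodule F K) (T : ℕ) : Nonempty (MonoB_P A T ≃ₗ[F] (Fin T → A)) := by
  let f : MonoB_P A T →ₗ[F] (Fin T → A) :=
    { toFun := fun q j => ⟨q.1.coeff j, q.2.1 j⟩
      map_add' := fun p q => by
        funext j
        exact Subtype.ext (Polynomial.coeff_add _ _ _)
      map_smul' := fun c q => by
        funext j
        exact Subtype.ext (Polynomial.coeff_smul _ _ _) }
  refine ⟨LinearEquiv.ofBijective f ⟨fun p q h => Subtype.ext (Polynomial.ext fun j => ?_),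
    fun v => ?_⟩⟩
  · by_cases hj : j < T
    · exact congrArg Subtype.val (congrFun h ⟨j, hj⟩)
    · rw [p.2.2 j (by omega), q.2.2 j (by omega)]
  · refine ⟨⟨∑ j : Fin T, Polynomial.monomial j (v j).1,
      Submodule.sum_mem _ fun j _ => MonoB_monomial j.2 (v j).2⟩, ?_⟩
    funext j
    refine Subtype.ext ?_
    change (∑ j : Fin T, Polynomial.monomial j (v j).1).coeff j = (v j).1
    rw [Polynomial.finsetSum_coeff, Finset.sum_eq_single j]
    · simp
    · intro i _ hi
      rw [Polynomial.coeff_monomial, if_neg fun h => hi (Fin.ext h)]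
    · simp

theorem MonoB_fin (A : Submodule F K) [Module.Finite F A] (T : ℕ) :
    Module.Finite F (MonoB_P A T) ∧ finrank F (MonoB_P A T) = T * finrank F A := by
  obtain ⟨f⟩ := MonoB_equiv A T
  exact ⟨Module.Finite.equiv f.symm, by rw [f.finrank_eq, finrank_pi_fintype]; simp⟩

theorem MonoB_pow {z : K} (hz : Transcendental F z) :
    LinearIndependent F fun j : ℕ => AdjoinSimple.gen F z ^ j := by
  refine LinearIndependent.of_comp (F⟮z⟯.val.toLinearMap) ?_
  have h := (Polynomial.basisMonomials F).linearIndependent.map'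
    (Polynomial.aeval z : Polynomial F →ₐ[F] K).toLinearMap
    (LinearMap.ker_eq_bot.2 (transcendental_iff_injective.1 hz))
  have e : (F⟮z⟯.val.toLinearMap ∘ fun j : ℕ => AdjoinSimple.gen F z ^ j) =
      (Polynomial.aeval z : Polynomial F →ₐ[F] K).toLinearMap ∘ Polynomial.basisMonomials F := by
    funext j
    simp
  rwa [e]

/-- Lower bound. Plan: multiplication by `β` maps polynomials of degree `< T` with coefficients
in `Abox e` injectively to polynomials of degree `< T + natDegree β` with coefficients in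
`Abox (e + p)`; evaluation at `z` kills the image, and its own image contains the independent
elements `uᵢ z^j`. Let `T` be large. -/
theorem Abox_lower (b : ι → K) (p e : ι → ℕ) {z : K} (hz : Transcendental F z) (β : Polynomial K)
    (hβ : β ≠ 0) (hβz : β.eval z = 0) (hβp : ∀ j, β.coeff j ∈ Abox F b p) {n : ℕ}
    (u : Fin n → K) (hu : LinearIndependent F⟮z⟯ u) (hue : ∀ i, u i ∈ Abox F b (e + p)) :
    finrank F (Abox F b e) + n ≤ finrank F (Abox F b (e + p)) := by
  have := Abox_fin (F := F) b e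
  have := Abox_fin (F := F) b (e + p)
  have key : ∀ T, T * finrank F (Abox F b e) + (T + β.natDegree) * n ≤
      (T + β.natDegree) * finrank F (Abox F b (e + p)) := by
    intro T
    obtain ⟨a1, a2⟩ := MonoB_fin (Abox F b e) T
    obtain ⟨a3, a4⟩ := MonoB_fin (Abox F b (e + p)) (T + β.natDegree)
    let ev : MonoB_P (Abox F b (e + p)) (T + β.natDegree) →ₗ[F] K :=
      ((Polynomial.leval z).restrictScalars F).comp (Submodule.subtype _)
    have h1 := ev.finrank_range_add_finrank_ker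
    have h2 : ∀ q : MonoB_P (Abox F b e) T,
        q.1 * β ∈ MonoB_P (Abox F b (e + p)) (T + β.natDegree) := fun q =>
      ⟨fun j => by
        rw [Polynomial.coeff_mul]
        exact Submodule.sum_mem _ fun c _ => Abox_mul b (q.2.1 _) (hβp _), fun j hj => by
        rw [Polynomial.coeff_mul]
        refine Finset.sum_eq_zero fun c hc => ?_
        have := Finset.HasAntidiagonal.mem_antidiagonal.1 hc
        by_cases h : T ≤ c.1
        · rw [q.2.2 _ h, zero_mul]
        · rw [Polynomial.coeff_eq_zero_of_natDegree_lt (p := β) (by omega), mul_zero]⟩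
    let mu : MonoB_P (Abox F b e) T →ₗ[F] LinearMap.ker ev :=
      { toFun := fun q => ⟨⟨q.1 * β, h2 q⟩, by
          change (q.1 * β).eval z = 0
          rw [Polynomial.eval_mul, hβz, mul_zero]⟩
        map_add' := fun q q' => Subtype.ext (Subtype.ext (add_mul _ _ _))
        map_smul' := fun c q => Subtype.ext (Subtype.ext (smul_mul_assoc _ _ _)) }
    have h3 := mu.finrank_le_finrank_of_injective fun q q' h =>
      Subtype.ext (mul_right_cancel₀ hβ (congrArg (fun x => x.1.1) h))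
    have h4 : LinearIndependent F fun c : Fin (T + β.natDegree) × Fin n =>
        (⟨AdjoinSimple.gen F z ^ (c.1 : ℕ) • u c.2,
          ⟨Polynomial.monomial c.1 (u c.2), MonoB_monomial c.1.2 (hue _)⟩, by
            change (Polynomial.monomial (c.1 : ℕ) (u c.2)).eval z = _
            rw [Polynomial.eval_monomial, mul_comm]
            rfl⟩ : LinearMap.range ev) :=
      LinearIndependent.of_comp (Submodule.subtype _)
        (linearIndependent_smul ((MonoB_pow hz).comp _ Fin.val_injective) hu)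
    have h5 := h4.fintype_card_le_finrank
    rw [Fintype.card_prod, Fintype.card_fin, Fintype.card_fin] at h5
    omega
  by_contra hc
  have := key (β.natDegree * finrank F (Abox F b (e + p)) + 1)
  generalize finrank F (Abox F b (e + p)) = a' at *
  generalize finrank F (Abox F b e) = a at *
  generalize β.natDegree = m at *
  have h1 : (m * a' + 1) * (a' + 1) ≤ (m * a' + 1) * (a + n) := Nat.mul_le_mul_left _ (by omega)
  nlinarith [Nat.zero_le (m * n)]

/-- The degree of a root of a polynomial with coefficients in a box. Plan: assume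
`n = finrank F⟮z⟯ K ≠ 0`; then `z` is transcendental and `trdeg F K = 1`, so `K` is algebraic and
finitely generated, hence finite, over `F⟮b l⟯` for every transcendental `b l` (one exists). The
monomials in `b` span `K` over `F⟮z⟯`, so some `Abox e₀` contains `n` independent elements.
`Abox_lower` gives `N n ≤ finrank (Abox (e₀ + N • p))`, `Abox_upper` bounds it by
`N ∑ p l η l + const`. -/
theorem mono_core (b : ι → K) (hgen : adjoin F (Set.range b) = ⊤)
    (hna : ¬ Algebra.IsAlgebraic F K) (p : ι → ℕ) {z : K} (β : Polynomial K)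
    (hβ : β ≠ 0) (hβz : β.eval z = 0) (hβp : ∀ j, β.coeff j ∈ Abox F b p) :
    finrank F⟮z⟯ K ≤ ∑ l, p l * finrank F⟮b l⟯ K := by
  classical
  by_cases hn : finrank F⟮z⟯ K = 0
  · omega
  have f1 : Module.Finite F⟮z⟯ K := Module.finite_of_finrank_pos (Nat.pos_of_ne_zero hn)
  have a1 : Algebra.IsAlgebraic F⟮z⟯ K := inferInstance
  have hz : Transcendental F z := fun h => by
    have := isAlgebraic_adjoin_simple h.isIntegral
    exact hna (Algebra.IsAlgebraic.trans F F⟮z⟯ K)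
  have htr : Algebra.trdeg F K ≤ 1 := by
    have := isAlgebraic_adjoin_iff_top.1 a1
    simpa using Algebra.IsAlgebraic.trdeg_le_cardinalMk F ({z} : Set K)
  have hfin : ∀ l, Transcendental F (b l) → finrank F⟮b l⟯ K ≠ 0 := fun l hl => by
    have h1 : AlgebraicIndependent F fun _ : Unit => b l :=
      algebraicIndependent_unique_type_iff.2 hl
    have h2 := (h1.isTranscendenceBasis_of_lift_trdeg_le_of_finite
      (by simpa using htr)).isAlgebraic_field
    rw [Set.range_const] at h2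
    have h3 := finiteDimensional_adjoin (K := F⟮b l⟯) (S := Set.range b)
      fun x _ => (h2.isAlgebraic x).isIntegral
    rw [adjoin_eq_top_of_adjoin_eq_top F hgen] at h3
    have h4 : Module.Finite F⟮b l⟯ K := Module.Finite.equiv topEquiv.toLinearEquiv
    exact finrank_pos.ne'
  obtain ⟨l₀, h₀⟩ : ∃ l, Transcendental F (b l) := by
    by_contra! hc
    have h1 := isAlgebraic_adjoin (K := F) (S := Set.range b) (by
      rintro _ ⟨l, rfl⟩
      exact (not_not.1 (hc l)).isIntegral)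
    rw [hgen] at h1
    exact hna (topEquiv.isAlgebraic)
  have hsp : Submodule.span F⟮z⟯ (Submonoid.closure (Set.range b) : Set K) = ⊤ := by
    rw [← Algebra.adjoin_eq_span, (adjoin_eq_top_iff_of_isAlgebraic fun x _ => a1.isAlgebraic x).1
      (adjoin_eq_top_of_adjoin_eq_top F hgen)]
    rfl
  obtain ⟨u, u1, -, u2⟩ := Submodule.exists_fun_fin_finrank_span_eq F⟮z⟯
    (Submonoid.closure (Set.range b) : Set K)
  have hm : ∀ x ∈ Submonoid.closure (Set.range b), ∃ e, x ∈ Abox F b e := by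
    intro x hx
    induction hx using Submonoid.closure_induction with
    | mem x hx =>
      obtain ⟨l, rfl⟩ := hx
      refine ⟨Pi.single l 1, Submodule.subset_span ⟨_, le_rfl, ?_⟩⟩
      rw [Finset.prod_eq_single l (fun i _ hi => by simp [hi]) (by simp)]
      simp
    | one => exact ⟨0, Submodule.subset_span ⟨0, le_rfl, by simp⟩⟩
    | mul x y _ _ hx hy =>
      obtain ⟨e, he⟩ := hx
      obtain ⟨e', he'⟩ := hy
      exact ⟨_, Abox_mul b he he'⟩
  choose e he using fun i => hm (u i) (u1 i)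
  have hd : finrank F⟮z⟯ (Submodule.span F⟮z⟯ (Submonoid.closure (Set.range b) : Set K)) =
      finrank F⟮z⟯ K := by rw [hsp, finrank_top]
  have low : ∀ N : ℕ, N * finrank F⟮z⟯ K ≤ finrank F (Abox F b (∑ i, e i + N • p)) := by
    intro N
    induction N with
    | zero => simp
    | succ N ih =>
      have := Abox_lower b p (∑ i, e i + N • p) hz β hβ hβz hβp u u2 fun i =>
        Abox_mono b ((Finset.single_le_sum (fun _ _ => zero_le) (Finset.mem_univ i)).trans
          (le_self_add.trans le_self_add)) (he i)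
      rw [succ_nsmul, ← add_assoc, add_mul, one_mul]
      omega
  by_contra hc
  have h1 := (low (∑ l, (∑ i, e i) l * finrank F⟮b l⟯ K + finrank F⟮b l₀⟯ K + 1)).trans
    (Abox_upper b l₀ h₀ hfin _)
  simp only [Pi.add_apply, Pi.smul_apply, smul_eq_mul, add_mul _ (_ * p _), mul_assoc,
    Finset.sum_add_distrib, ← Finset.mul_sum] at h1
  generalize ∑ l, (∑ i, e i) l * finrank F⟮b l⟯ K = c at *
  generalize ∑ l, p l * finrank F⟮b l⟯ K = S at *
  generalize finrank F⟮b l₀⟯ K = c' at *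
  have h2 : (c + c' + 1) * (S + 1) ≤ (c + c' + 1) * finrank F⟮z⟯ K :=
    Nat.mul_le_mul_left _ (by omega)
  nlinarith

end Pool.Agent.H69K

/-!
Growth of sequences satisfying a three-term inequality outside a sparse set.
-/

namespace Pool.Agent.H69K

open Filter Topology Pool.Agent.MP_195eb9_ag

/-- The upper exponential growth rate. -/
noncomputable def rate (δ : ℕ → ℝ) : ℝ := limsup (fun n : ℕ => δ n ^ (1 / (n : ℝ))) atTop

lemma Num_le_iff {x b : ℝ} (hx : 0 ≤ x) (hb : 0 ≤ b) {n : ℕ} (hn : n ≠ 0) :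
    x ^ (1 / (n : ℝ)) ≤ b ↔ x ≤ b ^ n := by
  rw [one_div, Real.rpow_inv_le_iff_of_pos hx hb (by positivity), Real.rpow_natCast]

lemma Num_ge_iff {x b : ℝ} (hx : 0 ≤ x) (hb : 0 ≤ b) {n : ℕ} (hn : n ≠ 0) :
    b ≤ x ^ (1 / (n : ℝ)) ↔ b ^ n ≤ x := by
  rw [one_div, Real.le_rpow_inv_iff_of_pos hb hx (by positivity), Real.rpow_natCast]

lemma Num_ev (c : ℝ) {b b' : ℝ} (hb : 0 < b) (h : b < b') :
    ∀ᶠ n : ℕ in atTop, c * b ^ n ≤ b' ^ n := by
  filter_upwards [(tendsto_pow_atTop_atTop_of_one_lt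
    ((one_lt_div hb).2 h)).eventually_ge_atTop c] with n hn
  rwa [div_pow, le_div_iff₀ (pow_pos hb n)] at hn

lemma Num_ratio {G : ℕ → ℝ} {c : ℝ} (hc : 0 ≤ c) (h : ∀ n, G (n + 1) ≤ c * G n) (n r : ℕ) :
    G (n + r) ≤ c ^ r * G n := by
  induction r with
  | zero => simp
  | succ r ih =>
    calc G (n + (r + 1)) ≤ c * G (n + r) := h (n + r)
      _ ≤ c * (c ^ r * G n) := mul_le_mul_of_nonneg_left ih hc
      _ = c ^ (r + 1) * G n := by ring

lemma Num_bdd {δ : ℕ → ℝ} {c : ℝ} (h1 : ∀ n, 1 ≤ δ n) (hc : ∀ n, δ (n + 1) ≤ c * δ n) :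
    IsBoundedUnder (· ≤ ·) atTop (fun n : ℕ => δ n ^ (1 / (n : ℝ))) := by
  have h0 : 0 < δ 0 := one_pos.trans_le (h1 0)
  have c0 : 0 < c := (mul_pos_iff_of_pos_right h0).1 (one_pos.trans_le ((h1 1).trans (hc 0)))
  refine isBoundedUnder_of_eventually_le (a := c * δ 0) ?_
  filter_upwards [eventually_ne_atTop 0] with n hn
  rw [Num_le_iff (zero_le_one.trans (h1 n)) (by positivity) hn, mul_pow]
  have := Num_ratio c0.le hc 0 n
  rw [zero_add] at this
  exact this.trans (mul_le_mul_of_nonneg_left (le_self_pow₀ (h1 0) hn) (by positivity))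

lemma Num_cobdd {δ : ℕ → ℝ} (h1 : ∀ n, 1 ≤ δ n) :
    IsCoboundedUnder (· ≤ ·) atTop (fun n : ℕ => δ n ^ (1 / (n : ℝ))) :=
  isCoboundedUnder_le_of_le atTop (x := 0) fun n => Real.rpow_nonneg (zero_le_one.trans (h1 n)) _

theorem rate_up {δ : ℕ → ℝ} {c : ℝ} (h1 : ∀ n, 1 ≤ δ n) (hc : ∀ n, δ (n + 1) ≤ c * δ n) {b : ℝ}
    (hb : rate δ < b) : ∀ᶠ n in atTop, δ n ≤ b ^ n := by
  filter_upwards [eventually_lt_of_limsup_lt hb (Num_bdd h1 hc), eventually_ne_atTop 0] with n h hn
  have h0 := zero_le_one.trans (h1 n)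
  exact (Num_le_iff h0 ((Real.rpow_nonneg h0 _).trans h.le) hn).1 h.le

theorem rate_lo {δ : ℕ → ℝ} (h1 : ∀ n, 1 ≤ δ n) {b : ℝ} (hb0 : 0 ≤ b) (hb : b < rate δ) :
    ∃ᶠ n in atTop, b ^ n ≤ δ n := by
  refine ((frequently_lt_of_lt_limsup (Num_cobdd h1) hb).and_eventually
    (eventually_ne_atTop 0)).mono fun n h => ?_
  exact (Num_ge_iff (zero_le_one.trans (h1 n)) hb0 h.2).1 h.1.le

theorem one_le_rate {δ : ℕ → ℝ} {c : ℝ} (h1 : ∀ n, 1 ≤ δ n) (hc : ∀ n, δ (n + 1) ≤ c * δ n) :
    1 ≤ rate δ :=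
  le_limsup_of_frequently_le
    (Frequently.of_forall fun n => Real.one_le_rpow (h1 n) (by positivity)) (Num_bdd h1 hc)

theorem rate_le {δ δ' : ℕ → ℝ} {c c' : ℝ} (h1 : ∀ n, 1 ≤ δ n) (h1' : ∀ n, 1 ≤ δ' n)
    (hc : ∀ n, δ' (n + 1) ≤ c * δ' n) (h : ∀ n, δ n ≤ c' * δ' n) : rate δ ≤ rate δ' := by
  refine le_of_forall_gt_imp_ge_of_dense fun b hb => ?_
  obtain ⟨b', h2, h3⟩ := exists_between hb
  have b0 : 0 < b' := (one_pos.trans_le (one_le_rate h1' hc)).trans h2
  refine limsup_le_of_le (Num_cobdd h1) ?_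
  filter_upwards [rate_up h1' hc h2, Num_ev (max c' 0) b0 h3, eventually_ne_atTop 0] with n a1 a2 hn
  rw [Num_le_iff (zero_le_one.trans (h1 n)) (b0.trans h3).le hn]
  exact (h n).trans ((mul_le_mul (le_max_left _ _) a1 (zero_le_one.trans (h1' n))
    (le_max_right _ _)).trans a2)

theorem BZ_shift {S : Set ℕ} (hS : BZ S) (r : ℕ) : BZ {n | n + r ∈ S} := by
  classical
  intro ε hε
  obtain ⟨c, hc⟩ := hS ε hε
  refine ⟨c, fun a L => le_trans ?_ (hc (a + r) L)⟩
  unfold cnt
  rw [Nat.cast_le]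
  refine Finset.card_le_card_of_injOn (· + r) (fun n hn => ?_) fun _ _ _ _ h => by simpa using h
  simp only [Finset.coe_filter, Finset.mem_Ico, Set.mem_ofPred_eq] at hn ⊢
  exact ⟨⟨by omega, by omega⟩, hn.2⟩

lemma Num_cnt_le (S : Set ℕ) (a : ℕ) {L L' : ℕ} (h : L ≤ L') : cnt S a L ≤ cnt S a L' := by
  classical
  unfold cnt
  refine Finset.card_le_card fun n hn => ?_
  simp only [Finset.mem_filter, Finset.mem_Ico] at hn ⊢
  exact ⟨⟨hn.1.1, by omega⟩, hn.2⟩

lemma Num_cnt_lt (S : Set ℕ) (a : ℕ) {L L' : ℕ} (h : L < L') (hS : a + L ∈ S) :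
    cnt S a L < cnt S a L' := by
  classical
  unfold cnt
  refine Finset.card_lt_card ⟨fun n hn => ?_, fun hn => ?_⟩
  · simp only [Finset.mem_filter, Finset.mem_Ico] at hn ⊢
    exact ⟨⟨hn.1.1, by omega⟩, hn.2⟩
  · have := @hn (a + L) (by
      simp only [Finset.mem_filter, Finset.mem_Ico]
      exact ⟨⟨by omega, by omega⟩, hS⟩)
    simp only [Finset.mem_filter, Finset.mem_Ico] at this
    omega

/-- Growth along a progression when the steps outside a sparse set have ratio at most `ρ`.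
Plan: with `A' = max A ρ`, `G (N + q m) ≤ ρ ^ q (A' / ρ) ^ cnt S N (q m) * G N` by induction on `q`;
choose `ε` with `(A' / ρ) ^ (ε m) ≤ ρ' / ρ`. -/
theorem ub_BZ {G : ℕ → ℝ} (hG : ∀ n, 0 < G n) {S : Set ℕ} (hS : BZ S) {m N : ℕ} (hm : 1 ≤ m)
    {ρ ρ' A : ℝ} (hρ : 0 < ρ) (hρ' : ρ < ρ') (hA : ∀ n, G (n + m) ≤ A * G n)
    (h : ∀ n, N ≤ n → n ∉ S → G (n + m) ≤ ρ * G n) :
    ∃ c : ℝ, ∀ q : ℕ, G (N + q * m) ≤ c * ρ' ^ q := by
  obtain ⟨t, t1, ht⟩ : ∃ t : ℝ, 1 ≤ t ∧ A ≤ ρ * t :=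
    ⟨max 1 (A / ρ), le_max_left _ _, by
      rw [← div_le_iff₀' hρ]
      exact le_max_right _ _⟩
  have t0 : 0 < t := one_pos.trans_le t1
  have key : ∀ q : ℕ, G (N + q * m) ≤ ρ ^ q * t ^ cnt S N (q * m) * G N := by
    intro q
    have g0 := hG N
    induction q with
    | zero => simpa using le_mul_of_one_le_left g0.le (one_le_pow₀ t1)
    | succ q ih =>
      have e : N + (q + 1) * m = N + q * m + m := by ring
      have l : q * m < (q + 1) * m := by nlinarith
      rw [e]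
      by_cases hq : N + q * m ∈ S
      · calc G (N + q * m + m) ≤ A * G (N + q * m) := hA _
          _ ≤ ρ * t * (ρ ^ q * t ^ cnt S N (q * m) * G N) :=
            mul_le_mul ht ih (hG _).le (by positivity)
          _ = ρ ^ (q + 1) * t ^ (cnt S N (q * m) + 1) * G N := by ring
          _ ≤ _ := by
            have := pow_le_pow_right₀ t1 (Nat.succ_le_of_lt (Num_cnt_lt S N l hq))
            gcongr
      · calc G (N + q * m + m) ≤ ρ * G (N + q * m) := h _ (by omega) hq
          _ ≤ ρ * (ρ ^ q * t ^ cnt S N (q * m) * G N) := mul_le_mul_of_nonneg_left ih hρ.le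
          _ = ρ ^ (q + 1) * t ^ cnt S N (q * m) * G N := by ring
          _ ≤ _ := by
            have := pow_le_pow_right₀ t1 (Num_cnt_le S N l.le)
            gcongr
  have κ1 : 1 < ρ' / ρ := (one_lt_div hρ).2 hρ'
  obtain ⟨K, hK⟩ := pow_unbounded_of_one_lt t κ1
  have m0 : (0 : ℝ) < m := by exact_mod_cast hm
  obtain ⟨c, hc⟩ := hS (1 / ((K + 1) * m)) (by positivity)
  obtain ⟨C, hC⟩ := exists_nat_ge ((K + 1) * c)
  refine ⟨(ρ' / ρ) ^ C * G N, fun q => (key q).trans ?_⟩
  have a1 : K * cnt S N (q * m) ≤ q + C := by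
    have a2 := mul_le_mul_of_nonneg_left (hc N (q * m)) (by positivity : (0 : ℝ) ≤ K + 1)
    have a3 : ((K : ℝ) + 1) * (1 / ((K + 1) * m) * ((q * m : ℕ) : ℝ) + c) = q + (K + 1) * c := by
      push_cast
      field_simp
    have a4 : (0 : ℝ) ≤ cnt S N (q * m) := by positivity
    have : (K : ℝ) * cnt S N (q * m) ≤ q + C := by linarith
    exact_mod_cast this
  have a2 : t ^ cnt S N (q * m) ≤ (ρ' / ρ) ^ (q + C) :=
    (pow_le_pow_left₀ t0.le hK.le _).trans (by
      rw [← pow_mul]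
      exact pow_le_pow_right₀ κ1.le a1)
  have g0 := hG N
  calc ρ ^ q * t ^ cnt S N (q * m) * G N ≤ ρ ^ q * (ρ' / ρ) ^ (q + C) * G N := by gcongr
    _ = (ρ' / ρ) ^ C * G N * (ρ * (ρ' / ρ)) ^ q := by rw [mul_pow, pow_add]; ring
    _ = _ := by rw [mul_div_cancel₀ _ hρ.ne']

lemma Num_ratio' {G : ℕ → ℝ} {c : ℝ} (hc : 1 ≤ c) (G0 : ∀ n, 0 ≤ G n)
    (h : ∀ n, G (n + 1) ≤ c * G n) (n : ℕ) {r m : ℕ} (hr : r ≤ m) : G (n + r) ≤ c ^ m * G n :=
  (Num_ratio (zero_le_one.trans hc) h n r).trans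
    (mul_le_mul_of_nonneg_right (pow_le_pow_right₀ hc hr) (G0 n))

lemma Num_upper {G δ : ℕ → ℝ} {c c₁ : ℝ} (hc : 1 ≤ c) (hc₁ : 1 ≤ c₁) (h1 : ∀ n, 1 ≤ δ n)
    (hs : ∀ n, δ (n + 1) ≤ c * δ n) (G1 : ∀ n, 1 ≤ G n) (Gt : Tendsto G atTop atTop)
    (hR : ∀ n, G (n + 1) ≤ c₁ * G n)
    (hU : ∀ i, ∃ (S : Set ℕ) (C : ℝ), BZ S ∧ ∀ n, n ∉ S → G (n + i) ≤ c * δ i * G n + C)
    {b : ℝ} (hb : rate δ < b) : ∃ c' : ℝ, ∀ᶠ n in atTop, G n ≤ c' * b ^ n := by
  obtain ⟨b', b1, b2⟩ := exists_between hb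
  have b3 : 1 < b' := (one_le_rate h1 hs).trans_lt b1
  have G0 := fun n => one_pos.trans_le (G1 n)
  obtain ⟨i, i1, i2, i3⟩ := ((rate_up h1 hs b1).and ((Num_ev (4 * c) (one_pos.trans b3) b2).and
    (eventually_ge_atTop 1))).exists
  obtain ⟨S, C, hS, h⟩ := hU i
  obtain ⟨N, hN⟩ := eventually_atTop.1 (Gt.eventually_ge_atTop C)
  have d1 : 1 ≤ c * δ i := one_le_mul_of_one_le_of_one_le hc (h1 i)
  have d2 : c * δ i ≤ c * b' ^ i := mul_le_mul_of_nonneg_left i1 (zero_le_one.trans hc)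
  obtain ⟨c₂, h2⟩ := ub_BZ G0 hS (N := N) i3 (ρ := 2 * (c * δ i)) (ρ' := b ^ i) (by linarith)
    (by linarith) (fun n => Num_ratio (zero_le_one.trans hc₁) hR n i) (fun n hn hS => by
      have := le_mul_of_one_le_left (G0 n).le d1
      linarith [h n hS, hN n hn])
  have c0 : 0 ≤ c₂ := by
    have := h2 0
    rw [pow_zero, mul_one] at this
    exact (G0 _).le.trans this
  refine ⟨c₁ ^ i * c₂, eventually_atTop.2 ⟨N, fun n hn => ?_⟩⟩
  have e1 := Nat.div_add_mod' (n - N) i
  have e2 := Nat.mod_lt (n - N) i3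
  generalize (n - N) / i = q at e1
  generalize (n - N) % i = r at e1 e2
  obtain rfl : n = N + q * i + r := by omega
  have a1 : (b ^ i) ^ q ≤ b ^ (N + q * i + r) := by
    rw [← pow_mul, mul_comm i q]
    exact pow_le_pow_right₀ (b3.trans b2).le (by omega)
  calc G (N + q * i + r) ≤ c₁ ^ i * G (N + q * i) :=
        Num_ratio' hc₁ (fun n => (G0 n).le) hR _ e2.le
    _ ≤ c₁ ^ i * (c₂ * b ^ (N + q * i + r)) :=
        mul_le_mul_of_nonneg_left ((h2 q).trans (mul_le_mul_of_nonneg_left a1 c0)) (by positivity)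
    _ = _ := by ring

lemma Num_step {δ₁ δ₂ : ℕ → ℝ} {c : ℝ} (hc : 1 ≤ c) (h1 : ∀ n, 1 ≤ δ₁ n) (h2 : ∀ n, 1 ≤ δ₂ n)
    (hs1 : ∀ n, δ₁ (n + 1) ≤ c * δ₁ n) (hs2 : ∀ n, δ₂ (n + 1) ≤ c * δ₂ n) {b : ℝ}
    (hb2 : rate δ₂ < b) (hb1 : b < rate δ₁) :
    ∃ m, 1 ≤ m ∧ δ₂ m ≤ b ^ m ∧ 8 * b ^ m * (c * δ₁ m) ≤ δ₁ (2 * m) := by
  have b1 : 1 < b := (one_le_rate h2 hs2).trans_lt hb2
  have b0 : 0 < b := one_pos.trans b1
  have l0 : 0 < rate δ₁ := b0.trans hb1
  obtain ⟨β, a1, a2⟩ := exists_between (show rate δ₁ < rate δ₁ ^ 2 / b by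
    rw [lt_div_iff₀ b0, sq]
    exact mul_lt_mul_of_pos_left hb1 l0)
  rw [lt_div_iff₀ b0] at a2
  obtain ⟨y, a3, a4⟩ := exists_between a2
  have β1 : 1 < β := (b1.trans hb1).trans a1
  have y1 : 1 < y := (one_lt_mul_of_le_of_lt β1.le b1).trans a3
  obtain ⟨M, hM⟩ := eventually_atTop.1 ((rate_up h1 hs1 a1).and ((rate_up h2 hs2 hb2).and
    ((Num_ev (8 * c ^ 2) (by positivity) a3).and (eventually_ge_atTop 1))))
  obtain ⟨n, n1, n2⟩ := frequently_atTop.1 (rate_lo h1 (Real.sqrt_nonneg y)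
    ((Real.sqrt_lt' l0).2 a4)) (2 * M)
  obtain ⟨m1, m2, m3, m4⟩ := hM (n / 2) (by omega)
  refine ⟨n / 2, m4, m2, ?_⟩
  have c0 : 0 < c := one_pos.trans_le hc
  have a5 : y ^ (n / 2) ≤ c * δ₁ (2 * (n / 2)) := by
    have a6 : y ^ (n / 2) ≤ √y ^ n := by
      conv_lhs => rw [← Real.sq_sqrt (zero_le_one.trans y1.le), ← pow_mul]
      exact pow_le_pow_right₀ (Real.one_le_sqrt.2 y1.le) (by omega)
    have a7 := Num_ratio' hc (fun n => zero_le_one.trans (h1 n)) hs1 (2 * (n / 2))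
      (r := n % 2) (m := 1) (by omega)
    rw [pow_one, Nat.div_add_mod] at a7
    exact a6.trans (n2.trans a7)
  refine le_of_mul_le_mul_left ?_ c0
  calc c * (8 * b ^ (n / 2) * (c * δ₁ (n / 2))) ≤ c * (8 * b ^ (n / 2) * (c * β ^ (n / 2))) := by
        gcongr
    _ = 8 * c ^ 2 * (β * b) ^ (n / 2) := by rw [mul_pow]; ring
    _ ≤ _ := m3.trans a5

lemma Num_lower {G : ℕ → ℝ} {c₁ b : ℝ} (hc₁ : 1 ≤ c₁) (hb : 1 ≤ b) (G1 : ∀ n, 1 ≤ G n)
    (hR : ∀ n, G (n + 1) ≤ c₁ * G n) {S : Set ℕ} (hS : BZ S) {m J N : ℕ} (hm : 1 ≤ m)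
    (st : ∀ n, N ≤ n → n ∉ S → G n ≤ 2 * G (n + m) → b ^ m * G (n + m) ≤ G (n + 2 * m))
    (hJ : ∀ n, N ≤ n → n + J * m ∈ S → G (n + J * m) < (b ^ m) ^ J * G n) :
    ∃ c' : ℝ, 0 < c' ∧ ∀ᶠ n in atTop, b ^ n ≤ c' * G n := by
  have G0 := fun n => one_pos.trans_le (G1 n)
  have B1 : 1 ≤ b ^ m := one_le_pow₀ hb
  obtain ⟨n₀, n1, n2, n3⟩ : ∃ n₀, N ≤ n₀ ∧ (∀ j ≤ J, n₀ + j * m ∉ S) ∧ G n₀ ≤ 2 * G (n₀ + m) := by
    by_contra hcon
    obtain ⟨c₂, h⟩ := ub_BZ G0 (BZ.biUnion (Finset.range (J + 1)) (fun j => {n | n + j * m ∈ S})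
      fun j _ => BZ_shift hS _) (N := N) hm (ρ := 1 / 2) (ρ' := 3 / 4) (by norm_num) (by norm_num)
      (fun n => Num_ratio (zero_le_one.trans hc₁) hR n m) (fun n hn hS => by
        by_contra h
        refine hcon ⟨n, hn, fun j hj h' => hS ?_, by linarith⟩
        exact Set.mem_biUnion (Finset.mem_coe.2 (Finset.mem_range.2 (Nat.lt_succ_of_le hj))) h')
    obtain ⟨q, hq⟩ := (Num_ev (2 * c₂) (b := 3 / 4) (b' := 1) (by norm_num) (by norm_num)).exists
    rw [one_pow] at hq
    linarith [h q, G1 (N + q * m)]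
  have e1 : ∀ j, n₀ + j * m + m = n₀ + (j + 1) * m := fun j => by ring
  have e2 : ∀ j, n₀ + j * m + 2 * m = n₀ + (j + 1 + 1) * m := fun j => by ring
  have fast : ∀ j, (∀ i < j, n₀ + i * m ∉ S) → G (n₀ + j * m) ≤ 2 * G (n₀ + (j + 1) * m) := by
    intro j
    induction j with
    | zero => intro _; simpa using n3
    | succ j ih =>
      intro h
      have a1 := st (n₀ + j * m) (by omega) (h j (by omega))
        (by rw [e1]; exact ih fun i hi => h i (by omega))
      rw [e1, e2] at a1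
      have := le_mul_of_one_le_left (G0 (n₀ + (j + 1) * m)).le B1
      linarith [G0 (n₀ + (j + 1 + 1) * m)]
  have chain : ∀ a t, (∀ i < a + t, n₀ + i * m ∉ S) →
      (b ^ m) ^ t * G (n₀ + (a + 1) * m) ≤ G (n₀ + (a + t + 1) * m) := by
    intro a t
    induction t with
    | zero => intro _; simp
    | succ t ih =>
      intro h
      have a1 := st (n₀ + (a + t) * m) (by omega) (h _ (by omega))
        (by rw [e1]; exact fast _ fun i hi => h i (by omega))
      rw [e1, e2] at a1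
      calc (b ^ m) ^ (t + 1) * G (n₀ + (a + 1) * m)
          = b ^ m * ((b ^ m) ^ t * G (n₀ + (a + 1) * m)) := by ring
        _ ≤ b ^ m * G (n₀ + (a + t + 1) * m) :=
          mul_le_mul_of_nonneg_left (ih fun i hi => h i (by omega)) (by positivity)
        _ ≤ _ := a1
  have all : ∀ j, n₀ + j * m ∉ S := by
    intro j
    induction j using Nat.strong_induction_on with
    | _ j ih =>
      rcases le_or_gt j J with hj | hj
      · exact n2 j hj
      · obtain ⟨a, rfl⟩ : ∃ a, j = a + J + 1 := ⟨j - J - 1, by omega⟩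
        intro h
        have e : n₀ + (a + J + 1) * m = n₀ + (a + 1) * m + J * m := by ring
        have a1 := chain a J fun i hi => ih i (by omega)
        rw [e] at h a1
        exact (hJ _ (by omega) h).not_ge a1
  refine ⟨b ^ (n₀ + m) * c₁ ^ m, by positivity, eventually_atTop.2 ⟨n₀, fun n hn => ?_⟩⟩
  have e3 := Nat.div_add_mod' (n - n₀) m
  have e4 := Nat.mod_lt (n - n₀) hm
  generalize (n - n₀) / m = t at e3
  generalize (n - n₀) % m = r at e3 e4
  have a1 := chain 0 t fun i _ => all i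
  have e5 : n₀ + (0 + t + 1) * m = n + (m - r) := by
    rw [zero_add, add_mul, one_mul]
    omega
  rw [e5] at a1
  have a2 := Num_ratio' hc₁ (fun n => (G0 n).le) hR n (Nat.sub_le m r)
  have a3 : (b ^ m) ^ t ≤ (b ^ m) ^ t * G (n₀ + (0 + 1) * m) :=
    le_mul_of_one_le_right (by positivity) (G1 _)
  calc b ^ n ≤ b ^ (n₀ + m + m * t) := pow_le_pow_right₀ hb (by rw [mul_comm m t]; omega)
    _ = b ^ (n₀ + m) * (b ^ m) ^ t := by rw [pow_add _ (n₀ + m), pow_mul]
    _ ≤ b ^ (n₀ + m) * (c₁ ^ m * G n) :=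
      mul_le_mul_of_nonneg_left (a3.trans (a1.trans a2)) (by positivity)
    _ = _ := by ring

/-- The numerical theorem. Plan: put `G n = H n + 1`, so `G (n + 1) ≤ 2 c G n` and `G → ∞`;
`1 ≤ rate δ₂ < rate δ₁`. Upper bound: for `b > rate δ₁` take `i ≥ 1` with `2 c δ₁ i < b ^ i`; for large
`n ∉ S`, `G (n + i) ≤ 2 c δ₁ i * G n`; `ub_BZ` along one progression and the ratio bound for the
other residues give `G n ≤ c' b ^ n`. Lower bound: fix `rate δ₂ < b₂ < b < rate δ₁`. Choose `m ≥ 1`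
(`rate_lo`, `hs1` to pass to an even index `2 m`, `rate_up`) such that
`s = δ₁ (2 m) / (c δ₁ m)` has `s ≥ 8`, `s ≥ 8 δ₂ m`, `s / 2 ≥ b ^ m`. Call `n` fast if
`G n ≤ 2 G (n + m)`. For large fast `n ∉ S`: `(s / 2) G (n + m) ≤ G (n + 2 m)`, so `n + m` is fast.
Take `J ≥ 1` with `c' δ₂ (J m) ≤ b ^ (J m) / 4`. There are arbitrarily large fast `n₀` with
`n₀ + j m ∉ S` for all `j ≤ J` (otherwise `ub_BZ` with `ρ = 1/2`, `ρ' = 3/4` and the union of the
shifts of `S` bounds `G` on a progression). By strong induction `n₀ + j m ∉ S` for all `j`: if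
`n₀ + j m ∈ S`, `j > J`, then `n' = n₀ + (j - J) m` has
`b ^ (J m) G n' ≤ G (n' + J m) ≤ c' δ₂ (J m) G n' + C' + 1`, false for large `n'`. So
`b ^ (m j) G (n₀ + m) ≤ G (n₀ + (j + 1) m)`; for other `n` use the ratio bound
`G (n + r) ≤ (2 c) ^ m G n`, `r ≤ m`. Finally `G / 2 ≤ max 1 H ≤ G`. -/
theorem numer (H δ₁ δ₂ : ℕ → ℝ) (c : ℝ) (hc : 1 ≤ c) (h1 : ∀ n, 1 ≤ δ₁ n) 
    (h2 : ∀ n, 1 ≤ δ₂ n)
    (hs1 : ∀ n, δ₁ (n + 1) ≤ c * δ₁ n) (hs2 : ∀ n, δ₂ (n + 1) ≤ c * δ₂ n)
    (hlt : rate δ₂ < rate δ₁) (H0 : ∀ n, 0 ≤ H n) (Ht : Tendsto H atTop atTop)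
    (hR : ∀ n, H (n + 1) ≤ c * (H n + 1))
    (hU : ∀ i, ∃ (S : Set ℕ) (C : ℝ), BZ S ∧ ∀ n, n ∉ S → H (n + i) ≤ c * δ₁ i * H n + C)
    (hI : ∀ m, ∃ (S : Set ℕ) (C : ℝ), BZ S ∧
      (∃ c' : ℝ, ∀ i, ∃ C' : ℝ, ∀ n, n + i ∈ S → H (n + i) ≤ c' * δ₂ i * H n + C') ∧
      ∀ n, n ∉ S → δ₁ (2 * m) * H (n + m) ≤ c * δ₁ m * (H (n + 2 * m) + δ₂ m * H n) + C) :
    Tendsto (fun n : ℕ => (max 1 (H n)) ^ (1 / (n : ℝ))) atTop (𝓝 (rate δ₁)) := by
  have G1 : ∀ n, 1 ≤ H n + 1 := fun n => by linarith [H0 n]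
  have c1 : 1 ≤ 2 * c := by linarith
  have GR : ∀ n, H (n + 1) + 1 ≤ 2 * c * (H n + 1) := fun n => by
    linarith [hR n, one_le_mul_of_one_le_of_one_le hc (G1 n)]
  have Gt : Tendsto (fun n => H n + 1) atTop atTop := tendsto_atTop_add_const_right _ _ Ht
  have r2 := one_le_rate h2 hs2
  have m0 : ∀ n, 0 ≤ max 1 (H n) := fun n => zero_le_one.trans (le_max_left _ _)
  refine tendsto_order.2 ⟨fun a ha => ?_, fun a ha => ?_⟩
  · obtain ⟨b, b1, b2⟩ := exists_between (max_lt ha hlt)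
    obtain ⟨b', b3, b4⟩ := exists_between b1
    have b5 : rate δ₂ < b' := (le_max_right _ _).trans_lt b3
    have b6 : 1 < b' := r2.trans_lt b5
    have b0 : 0 < b' := one_pos.trans b6
    obtain ⟨m, hm, s1, s2⟩ := Num_step hc h1 h2 hs1 hs2 (b5.trans b4) b2
    obtain ⟨S, C, hS, ⟨c', hc'⟩, h⟩ := hI m
    obtain ⟨J, hJ⟩ := eventually_atTop.1 ((rate_up h2 hs2 b5).and (Num_ev (2 * max c' 0) b0 b4))
    obtain ⟨j1, j2⟩ := hJ (J * m) (Nat.le_mul_of_pos_right J hm)
    obtain ⟨C', hC'⟩ := hc' (J * m)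
    obtain ⟨N, hN⟩ := eventually_atTop.1 ((Gt.eventually_ge_atTop (max C 0 + 8 * b ^ m)).and
      (Gt.eventually_gt_atTop (2 * (C' + 1))))
    have B1 : 1 ≤ b ^ m := one_le_pow₀ (b6.trans b4).le
    obtain ⟨c₂, c0, h3⟩ := Num_lower (G := fun n => H n + 1) (J := J) (N := N) c1 (b6.trans b4).le
      G1 GR hS hm (fun n hn hS hf => by
        have D1 : 1 ≤ c * δ₁ m := one_le_mul_of_one_le_of_one_le hc (h1 m)
        have a1 := h n hS
        have a2 := mul_le_mul_of_nonneg_right s2 (H0 (n + m))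
        have a3 := mul_le_mul_of_nonneg_right s1 (H0 n)
        have a4 : C ≤ c * δ₁ m * max C 0 :=
          (le_max_left _ _).trans (le_mul_of_one_le_left (le_max_right _ _) D1)
        have a5 : 8 * b ^ m * H (n + m) ≤ H (n + 2 * m) + δ₂ m * H n + max C 0 :=
          le_of_mul_le_mul_left (by linarith) (one_pos.trans_le D1)
        have a6 := (hN (n + m) (by omega)).1
        have a7 := mul_le_mul_of_nonneg_left hf (zero_le_one.trans B1)
        have a8 := le_mul_of_one_le_left (zero_le_one.trans (G1 (n + m))) B1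
        linarith [G1 (n + m)])
      (fun n hn hS => by
        have a1 := hC' n hS
        have a2 := (hN n hn).2
        have a3 : c' * δ₂ (J * m) ≤ max c' 0 * b' ^ (J * m) :=
          mul_le_mul (le_max_left _ _) j1 (zero_le_one.trans (h2 _)) (le_max_right _ _)
        have a4 : c' * δ₂ (J * m) * H n ≤ b ^ (J * m) / 2 * H n :=
          mul_le_mul_of_nonneg_right (by linarith) (H0 n)
        have a5 : 1 ≤ b ^ (J * m) := one_le_pow₀ (b6.trans b4).le
        have a6 := le_mul_of_one_le_left (zero_le_one.trans (G1 n)) a5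
        rw [← pow_mul, mul_comm m J]
        linarith)
    filter_upwards [h3, Num_ev (2 * c₂) b0 b4, eventually_ne_atTop 0] with n a1 a2 hn
    refine ((le_max_left _ _).trans_lt b3).trans_le ((Num_ge_iff (m0 n) b0.le hn).2 ?_)
    have a3 : H n + 1 ≤ 2 * max 1 (H n) := by linarith [le_max_left 1 (H n), le_max_right 1 (H n)]
    have a4 := mul_le_mul_of_nonneg_left a3 c0.le
    exact le_of_mul_le_mul_left (a := 2 * c₂) (by linarith) (by positivity)
  · obtain ⟨b, b1, b2⟩ := exists_between ha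
    obtain ⟨b', b3, b4⟩ := exists_between b2
    have b0 : 0 < b := (one_pos.trans_le (one_le_rate h1 hs1)).trans b1
    obtain ⟨c', h⟩ := Num_upper (G := fun n => H n + 1) hc c1 h1 hs1 G1 Gt GR (fun i => by
      obtain ⟨S, C, hS, h⟩ := hU i
      refine ⟨S, C + 1, hS, fun n hn => ?_⟩
      linarith [h n hn, one_le_mul_of_one_le_of_one_le hc (h1 i)]) b1
    filter_upwards [h, Num_ev c' b0 b3, eventually_ne_atTop 0] with n a1 a2 hn
    refine ((Num_le_iff (m0 n) (b0.trans b3).le hn).2 ?_).trans_lt b4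
    exact (max_le (G1 n) (by linarith)).trans (a1.trans a2)

end Pool.Agent.H69K
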