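import Pool.Agent.MP_195eb9_ag.Srf.D
import Pool.Agent.MP_195eb9_ag.H69.A

/-!
Intersection numbers of functions as degrees of field extensions.
-/

namespace Pool.Agent.H69K

open IntermediateField MvPolynomial Pool.Agent.H35S

universe u

variable {k K : Type u} [Field k] [Field K] [Algebra k K] {ι : Type} [Fintype ι] {d : ℕ}

variable (k K) in
/-- Finitely generated extensions of transcendence degree `d`. -/
structure Ff (d : ℕ) : Prop where
  fg : (⊤ : IntermediateField k K).FG
  tr : Algebra.trdeg k K = d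

variable (k) in
/-- The index of the subfield generated by `S`. -/
noncomputable def ix (S : Set K) : ℕ := Module.finrank (adjoin k S) K

/-- Sets with at most `n` elements. -/
def Sm {α : Type*} (S : Set α) (n : ℕ) : Prop := ∃ T : Finset α, S ⊆ T ∧ T.card ≤ n

variable (k) in
/-- `z` is a root of a nonzero polynomial whose coefficients have degree at most `D` in each
`b l`. -/
def PD (b : ι → K) (z : K) (D : ℕ) : Prop :=
  ∃ P : Polynomial (MvPolynomial ι k), (∀ j l, degreeOf l (P.coeff j) ≤ D) ∧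
    P.map (aeval b : MvPolynomial ι k →ₐ[k] K).toRingHom ≠ 0 ∧
    (P.map (aeval b : MvPolynomial ι k →ₐ[k] K).toRingHom).eval z = 0

variable (k) in
/-- Mixed degrees of two families. -/
noncomputable def md (d j : ℕ) (b a : ι → K) : ℕ :=
  ∑ c : Fin j → ι, ∑ c' : Fin (d - j) → ι, ix k (Set.range (b ∘ c) ∪ Set.range (a ∘ c'))

section sm
variable {α β : Type*} {S T : Set α} {m n : ℕ}

theorem Sm.mono (h : Sm T n) (hS : S ⊆ T) : Sm S n := by
  obtain ⟨U, h1, h2⟩ := h
  exact ⟨U, hS.trans h1, h2⟩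

theorem Sm.le (h : Sm S m) (hmn : m ≤ n) : Sm S n := by
  obtain ⟨U, h1, h2⟩ := h
  exact ⟨U, h1, h2.trans hmn⟩

theorem Sm.union (hS : Sm S m) (hT : Sm T n) : Sm (S ∪ T) (m + n) := by
  classical
  obtain ⟨U, h1, h2⟩ := hS
  obtain ⟨V, h3, h4⟩ := hT
  refine ⟨U ∪ V, ?_, (Finset.card_union_le _ _).trans (add_le_add h2 h4)⟩
  rw [Finset.coe_union]
  exact Set.union_subset_union h1 h3

theorem Sm.insert (hS : Sm S m) (x : α) : Sm (insert x S) (m + 1) := by
  classical
  obtain ⟨U, h1, h2⟩ := hS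
  refine ⟨Insert.insert x U, ?_, (Finset.card_insert_le _ _).trans (by omega)⟩
  rw [Finset.coe_insert]
  exact Set.insert_subset_insert h1

theorem Sm.image (f : β → α) (C : Finset β) : Sm (f '' C) C.card := by
  classical
  exact ⟨C.image f, by rw [Finset.coe_image], Finset.card_image_le⟩

theorem Sm.range [Fintype β] (f : β → α) : Sm (Set.range f) (Fintype.card β) := by
  have := Sm.image f Finset.univ
  rwa [Finset.coe_univ, Set.image_univ] at this

theorem Sm.map (hS : Sm S n) (f : α → β) : Sm (f '' S) n := by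
  obtain ⟨U, h1, h2⟩ := hS
  exact ((Sm.image f U).mono (Set.image_mono h1)).le h2

end sm

theorem Ff.of_gen (a : ι → K) (hgen : adjoin k (Set.range a) = ⊤) (htr : Algebra.trdeg k K = d) :
    Ff k K d := by
  exact ⟨hgen ▸ fg_adjoin_of_finite (Set.finite_range a), htr⟩

theorem Ff.not_alg (h : Ff k K d) {S : Set K} {n : ℕ} (hS : Sm S n) (hn : n < d) :
    ¬ Algebra.IsAlgebraic (adjoin k S) K := by
  intro halg
  obtain ⟨T, h1, h2⟩ := hS
  have h3 : Algebra.IsAlgebraic (adjoin k (T : Set K)) K :=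
    (Big.mono ⟨fg_adjoin_of_finite (T.finite_toSet.subset h1), halg⟩
      (adjoin.mono _ _ _ h1) (fg_adjoin_of_finite T.finite_toSet)).2
  rw [isAlgebraic_adjoin_iff_top] at h3
  have h4 := Algebra.IsAlgebraic.trdeg_le_cardinalMk k (T : Set K)
  rw [h.tr] at h4
  simp only [Finset.coe_sort_coe, Cardinal.mk_coe_finset, Nat.cast_le] at h4
  omega

theorem Ff.ix_ne_zero_iff (h : Ff k K d) (S : Set K) :
    ix k S ≠ 0 ↔ Algebra.IsAlgebraic (adjoin k S) K := by
  rw [ix, ← relfinrank_top_right]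
  exact ⟨fun h0 => ⟨fun x => isAlgebraic_of_relfinrank_ne_zero le_top h0 mem_top⟩,
    fun halg => relfinrank_ne_zero_of_fg le_top h.fg fun x _ => halg.isAlgebraic x⟩

theorem Ff.ix_zero (h : Ff k K d) {S : Set K} {n : ℕ} (hS : Sm S n) (hn : n < d) : ix k S = 0 := by
  by_contra h0
  exact h.not_alg hS hn ((h.ix_ne_zero_iff S).1 h0)

theorem Ff.indep_iff (h : Ff k K d) {σ : Type} [Fintype σ] (hσ : Fintype.card σ = d) (t : σ → K) :
    AlgebraicIndependent k t ↔ ix k (Set.range t) ≠ 0 := by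
  rw [h.ix_ne_zero_iff]
  constructor
  · intro ht
    exact (ht.isTranscendenceBasis_of_lift_trdeg_le_of_finite
      (by simp [h.tr, hσ])).isAlgebraic_field
  · intro ht
    rw [isAlgebraic_adjoin_iff_top] at ht
    exact (Algebra.IsAlgebraic.isTranscendenceBasis_of_lift_le_trdeg_of_finite k t
      (by simp [h.tr, hσ])).1

/-- A transcendence basis among the generators. -/
theorem Ff.exists_basis (h : Ff k K d) (a : ι → K) (hgen : adjoin k (Set.range a) = ⊤) :
    ∃ c : Fin d → ι, AlgebraicIndependent k (a ∘ c) := by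
  have halg : Algebra.IsAlgebraic (Algebra.adjoin k (Set.range a)) K := by
    rw [← isAlgebraic_adjoin_iff_top]
    exact ⟨fun x => isAlgebraic_algebraMap (⟨x, hgen ▸ mem_top⟩ : adjoin k (Set.range a))⟩
  obtain ⟨t, ht, hb⟩ := exists_isTranscendenceBasis_subset (R := k) (Set.range a)
  have hc := hb.cardinalMk_eq_trdeg
  rw [h.tr] at hc
  obtain ⟨e⟩ := Cardinal.mk_eq_nat_iff.1 hc
  choose c hc using fun x : t => ht x.2
  refine ⟨fun i => c (e.symm i), ?_⟩
  have := hb.1.comp e.symm e.symm.injective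
  convert this using 1
  funext i
  exact hc _

/-- The field is algebraic over its image. -/
theorem Ff.alg_map (h : Ff k K d) (a : ι → K) (hgen : adjoin k (Set.range a) = ⊤)
    (φ : K →ₐ[k] K) : Algebra.IsAlgebraic (adjoin k (Set.range fun l => φ (a l))) K := by
  have h0 : adjoin k (Set.range fun l => φ (a l)) = φ.fieldRange := by
    rw [AlgHom.fieldRange_eq_map, ← hgen, adjoin_map, ← Set.range_comp]
    rfl
  rw [h0]
  let e : K ≃ₐ[k] φ.fieldRange := AlgEquiv.ofInjectiveField φ
  have h1 : Algebra.trdeg k φ.fieldRange = d := by rw [← e.trdeg_eq, h.tr]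
  have h2 := trdeg_add_eq k φ.fieldRange (A := K)
  rw [h1, h.tr] at h2
  have h3 : Algebra.trdeg φ.fieldRange K = 0 := by
    refine (Cardinal.add_nat_inj d).1 ?_
    rw [add_comm, zero_add]
    exact h2
  exact trdeg_eq_zero_iff.1 h3

theorem PD.le {b : ι → K} {z : K} {D D' : ℕ} (h : PD k b z D) (hD : D ≤ D') : PD k b z D' := by
  obtain ⟨P, h1, h2, h3⟩ := h
  exact ⟨P, fun j l => (h1 j l).trans hD, h2, h3⟩

theorem PD.map {K' : Type u} [Field K'] [Algebra k K'] {b : ι → K} {z : K} {D : ℕ}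
    (h : PD k b z D) (ψ : K →ₐ[k] K') : PD k (fun l => ψ (b l)) (ψ z) D := by
  obtain ⟨P, h1, h2, h3⟩ := h
  have he : (aeval (fun l => ψ (b l)) : MvPolynomial ι k →ₐ[k] K').toRingHom =
      (ψ : K →+* K').comp (aeval b : MvPolynomial ι k →ₐ[k] K).toRingHom :=
    RingHom.ext fun q => (comp_aeval_apply _ _ _).symm
  refine ⟨P, h1, ?_, ?_⟩
  · rw [he, ← Polynomial.map_map]
    exact (Polynomial.map_ne_zero_iff (ψ : K →+* K').injective).2 h2
  · rw [he, ← Polynomial.map_map]
    have := Polynomial.eval₂_at_apply (p := P.map (aeval b : MvPolynomial ι k →ₐ[k] K).toRingHom)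
      (ψ : K →+* K') z
    rw [h3, map_zero] at this
    rw [Polynomial.eval_map]
    exact this

theorem PD.of_alg {b : ι → K} {z : K} (h : IsAlgebraic (adjoin k (Set.range b)) z) :
    ∃ D, PD k b z D := by
  obtain ⟨P, h1, h2⟩ := Ult_clear b z h
  refine ⟨P.support.sup fun j => (P.coeff j).totalDegree, P, fun j l => ?_, h1, ?_⟩
  · by_cases hj : j ∈ P.support
    · exact (degreeOf_le_totalDegree _ _).trans
        (Finset.le_sup (f := fun j => (P.coeff j).totalDegree) hj)
    · rw [Polynomial.notMem_support_iff.1 hj, degreeOf_zero]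
      exact Nat.zero_le _
  · rw [Polynomial.eval_map]
    exact h2

theorem PD.of_alg_all {τ : Type} [Fintype τ] {b : ι → K} {z : τ → K}
    (h : ∀ j, IsAlgebraic (adjoin k (Set.range b)) (z j)) : ∃ D, ∀ j, PD k b (z j) D := by
  choose D hD using fun j => PD.of_alg (h j)
  exact ⟨Finset.univ.sup D, fun j => (hD j).le (Finset.le_sup (Finset.mem_univ j))⟩

theorem ix_insert (S : Set K) (x : K) :
    ix k (insert x S) = Module.finrank (adjoin k S)⟮x⟯ K := by
  rw [ix, ← Set.union_singleton, ← adjoin_adjoin_left]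
  rfl

theorem Ff.exists_gen (h : Ff k K d) : ∃ (n : ℕ) (a : Fin n → K), adjoin k (Set.range a) = ⊤ := by
  obtain ⟨T, hT⟩ := h.fg
  refine ⟨T.card, fun i => T.equivFin.symm i, ?_⟩
  rw [← hT]
  congr 1
  ext x
  exact ⟨fun ⟨i, hi⟩ => hi ▸ (T.equivFin.symm i).2, fun hx => ⟨T.equivFin ⟨x, hx⟩, by simp⟩⟩

/-- One slot. -/
theorem Ff.slot (h : Ff k K d) {S : Set K} {n : ℕ} (hS : Sm S n) (hn : n < d) {b : ι → K} {z : K}
    {D : ℕ} (hP : PD k b z D) : ix k (insert z S) ≤ D * ∑ l, ix k (insert (b l) S) := by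
  obtain ⟨P, h1, h2, h3⟩ := hP
  obtain ⟨m, a, ha⟩ := h.exists_gen
  have hgen : adjoin (adjoin k S) (Set.range (Sum.elim b a)) = ⊤ := by
    rw [← restrictScalars_eq_top_iff (K := k), adjoin_adjoin_left, eq_top_iff, ← ha]
    refine adjoin.mono _ _ _ ?_
    rintro _ ⟨i, rfl⟩
    exact Or.inr ⟨Sum.inr i, rfl⟩
  have hle : Abox (adjoin k S) b (fun _ => D) ≤
      Abox (adjoin k S) (Sum.elim b a) (Sum.elim (fun _ => D) 0) := by
    refine Submodule.span_mono ?_
    rintro _ ⟨α, hα, rfl⟩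
    refine ⟨Sum.elim α 0, fun i => ?_, by simp [Fintype.prod_sum_type]⟩
    cases i with
    | inl l => exact hα l
    | inr i => exact le_rfl
  have := mono_core (Sum.elim b a) hgen (h.not_alg hS hn) (Sum.elim (fun _ => D) 0) _ h2 h3
    fun j => hle (by
      rw [Polynomial.coeff_map]
      exact aeval_mem_Abox b (h1 j))
  simp only [Fintype.sum_sum_type, Sum.elim_inl, Sum.elim_inr, Pi.zero_apply, zero_mul,
    Finset.sum_const_zero, add_zero] at this
  simp only [ix_insert, Finset.mul_sum]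
  exact this

/-- Several slots. -/
theorem Ff.slots (h : Ff k K d) {τ : Type} {b : ι → K} {y : τ → K} {D : ℕ}
    (hP : ∀ j, PD k b (y j) D) (M : ℕ) (J : Finset τ) {S : Set K} {n : ℕ} (hS : Sm S n)
    (hn : n + J.card ≤ d) (hM : ∀ C : Finset ι, C.card ≤ J.card → ix k (S ∪ b '' C) ≤ M) :
    ix k (S ∪ y '' J) ≤ (D * Fintype.card ι) ^ J.card * M := by
  classical
  induction J using Finset.induction_on generalizing S n with
  | empty => simpa using hM ∅ le_rfl
  | insert j J hj ih =>
    rw [Finset.card_insert_of_notMem hj] at hn hM ⊢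
    have h1 := h.slot (hS.union (Sm.image y J)) (by omega) (hP j)
    have h2 : ∀ l, ix k (insert (b l) (S ∪ y '' J)) ≤ (D * Fintype.card ι) ^ J.card * M := by
      intro l
      rw [← Set.insert_union]
      refine ih (hS.insert _) (by omega) fun C hC => ?_
      have := hM (insert l C) ((Finset.card_insert_le _ _).trans (by omega))
      rwa [Finset.coe_insert, Set.image_insert_eq, Set.union_insert, ← Set.insert_union] at this
    rw [Finset.coe_insert, Set.image_insert_eq, Set.union_insert]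
    refine h1.trans ?_
    have h3 := Finset.sum_le_card_nsmul Finset.univ _ _ fun l _ => h2 l
    rw [Finset.card_univ, smul_eq_mul] at h3
    calc D * _ ≤ D * (Fintype.card ι * ((D * Fintype.card ι) ^ J.card * M)) :=
          Nat.mul_le_mul_left _ h3
      _ = _ := by ring

theorem range_of_card {α : Type*} (C : Finset α) {j : ℕ} (h : C.card = j) :
    ∃ c : Fin j → α, Set.range c = C := by
  subst h
  refine ⟨fun i => C.equivFin.symm i, ?_⟩
  ext x
  exact ⟨fun ⟨i, hi⟩ => hi ▸ (C.equivFin.symm i).2, fun hx => ⟨C.equivFin ⟨x, hx⟩, by simp⟩⟩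

theorem term_le_md {j : ℕ} (b a : ι → K) (c : Fin j → ι) (c' : Fin (d - j) → ι) :
    ix k (Set.range (b ∘ c) ∪ Set.range (a ∘ c')) ≤ md k d j b a :=
  (Finset.single_le_sum (f := fun c' : Fin (d - j) → ι =>
    ix k (Set.range (b ∘ c) ∪ Set.range (a ∘ c'))) (fun _ _ => Nat.zero_le _)
    (Finset.mem_univ c')).trans
    (Finset.single_le_sum (f := fun c : Fin j → ι => ∑ c' : Fin (d - j) → ι,
      ix k (Set.range (b ∘ c) ∪ Set.range (a ∘ c'))) (fun _ _ => Nat.zero_le _)
      (Finset.mem_univ c))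

theorem md_le_of {j : ℕ} (hj : j ≤ d) (b a : ι → K) {M : ℕ}
    (h : ∀ (c : Fin j → ι) (c' : Fin (d - j) → ι),
      ix k (Set.range (b ∘ c) ∪ Set.range (a ∘ c')) ≤ M) :
    md k d j b a ≤ Fintype.card ι ^ d * M := by
  have h1 := Finset.sum_le_card_nsmul Finset.univ _ _ fun (c : Fin j → ι) _ =>
    Finset.sum_le_card_nsmul Finset.univ _ _ fun (c' : Fin (d - j) → ι) _ => h c c'
  refine h1.trans (le_of_eq ?_)
  simp only [Finset.card_univ, Fintype.card_pi, Finset.prod_const, Fintype.card_fin, smul_eq_mul]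
  rw [← mul_assoc, ← pow_add, Nat.add_sub_cancel' hj]

theorem Ff.ix_le_md (h : Ff k K d) {j : ℕ} (hj : j ≤ d) (b a : ι → K) (C₁ C₂ : Finset ι)
    (h₁ : C₁.card ≤ j) (h₂ : C₂.card ≤ d - j) : ix k (b '' C₁ ∪ a '' C₂) ≤ md k d j b a := by
  by_cases hc : C₁.card + C₂.card < d
  · rw [h.ix_zero ((Sm.image b C₁).union (Sm.image a C₂)) hc]
    exact Nat.zero_le _
  obtain ⟨c, hc₁⟩ := range_of_card C₁ (j := j) (by omega)
  obtain ⟨c', hc₂⟩ := range_of_card C₂ (j := d - j) (by omega)
  have := term_le_md (k := k) b a c c'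
  rwa [Set.range_comp, Set.range_comp, hc₁, hc₂] at this

theorem Ff.md_le (h : Ff k K d) {j : ℕ} (hj : j ≤ d) {ι' : Type} [Fintype ι'] {b a : ι → K}
    {b' a' : ι' → K} {D : ℕ} (hb : ∀ l, PD k b' (b l) D) (ha : ∀ l, PD k a' (a l) D) :
    md k d j b a ≤ Fintype.card ι ^ d * (D * Fintype.card ι') ^ d * md k d j b' a' := by
  rw [mul_assoc]
  refine md_le_of hj b a fun c c' => ?_
  have h1 := h.slots (y := b ∘ c) (fun i => hb (c i))
    ((D * Fintype.card ι') ^ (d - j) * md k d j b' a') Finset.univ (Sm.range (a ∘ c'))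
    (by simp; omega) fun C hC => by
      have h2 := h.slots (y := a ∘ c') (fun i => ha (c' i)) (md k d j b' a') Finset.univ
        (Sm.image b' C) (by simp at hC ⊢; omega) fun C' hC' =>
          h.ix_le_md hj b' a' C C' (by simpa using hC) (by simpa using hC')
      rw [Set.union_comm]
      simpa only [Finset.coe_univ, Set.image_univ, Finset.card_univ, Fintype.card_fin] using h2
  rw [Set.union_comm]
  simp only [Finset.coe_univ, Set.image_univ, Finset.card_univ, Fintype.card_fin] at h1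
  rwa [← mul_assoc, ← pow_add, Nat.add_sub_cancel' hj] at h1

theorem Ff.md_ne_zero (h : Ff k K d) {j : ℕ} (hj : j ≤ d) {b a : ι → K}
    (hb : Algebra.IsAlgebraic (adjoin k (Set.range b)) K) (hgen : adjoin k (Set.range a) = ⊤) :
    md k d j b a ≠ 0 := by
  classical
  obtain ⟨c, hc⟩ := h.exists_basis a hgen
  obtain ⟨D, hD⟩ := PD.of_alg_all (b := b) (z := a ∘ c) fun i => hb.isAlgebraic _
  have h0 := (h.indep_iff (by simp) _).1 hc
  obtain ⟨J, -, hJ⟩ := Finset.exists_subset_card_eq (s := (Finset.univ : Finset (Fin d))) (n := j)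
    (by simpa using hj)
  have hJ' : Jᶜ.card = d - j := by rw [Finset.card_compl, hJ, Fintype.card_fin]
  have h1 := h.slots hD (md k d j b a) J (Sm.image (a ∘ c) Jᶜ) (by omega) fun C hC => by
    have := h.ix_le_md hj b a C (Jᶜ.image c) (by omega) (Finset.card_image_le.trans hJ'.le)
    rwa [Finset.coe_image, ← Set.image_comp, Set.union_comm] at this
  rw [← Set.image_union, Finset.coe_compl, Set.compl_union_self, Set.image_univ] at h1
  intro h2
  rw [h2, mul_zero] at h1
  omega

theorem md_le_max {j : ℕ} (hj : j ≤ d) (b a : ι → K) (h : md k d j b a ≠ 0) :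
    ∃ (c : Fin j → ι) (c' : Fin (d - j) → ι), md k d j b a ≤
      Fintype.card ι ^ d * ix k (Set.range (b ∘ c) ∪ Set.range (a ∘ c')) := by
  have hne : Nonempty ((Fin j → ι) × (Fin (d - j) → ι)) := by
    by_contra hc
    rw [not_nonempty_iff] at hc
    apply h
    rw [md, ← Fintype.sum_prod_type']
    exact Finset.sum_of_isEmpty _
  obtain ⟨⟨c, c'⟩, -, hc⟩ := Finset.exists_max_image Finset.univ
    (fun p : (Fin j → ι) × (Fin (d - j) → ι) => ix k (Set.range (b ∘ p.1) ∪ Set.range (a ∘ p.2)))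
    Finset.univ_nonempty
  exact ⟨c, c', md_le_of hj b a fun e e' => hc (e, e') (Finset.mem_univ _)⟩

theorem Ff.rel_fin (h : Ff k K d) (t : Fin (d + 1) → K) (h0 : ix k (t '' {0}ᶜ) ≠ 0) :
    ∃ (P : MvPolynomial (Fin (d + 1)) k) (χ : ℕ), P ≠ 0 ∧ (∀ T, aeval t T = 0 ↔ P ∣ T) ∧ 1 ≤ χ ∧
      ∀ i, degreeOf i P * χ = ix k (t '' {i}ᶜ) := by
  have hr : ∀ i : Fin (d + 1), t '' {i}ᶜ = Set.range fun j => t (i.succAbove j) := fun i => by
    rw [← Fin.range_succAbove, ← Set.range_comp]
    rfl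
  have ht : (Fin.cons (t 0) fun j => t (Fin.succAbove 0 j) : Fin (d + 1) → K) = t := by
    funext i
    refine Fin.cases rfl (fun j => ?_) i
    simp
  rw [hr] at h0
  have halg := (h.ix_ne_zero_iff _).1 h0
  obtain ⟨P, hP0, hP⟩ := exists_rel _ ((h.indep_iff (by simp) _).2 h0) (t 0) (halg.isAlgebraic _)
  rw [ht] at hP
  have hle : ∀ i : Fin (d + 1), adjoin k (Set.range fun j => t (i.succAbove j)) ≤
      adjoin k (Set.range t) := fun i =>
    adjoin.mono _ _ _ (by rintro _ ⟨j, rfl⟩; exact ⟨_, rfl⟩)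
  have hχ : ix k (Set.range t) ≠ 0 := (h.ix_ne_zero_iff _).2
    (Big.mono ⟨fg_adjoin_of_finite (Set.finite_range _), halg⟩ (hle 0)
      (fg_adjoin_of_finite (Set.finite_range _))).2
  refine ⟨P, ix k (Set.range t), hP0, hP, Nat.one_le_iff_ne_zero.2 hχ, fun i => ?_⟩
  rw [hr]
  by_cases hi : AlgebraicIndependent k fun j => t (i.succAbove j)
  · rw [(rel_degree t P hP0 hP i hi).1, ix, ix, relfinrank_mul_finrank_top (hle i)]
  · rw [rel_degree_zero t P hP i hi, zero_mul]
    by_contra h1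
    exact hi ((h.indep_iff (by simp) _).2 (Ne.symm h1))

/-- The relation between `d + 1` functions. -/
theorem Ff.rel (h : Ff k K d) {σ : Type} [Fintype σ] [DecidableEq σ] (hσ : Fintype.card σ = d + 1)
    (t : σ → K) (i₀ : σ) (h0 : ix k (t '' {i₀}ᶜ) ≠ 0) :
    ∃ (P : MvPolynomial σ k) (χ : ℕ), P ≠ 0 ∧ (∀ T, aeval t T = 0 ↔ P ∣ T) ∧ 1 ≤ χ ∧
      ∀ i, degreeOf i P * χ = ix k (t '' {i}ᶜ) := by
  let e₀ : σ ≃ Fin (d + 1) := Fintype.equivFinOfCardEq hσ
  let e : Fin (d + 1) ≃ σ := (Equiv.swap 0 (e₀ i₀)).trans e₀.symm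
  have he : e 0 = i₀ := by simp [e]
  have hr : ∀ i, (t ∘ e) '' {i}ᶜ = t '' {e i}ᶜ := fun i => by
    rw [Set.image_comp, Set.image_compl_eq e.bijective, Set.image_singleton]
  obtain ⟨P, χ, h1, h2, h3, h4⟩ := h.rel_fin (t ∘ e) (by rwa [hr, he])
  refine ⟨rename e P, χ, (map_ne_zero_iff _ (rename_injective e e.injective)).2 h1, fun T => ?_,
    h3, fun i => ?_⟩
  · obtain ⟨T, rfl⟩ := (renameEquiv k e).surjective T
    rw [renameEquiv_apply, aeval_rename, h2]
    exact (map_dvd_iff (renameEquiv k e)).symm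
  · obtain ⟨i, rfl⟩ := e.surjective i
    rw [degreeOf_rename_of_injective e.injective, h4, hr]

/-- Every function is dominated by the generators, with degree given by intersection numbers. -/
theorem Ff.dom (h : Ff k K d) (a : ι → K) (hgen : adjoin k (Set.range a) = ⊤) (x : K) (M : ℕ)
    (hM : ∀ C : Finset ι, C.card ≤ d - 1 → ix k (insert x (a '' C)) ≤ M) : PD k a x M := by
  classical
  obtain ⟨c, hc⟩ := h.exists_basis a hgen
  have hcinj : Function.Injective c := Function.Injective.of_comp hc.injective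
  have h0 : (Fin.cons x (a ∘ c) : Fin (d + 1) → K) '' {0}ᶜ = Set.range (a ∘ c) := by
    rw [← Fin.range_succ, ← Set.range_comp]
    rfl
  obtain ⟨P, χ, h1, h2, h3, h4⟩ := h.rel_fin (Fin.cons x (a ∘ c))
    (by rw [h0]; exact (h.indep_iff (by simp) _).1 hc)
  have hdeg : ∀ i : Fin d, degreeOf i.succ P ≤ M := fun i => by
    have h5 : (Fin.cons x (a ∘ c) : Fin (d + 1) → K) '' {i.succ}ᶜ =
        insert x (a '' ((Finset.univ.erase i).image c : Finset ι)) := by
      ext y
      constructor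
      · rintro ⟨j, hj, rfl⟩
        revert hj
        refine Fin.cases (fun _ => Or.inl rfl) (fun j hj => Or.inr ⟨c j, ?_, rfl⟩) j
        simp only [Finset.coe_image, Finset.coe_erase, Finset.coe_univ]
        exact ⟨j, ⟨trivial, fun e => hj (congrArg Fin.succ e)⟩, rfl⟩
      · rintro (rfl | ⟨l, hl, rfl⟩)
        · exact ⟨0, (Fin.succ_ne_zero i).symm, rfl⟩
        · simp only [Finset.coe_image, Finset.coe_erase, Finset.coe_univ] at hl
          obtain ⟨j, ⟨-, hj⟩, rfl⟩ := hl
          exact ⟨j.succ, fun e => hj (Fin.succ_injective _ e), rfl⟩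
    have h6 := hM ((Finset.univ.erase i).image c) (Finset.card_image_le.trans (by simp))
    rw [← h5, ← h4] at h6
    exact (Nat.le_mul_of_pos_right _ h3).trans h6
  have he : (aeval a : MvPolynomial ι k →ₐ[k] K).toRingHom.comp
      (rename c : MvPolynomial (Fin d) k →ₐ[k] MvPolynomial ι k).toRingHom =
      (aeval (a ∘ c) : MvPolynomial (Fin d) k →ₐ[k] K).toRingHom :=
    RingHom.ext fun q => aeval_rename _ _ _
  refine ⟨(finSuccEquiv k d P).map
    (rename c : MvPolynomial (Fin d) k →ₐ[k] MvPolynomial ι k).toRingHom, fun j l => ?_, ?_, ?_⟩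
  · rw [Polynomial.coeff_map]
    show degreeOf l (rename c _) ≤ M
    by_cases hl : l ∈ Set.range c
    · obtain ⟨i, rfl⟩ := hl
      rw [degreeOf_rename_of_injective hcinj]
      exact (degreeOf_coeff_finSuccEquiv P i j).trans (hdeg i)
    · rw [degreeOf_le_iff]
      intro m hm
      rw [support_rename_of_injective hcinj, Finset.mem_image] at hm
      obtain ⟨m', -, rfl⟩ := hm
      rw [Finsupp.mapDomain_of_notMem_range _ _ hl]
      exact Nat.zero_le _
  · rw [Polynomial.map_map, he]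
    exact (Polynomial.map_ne_zero_iff hc).2 ((map_ne_zero_iff _ (finSuccEquiv k d).injective).2 h1)
  · rw [Polynomial.map_map, he, Bez0_eval]
    exact (h2 P).2 dvd_rfl

end Pool.Agent.H69K

/-!
Height inequalities coming from polynomial relations.
-/

namespace Pool.Agent.H69K

open IntermediateField MvPolynomial Height Pool.Agent.H35S

universe u

variable {k K : Type u} [Field k] [NumberField k] [Field K] [Algebra k K] {ι : Type} [Fintype ι]
  {d : ℕ}

/-- Height of a root (`isAHt_abs k (AlgebraicClosure k)`, field `gel`, `absLogHeight₁_map`;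
reindex `ι ≃ Fin r`). -/
theorem ht_root (P : Polynomial (MvPolynomial ι k)) (p : ι → ℕ)
    (hp : ∀ j l, degreeOf l (P.coeff j) ≤ p l) :
    ∃ C : ℝ, ∀ (x : ι → k) (z : k), P.map (eval x) ≠ 0 → (P.map (eval x)).eval z = 0 →
      logHeight₁ z ≤ ∑ l, (p l : ℝ) * logHeight₁ (x l) + C := by
  let e := Fintype.equivFin ι
  let Q := AlgebraicClosure k
  have hh := isAHt_abs k Q
  obtain ⟨C, hC⟩ := hh.gel _ (P.map (rename e).toRingHom) (fun i => p (e.symm i)) fun j i => by
    obtain ⟨l, rfl⟩ := e.surjective i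
    rw [Polynomial.coeff_map, e.symm_apply_apply]
    exact (degreeOf_rename_of_injective e.injective l).trans_le (hp j l)
  have hd : (0 : ℝ) < Module.finrank ℚ k := by exact_mod_cast Module.finrank_pos
  refine ⟨C * Module.finrank ℚ k, fun x z hne hz => ?_⟩
  have e1 : (P.map (rename e).toRingHom).map (aeval fun i => algebraMap k Q (x (e.symm i)) :
      MvPolynomial _ k →ₐ[k] Q).toRingHom = (P.map (eval x)).map (algebraMap k Q) := by
    rw [Polynomial.map_map, Polynomial.map_map]
    congr 1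
    ext <;> simp
  have hne' : (P.map (eval x)).map (algebraMap k Q) ≠ 0 :=
    (Polynomial.map_ne_zero_iff (algebraMap k Q).injective).2 hne
  have h1 := hC _ _ _ (Polynomial.leadingCoeff_ne_zero.2 hne')
    (e1.trans (IsAlgClosed.splits _).eq_prod_roots)
  have h2 := Multiset.single_le_sum (fun y hy => by
    obtain ⟨w, -, rfl⟩ := Multiset.mem_map.1 hy
    exact hh.nonneg w) _ (Multiset.mem_map_of_mem NumberField.absLogHeight₁
      ((Polynomial.mem_roots hne').2 (Polynomial.IsRoot.map (f := algebraMap k Q) hz)))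
  have h3 := h2.trans h1
  simp only [absLogHeight₁_map, ← mul_div_assoc, ← Finset.sum_div] at h3
  rw [div_add' _ _ _ hd.ne', div_le_div_iff_of_pos_right hd] at h3
  rwa [← e.symm.sum_comp]

theorem ht_opt (P : MvPolynomial (Option ι) k) :
    ∃ C : ℝ, ∀ (x : ι → k) (z ζ : k), eval (fun o => Option.elim o z x) P = 0 →
      eval (fun o => Option.elim o ζ x) P ≠ 0 →
      logHeight₁ z ≤ ∑ l, (degreeOf (some l) P : ℝ) * logHeight₁ (x l) + C := by
  obtain ⟨C, hC⟩ := ht_root (optionEquivLeft k ι P) (fun l => degreeOf (some l) P) fun j l =>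
    degreeOf_le_iff.2 fun m hm => by
      simpa using degreeOf_le_iff.1 (le_refl (degreeOf (some l) P)) _
        ((mem_support_coeff_optionEquivLeft k).1 hm)
  refine ⟨C, fun x z ζ h1 h2 => hC x z (fun h0 => h2 ?_) ?_⟩
  · rw [optionEquivLeft_elim_eval, h0, Polynomial.eval_zero]
  · rw [← optionEquivLeft_elim_eval, h1]

theorem ht_quot (T₀ T₁ : MvPolynomial ι k) (p : ι → ℕ) (h₀ : ∀ l, degreeOf l T₀ ≤ p l)
    (h₁ : ∀ l, degreeOf l T₁ ≤ p l) :
    ∃ C : ℝ, ∀ (x : ι → k) (z : k), eval x T₀ ≠ 0 → eval x T₀ * z = eval x T₁ →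
      logHeight₁ z ≤ ∑ l, (p l : ℝ) * logHeight₁ (x l) + C := by
  obtain ⟨C, hC⟩ := ht_root (Polynomial.C T₀ * Polynomial.X + Polynomial.C (-T₁)) p fun j l => by
    rcases j with _ | _ | j <;> simp [Polynomial.coeff_X, Polynomial.coeff_C, h₀, h₁]
  refine ⟨C, fun x z h1 h2 => hC x z (fun h0 => h1 ?_) (by simp [h2])⟩
  simpa using congrArg (Polynomial.coeff · 1) h0

/-- The box count with `p i + 1 = max 1 (2 d α i)`, `B = 2 γ - 1`. -/
theorem box_gen {F : Type u} [Field F] (P : MvPolynomial (Fin (d + 1)) F)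
    (hγ : degreeOf 0 P ≠ 0) :
    ∃ T₀ T₁ : MvPolynomial (Fin (d + 1)) F, T₀ ≠ 0 ∧ degreeOf 0 T₀ < degreeOf 0 P ∧
      degreeOf 0 T₁ < degreeOf 0 P ∧
      (∀ i : Fin d, degreeOf i.succ T₀ ≤ 2 * d * degreeOf i.succ P ∧
        degreeOf i.succ T₁ ≤ 2 * d * degreeOf i.succ P) ∧
      P ∣ T₀ * X 0 ^ (2 * degreeOf 0 P - 1) - T₁ := by
  have hP : P ≠ 0 := by rintro rfl; simp at hγ
  obtain ⟨T₀, T₁, h0, h1, h2, h3, h4⟩ := box P hP (fun i => degreeOf i.succ P)
    (fun i => max 1 (2 * d * degreeOf i.succ P) - 1) (fun _ => le_rfl) (2 * degreeOf 0 P - 1) (by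
      obtain ⟨g, hg⟩ := Nat.exists_eq_add_one_of_ne_zero hγ
      have e : ∀ a : ℕ, max 1 a - 1 + 1 = max 1 a := fun a => by omega
      simp only [e, hg, show 2 * (g + 1) - 1 = 2 * g + 1 by omega]
      have a0 : 0 < ∏ i : Fin d, max 1 (2 * d * degreeOf i.succ P) :=
        Finset.prod_pos fun i _ => by omega
      have a1 : (1 + -(1 / (2 * d) : ℝ)) ^ d * (∏ i : Fin d, max 1 (2 * d * degreeOf i.succ P) : ℕ) ≤
          (∏ i : Fin d, (max 1 (2 * d * degreeOf i.succ P) - degreeOf i.succ P) : ℕ) := by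
        rw [Nat.cast_prod, Nat.cast_prod, ← Fin.prod_const, ← Finset.prod_mul_distrib]
        have a2 : ∀ i : Fin d, (1 : ℝ) ≤ d := fun i => by exact_mod_cast i.pos
        refine Finset.prod_le_prod (fun i _ => mul_nonneg ?_ (by positivity)) fun i _ => ?_
        · rw [← sub_eq_add_neg, sub_nonneg, div_le_one (by linarith [a2 i])]
          linarith [a2 i]
        · have := i.pos
          have := a2 i
          generalize degreeOf i.succ P = a
          rcases a with _ | a
          · simp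
          · rw [max_eq_right (by nlinarith), Nat.cast_sub (by nlinarith)]
            push_cast
            field_simp
            exact le_of_eq (by ring)
      have a3 : (1 / 2 : ℝ) ≤ (1 + -(1 / (2 * d) : ℝ)) ^ d := by
        rcases Nat.eq_zero_or_pos d with rfl | hd
        · norm_num
        have a4 : (1 : ℝ) ≤ d := by exact_mod_cast hd
        refine le_trans (le_of_eq ?_) (one_add_mul_le_pow ?_ d)
        · field_simp; norm_num
        · rw [neg_le_neg_iff, div_le_iff₀ (by linarith)]; linarith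
      generalize ∏ i : Fin d, max 1 (2 * d * degreeOf i.succ P) = A at *
      generalize ∏ i : Fin d, (max 1 (2 * d * degreeOf i.succ P) - degreeOf i.succ P) = B at *
      have a5 : A ≤ 2 * B := by
        have : (A : ℝ) ≤ 2 * B := by nlinarith [Nat.cast_nonneg (α := ℝ) A]
        exact_mod_cast this
      nlinarith)
  exact ⟨T₀, T₁, h0, h1, h2, fun i => (h3 i).imp (fun h => by omega) fun h => by omega, h4⟩

/-- The three-term inequality for functions. -/
theorem Ff.three (h : Ff k K d) (t : Fin (d + 1) → K) (h0 : ix k (t '' {0}ᶜ) ≠ 0) :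
    ∃ (T : MvPolynomial (Fin (d + 1)) k) (C : ℝ), aeval t T ≠ 0 ∧ ∀ s : Fin (d + 1) → k,
      (∀ f, aeval t f = 0 → eval s f = 0) → eval s T ≠ 0 →
      (ix k (t '' {0}ᶜ) : ℝ) * logHeight₁ (s 0) ≤
        2 * d * ∑ i : Fin d, (ix k (t '' {i.succ}ᶜ) : ℝ) * logHeight₁ (s i.succ) + C := by
  obtain ⟨P, χ, P0, hP, χ1, hχ⟩ := h.rel (Fintype.card_fin _) t 0 h0
  have hγ : degreeOf 0 P ≠ 0 := fun e => h0 (by rw [← hχ, e, zero_mul])
  obtain ⟨T₀, T₁, a0, a1, a2, a3, a4⟩ := box_gen P hγ
  obtain ⟨C, hC⟩ := ht_quot T₀ T₁ (Fin.cons (degreeOf 0 P - 1) fun i => 2 * d * degreeOf i.succ P)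
    (fun l => Fin.cases (by simp only [Fin.cons_zero]; omega) (fun i => (a3 i).1) l)
    (fun l => Fin.cases (by simp only [Fin.cons_zero]; omega) (fun i => (a3 i).2) l)
  refine ⟨T₀, C * χ, fun e => ?_, fun s hs hT => ?_⟩
  · obtain ⟨U, rfl⟩ := (hP _).1 e
    rw [degreeOf_mul_eq P0 (right_ne_zero_of_mul a0)] at a1
    omega
  have b1 := hC s (s 0 ^ (2 * degreeOf 0 P - 1)) hT (by
    simpa [sub_eq_zero] using hs _ ((hP _).2 a4))
  obtain ⟨g, hg⟩ := Nat.exists_eq_add_one_of_ne_zero hγ
  simp only [logHeight₁_pow, Fin.sum_univ_succ, Fin.cons_zero, Fin.cons_succ, hg,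
    show 2 * (g + 1) - 1 = 2 * g + 1 by omega, Nat.add_sub_cancel] at b1
  simp only [← hχ, hg]
  push_cast at b1 ⊢
  have b2 : ∑ i : Fin d, (degreeOf i.succ P : ℝ) * χ * logHeight₁ (s i.succ) =
      χ * ∑ i : Fin d, (degreeOf i.succ P : ℝ) * logHeight₁ (s i.succ) := by
    rw [Finset.mul_sum]
    exact Finset.sum_congr rfl fun i _ => by ring
  simp only [mul_assoc, ← Finset.mul_sum] at b1
  rw [b2]
  nlinarith [Nat.cast_nonneg (α := ℝ) χ]

/-- The generic bound. -/
theorem PD.ht {a : ι → K} {z : K} {D : ℕ} (h : PD k a z D) :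
    ∃ (g : MvPolynomial ι k) (C : ℝ), aeval a g ≠ 0 ∧ ∀ (p : ι → k) (ζ : k),
      (∀ f, aeval a f = 0 → eval p f = 0) → Loc_R a p z ζ → eval p g ≠ 0 →
      logHeight₁ ζ ≤ D * ∑ l, logHeight₁ (p l) + C := by
  obtain ⟨P, h1, h2, h3⟩ := h
  obtain ⟨j, hj⟩ : ∃ j, aeval a (P.coeff j) ≠ 0 := by
    by_contra! h4
    exact h2 (Polynomial.ext fun j => by simpa using h4 j)
  obtain ⟨C, hC⟩ := ht_root P (fun _ => D) h1
  refine ⟨P.coeff j, C, hj, fun p ζ hp hz hg => ?_⟩
  have key : ∀ Q : Polynomial (MvPolynomial ι k),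
      Loc_R a p ((Q.map (aeval a : MvPolynomial ι k →ₐ[k] K).toRingHom).eval z)
        ((Q.map (eval p)).eval ζ) := fun Q => by
    induction Q using Polynomial.induction_on with
    | C c => exact ⟨c, 1, by simp, by rw [Polynomial.map_C, Polynomial.eval_C]; simp, by simp⟩
    | add f g hf hg => simpa using Loc_add hf hg
    | monomial n c hc => simpa [pow_succ, mul_assoc] using Loc_mul hc hz
  have b := hC p ζ (fun h0 => hg (by simpa using congrArg (Polynomial.coeff · j) h0))
    (Loc_uniq hp (h3 ▸ key P) (by simpa using Loc_alg (a := a) (p := p) 0))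
  rwa [← Finset.mul_sum] at b

omit [NumberField k] [Fintype ι] in
theorem Loc_aeval {σ : Type*} {a : ι → K} {p : ι → k} {b : σ → K} {q : σ → k}
    (h : ∀ l, Loc_R a p (b l) (q l)) (f : MvPolynomial σ k) :
    Loc_R a p (aeval b f) (eval q f) := by
  induction f using MvPolynomial.induction_on with
  | C c => simpa using Loc_alg c
  | add f g hf hg => simpa using Loc_add hf hg
  | mul_X f l hf => simpa using Loc_mul hf (h l)

omit [NumberField k] [Fintype ι] in
theorem Loc_self (a : ι → K) (p : ι → k) (l : ι) : Loc_R a p (a l) (p l) :=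
  ⟨X l, 1, by simp, by simp, by simp⟩

end Pool.Agent.H69K

/-!
The height of a function at the points of a hypersurface, without exceptional set.
-/

namespace Pool.Agent.H69K

open IntermediateField MvPolynomial Height Pool.Agent.H35S

universe u

variable {k K Ω κ : Type u} [Field k] [Field K] [Algebra k K] [Field Ω] [Algebra k Ω] [Algebra K Ω]
  [IsScalarTower k K Ω] [Field κ] [Algebra k κ] {ι : Type} [Fintype ι] {τ : Type} [Fintype τ]
  {d : ℕ}

omit [Algebra k K] [IsScalarTower k K Ω] in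
theorem Ret0_mem (A : IntermediateField k Ω) (h : ∀ x, algebraMap K Ω x ∈ A) {T : Set Ω}
    (hT : T ⊆ A) {y : Ω} (hy : y ∈ adjoin K T) : y ∈ A :=
  (adjoin_le_iff (T := A.toSubfield.toIntermediateField h)).2 hT hy

theorem Ret0_map {S : Set K} {x : K} (hx : x ∈ adjoin k S) (T : Set Ω) :
    algebraMap K Ω x ∈ adjoin k (T ∪ algebraMap K Ω '' S) := by
  have : IsScalarTower.toAlgHom k K Ω x ∈ (adjoin k S).map (IsScalarTower.toAlgHom k K Ω) :=
    ⟨x, hx, rfl⟩
  rw [adjoin_map] at this
  exact adjoin.mono _ _ _ Set.subset_union_right this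

theorem Ret0_tr (t : τ → Ω) (ht : AlgebraicIndependent K t)
    (h : Algebra.IsAlgebraic (adjoin K (Set.range t)) Ω) :
    Algebra.trdeg K Ω = Fintype.card τ := by
  rw [isAlgebraic_adjoin_iff_top] at h
  have := (ht.isTranscendenceBasis_iff_isAlgebraic.2 h).lift_cardinalMk_eq_trdeg
  simpa using this.symm

theorem Ret0_alg {T : Set Ω} (h : adjoin K T = ⊤) : Algebra.IsAlgebraic (adjoin K T) Ω :=
  ⟨fun x => isAlgebraic_algebraMap (⟨x, h ▸ mem_top⟩ : adjoin K T)⟩

theorem Ff.ext (h : Ff k K d) (t : τ → Ω) (ht : AlgebraicIndependent K t)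
    (hΩ : adjoin K (Set.range t) = ⊤) : Ff k Ω (d + Fintype.card τ) := by
  constructor
  · obtain ⟨S, hS, e⟩ := fg_def.1 h.fg
    refine fg_def.2 ⟨Set.range t ∪ algebraMap K Ω '' S, (Set.finite_range t).union (hS.image _),
      top_le_iff.1 fun y _ => ?_⟩
    exact Ret0_mem _ (fun x => Ret0_map (e ▸ mem_top) _)
      (Set.subset_union_left.trans (subset_adjoin _ _)) (hΩ ▸ mem_top)
  · rw [← trdeg_add_eq k K (A := Ω), h.tr, Ret0_tr t ht (Ret0_alg hΩ), Nat.cast_add]

/-- Base change (`adjoin_rank_le_of_isAlgebraic`; if `ix k S = 0` use `indep_iff`/`ix_zero`). -/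
theorem Ff.base (h : Ff k K d) (t : τ → Ω) (ht : AlgebraicIndependent K t)
    (hΩ : adjoin K (Set.range t) = ⊤) {S : Set K} (hS : Sm S d) :
    ix k (Set.range t ∪ algebraMap K Ω '' S) ≤ ix k S := by
  have e : adjoin k (Set.range t ∪ algebraMap K Ω '' S) =
      (adjoin (adjoin k S) (Set.range t)).restrictScalars k := by
    refine le_antisymm (adjoin_le_iff.2 (Set.union_subset (subset_adjoin _ _) ?_)) fun y hy => ?_
    · rintro _ ⟨x, hx, rfl⟩
      exact (adjoin (adjoin k S) (Set.range t)).algebraMap_mem ⟨x, subset_adjoin _ _ hx⟩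
    · exact Ret0_mem (K := adjoin k S) _ (fun x => Ret0_map x.2 _)
        (Set.subset_union_left.trans (subset_adjoin _ _)) hy
  have e2 : ix k (Set.range t ∪ algebraMap K Ω '' S) =
      Module.finrank (adjoin (adjoin k S) (Set.range t)) Ω := by
    unfold ix
    rw [e]
    rfl
  rw [e2]
  rcases Nat.eq_zero_or_pos (Module.finrank (adjoin (adjoin k S) (Set.range t)) Ω) with c | c
  · rw [c]
    exact Nat.zero_le _
  have f1 := Module.finite_of_finrank_pos c
  have t1 := Ret0_tr t (ht.restrictScalars (R := adjoin k S) (RingHom.injective _))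
    (Algebra.IsAlgebraic.of_finite _ _)
  rw [← trdeg_add_eq (adjoin k S) K (A := Ω), Ret0_tr t ht (Ret0_alg hΩ)] at t1
  have t2 : Algebra.trdeg (adjoin k S) K = 0 :=
    (Cardinal.add_nat_inj _).1 (t1.trans (zero_add _).symm)
  have al := trdeg_eq_zero_iff.1 t2
  have f2 : Module.Finite (adjoin k S) K :=
    Module.finite_of_finrank_pos (Nat.pos_of_ne_zero ((h.ix_ne_zero_iff S).2 al))
  let ψ := AlgEquiv.ofInjectiveField (IsScalarTower.toAlgHom (adjoin k S) K Ω)
  have r := adjoin_rank_le_of_isAlgebraic (adjoin (adjoin k S) (Set.range t))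
    (IsScalarTower.toAlgHom (adjoin k S) K Ω).fieldRange (Or.inr ψ.isAlgebraic)
  have tp : adjoin (adjoin (adjoin k S) (Set.range t))
      ((IsScalarTower.toAlgHom (adjoin k S) K Ω).fieldRange : Set Ω) = ⊤ :=
    top_le_iff.1 fun y _ => Ret0_mem (K := K) _ (fun x => subset_adjoin _ _ (AlgHom.mem_fieldRange.2 ⟨x, rfl⟩))
      (by
        rintro _ ⟨j, rfl⟩
        exact IntermediateField.algebraMap_mem _
          (⟨t j, subset_adjoin _ _ ⟨j, rfl⟩⟩ : adjoin (adjoin k S) (Set.range t)))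
      (hΩ ▸ mem_top)
  rw [tp, topEquiv.toLinearEquiv.rank_eq] at r
  exact Cardinal.toNat_le_toNat (r.trans_eq ψ.toLinearEquiv.rank_eq.symm)
    (Module.rank_lt_aleph0 _ _)

/-- The tuple `(z, t, y, w)`. -/
def tup {R : Type*} [CommRing R] (n : ι → ℕ) (z : R) (t : τ → R) (a : ι → R) (w : R) :
    Option (τ ⊕ τ ⊕ Unit) → R := fun o =>
  Option.elim o z (Sum.elim t (Sum.elim (fun j => ∑ l, t j ^ n l * a l) fun _ => w))

theorem Ret0_tup {R R' : Type*} [CommRing R] [CommRing R'] [Algebra k R] [Algebra k R']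
    (f : R →ₐ[k] R') (n : ι → ℕ) (z : R) (t : τ → R) (a : ι → R) (w : R)
    (P : MvPolynomial (Option (τ ⊕ τ ⊕ Unit)) k) :
    f (aeval (tup n z t a w) P) =
      aeval (tup n (f z) (fun j => f (t j)) (fun l => f (a l)) (f w)) P := by
  rw [comp_aeval_apply]
  refine congrArg (fun g => aeval g P) (funext fun o => ?_)
  rcases o with _ | j | j | j <;> simp [tup]

/-- The relation vanishes at the specialised points. Plan: `aeval (tup ..) P` is `aeval t Q` for
`Q = aeval (tup n (C z) X (C ∘ a) (C w)) P ∈ MvPolynomial τ K`, so `Q = 0`; evaluate `Q` at `c` to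
get `aeval (tup n z c a w) P = 0` in `K`; `Loc_aeval`, `Loc_uniq`. -/
theorem rel_van (a : ι → K) (t : τ → Ω) (ht : AlgebraicIndependent K t) (n : ι → ℕ) {w z : K}
    (P : MvPolynomial (Option (τ ⊕ τ ⊕ Unit)) k)
    (hP : aeval (tup n (algebraMap K Ω z) t (fun l => algebraMap K Ω (a l))
      (algebraMap K Ω w)) P = 0)
    (p : ι → k) (hp : ∀ f, aeval a f = 0 → eval p f = 0) {ζ : k} (hz : Loc_R a p z ζ)
    (hw : Loc_R a p w 0) (c : τ → k) : eval (tup n ζ c p 0) P = 0 := by
  have e1 := Ret0_tup ((aeval t : MvPolynomial τ K →ₐ[K] Ω).restrictScalars k) n (C z) X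
    (fun l => C (a l)) (C w) P
  have e2 := Ret0_tup ((aeval fun j => algebraMap k K (c j) :
    MvPolynomial τ K →ₐ[K] K).restrictScalars k) n (C z) X (fun l => C (a l)) (C w) P
  simp only [AlgHom.restrictScalars_apply, aeval_C, aeval_X, Algebra.algebraMap_self,
    RingHom.id_apply] at e1 e2
  rw [hP] at e1
  rw [ht.eq_zero_of_aeval_eq_zero _ e1, map_zero] at e2
  have l := Loc_aeval (a := a) (p := p) (b := tup n z (fun j => algebraMap k K (c j)) a w)
    (q := tup n ζ c p 0) (fun o => by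
      rcases o with _ | j | j | j
      · exact hz
      · exact Loc_alg _
      · have := Loc_aeval (Loc_self a p) (∑ l, C (c j ^ n l) * X l)
        simpa [tup] using this
      · exact hw) P
  rw [← e2] at l
  exact Loc_uniq hp l (by simpa using Loc_alg (a := a) (p := p) 0)

/-- A finite grid of specialisations is enough. Plan: the polynomial is `map (eval p) Q` for one
`Q ∈ MvPolynomial (Option τ) (MvPolynomial ι k)`; `E = ∑ degreeOf i Q`;
`MvPolynomial.eq_zero_of_eval_zero_at_prod_finset`. -/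
theorem grid [CharZero k] (n : ι → ℕ) (P : MvPolynomial (Option (τ ⊕ τ ⊕ Unit)) k) :
    ∃ E : ℕ, ∀ p : ι → k,
      aeval (tup n (X none : MvPolynomial (Option τ) k) (fun j => X (some j)) (fun l => C (p l)) 0)
        P ≠ 0 → ∃ (ζ : k) (c : τ → ℕ), (∀ j, c j ≤ E) ∧
        eval (tup n ζ (fun j => (c j : k)) p 0) P ≠ 0 := by
  classical
  obtain ⟨Q, hQ⟩ : ∃ Q : MvPolynomial (Option τ) (MvPolynomial ι k),
      Q = aeval (tup n (X none : MvPolynomial (Option τ) (MvPolynomial ι k)) (fun j => X (some j))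
        (fun l => C (X l)) 0) P := ⟨_, rfl⟩
  refine ⟨∑ i, degreeOf i Q, fun p hp => ?_⟩
  have e := Ret0_tup (mapAlgHom (σ := Option τ) (aeval p : MvPolynomial ι k →ₐ[k] k)) n (X none)
    (fun j => X (some j)) (fun l => C (X l)) 0 P
  rw [← hQ] at e
  simp only [mapAlgHom_apply, map_X, map_C, map_zero, RingHom.coe_coe, aeval_X] at e
  by_contra! hc
  refine hp (eq_zero_of_eval_zero_at_prod_finset _
    (fun _ => (Finset.range (∑ i, degreeOf i Q + 1)).image Nat.cast) (fun i => ?_) fun x hx => ?_)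
  · rw [Finset.card_image_of_injective _ Nat.cast_injective, Finset.card_range, ← e,
      Nat.lt_succ_iff]
    refine le_trans ?_ (Finset.single_le_sum (f := fun i => degreeOf i Q) (fun _ _ => Nat.zero_le _)
      (Finset.mem_univ i))
    exact degreeOf_le_iff.2 fun m hm => monomial_le_degreeOf i (support_map_subset _ _ hm)
  · choose c c1 c2 using fun i => Finset.mem_image.1 (hx i)
    have e3 := Ret0_tup (aeval x : MvPolynomial (Option τ) k →ₐ[k] k) n (X none)
      (fun j => X (some j)) (fun l => C (p l)) 0 P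
    simp only [aeval_X, aeval_C, map_zero, Algebra.algebraMap_self, RingHom.id_apply] at e3
    have := hc (x none) (fun j => c (some j)) fun j => Nat.lt_succ_iff.1 (Finset.mem_range.1 (c1 _))
    simp only [c2] at this
    exact e3.trans this

end Pool.Agent.H69K

/-!
The height of a function at the points of a hypersurface, without exceptional set.
-/

namespace Pool.Agent.H69K

open IntermediateField MvPolynomial Height Pool.Agent.H35S

universe u

variable {k K Ω κ : Type u} [Field k] [Field K] [Algebra k K] [Field Ω] [Algebra k Ω] [Algebra K Ω]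
  [IsScalarTower k K Ω] [Field κ] [Algebra k κ] {ι : Type} [Fintype ι] {τ : Type} [Fintype τ]
  {d : ℕ}

theorem RetA_ev_zero (π : Place k Ω κ) {x : Ω} (h : π.O.valuation x < 1) : π.ev x = 0 := by
  rcases eq_or_ne x 0 with rfl | h0
  · exact π.ev_zero
  · refine π.ev_max x fun h1 => ?_
    have h2 := (π.O.valuation_le_one_iff _).2 h1
    have h3 : 0 < π.O.valuation x := (Valuation.pos_iff _).2 h0
    rw [map_inv₀, inv_le_one₀ h3] at h2
    exact absurd h (not_lt.2 h2)

theorem RetA_val_lt (π : Place k Ω κ) {x : Ω} (hx : x ∈ π.O) (h : π.ev x = 0) :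
    π.O.valuation x < 1 := by
  rcases (π.ev_eq_zero_iff hx).1 h with rfl | h1
  · rw [map_zero]
    exact zero_lt_one
  · by_contra h2
    refine h1 ((π.O.valuation_le_one_iff _).1 ?_)
    rw [map_inv₀]
    exact inv_le_one_of_one_le₀ (not_lt.1 h2)

omit [Algebra K Ω] [IsScalarTower k K Ω] in
theorem RetA_alg_map (f : K →ₐ[k] Ω) {σ : Type} (y : σ → K) {x : K}
    (hx : IsAlgebraic (adjoin k (Set.range y)) x) :
    IsAlgebraic (adjoin k (Set.range fun i => f (y i))) (f x) := by
  have hf : ∀ z : adjoin k (Set.range y), f z ∈ adjoin k (Set.range fun i => f (y i)) :=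
    fun z => by
      have h1 : f z ∈ (adjoin k (Set.range y)).map f := ⟨z, z.2, rfl⟩
      rwa [adjoin_map, ← Set.range_comp] at h1
  let g : adjoin k (Set.range y) →+* adjoin k (Set.range fun i => f (y i)) :=
    ((f : K →+* Ω).comp (adjoin k (Set.range y)).val.toRingHom).codRestrict _ hf
  exact hx.ringHom_of_comp_eq g (f : K →+* Ω) g.injective (by ext; rfl)

theorem RetA_aev {σ : Type} (y : σ → K) (p : MvPolynomial σ k) :
    aeval (fun i => algebraMap K Ω (y i)) p = algebraMap K Ω (aeval y p) :=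
  aeval_algebraMap_apply Ω y p

theorem RetA_trdeg [Algebra K κ] [IsScalarTower k K κ] {σ : Type} (ρ : σ → κ)
    (hρ : ∀ i, IsAlgebraic K (ρ i)) (hind : AlgebraicIndependent k ρ) :
    ∃ r : σ → K, AlgebraicIndependent k r := by
  let A : IntermediateField K κ := algebraicClosure K κ
  let ρ' : σ → A := fun i => ⟨ρ i, mem_algebraicClosure_iff.2 (hρ i)⟩
  have h1 : AlgebraicIndependent k ρ' :=
    AlgebraicIndependent.of_comp (A.val.restrictScalars k) hind
  have h2 := h1.lift_cardinalMk_le_trdeg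
  have h3 : Algebra.trdeg K A = 0 := trdeg_eq_zero
  rw [← trdeg_add_eq k K (A := A), h3, add_zero] at h2
  obtain ⟨s, hs⟩ := exists_isTranscendenceBasis k K
  rw [← hs.cardinalMk_eq_trdeg] at h2
  obtain ⟨e⟩ := Cardinal.lift_mk_le'.1 h2
  exact ⟨_, hs.1.comp e e.injective⟩

theorem RetA_lift (htr : Algebra.trdeg k K = d) (π : Place k Ω κ) {x : K}
    (hx : algebraMap K Ω x ∉ π.O) {σ : Type} [Fintype σ] (hσ : Fintype.card σ = d) (y : σ → K)
    (hy : ∀ i, algebraMap K Ω (y i) ∈ π.O) :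
    ¬ AlgebraicIndependent k fun i => π.ev (algebraMap K Ω (y i)) := by
  intro h1
  have h2 : ∀ p : MvPolynomial σ k, p ≠ 0 →
      π.ev (aeval (fun i => algebraMap K Ω (y i)) p) ≠ 0 :=
    fun p hp h => hp (algebraicIndependent_iff.1 h1 p (by rwa [π.ev_mvaeval hy] at h))
  have h3 : AlgebraicIndependent k y := algebraicIndependent_iff.2 fun p hp => by
    by_contra h
    refine h2 p h ?_
    rw [RetA_aev, hp, map_zero, π.ev_zero]
  have h4 := (h3.isTranscendenceBasis_of_lift_trdeg_le_of_finite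
    (by simp [htr, hσ])).isAlgebraic_field
  refine hx (mem_of_isAlgebraic π.O (adjoin k (Set.range fun i => algebraMap K Ω (y i)))
    (fun z hz => ?_) (RetA_alg_map (IsScalarTower.toAlgHom k K Ω) y (h4.isAlgebraic x)))
  obtain ⟨r, s, rfl⟩ := (mem_adjoin_range_iff k _ z).1 hz
  by_cases hs : s = 0
  · rw [hs, map_zero, div_zero]
    exact zero_mem _
  · rw [div_eq_mul_inv]
    exact mul_mem (π.mvaeval_mem hy r) (π.mem_of_ev_ne (h2 s hs)).2

theorem RetA_place [IsAlgClosed κ] {A : Type u} [CommRing A] [Algebra k A] (f : A →ₐ[k] Ω)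
    (g : A →ₐ[k] κ) (H : ∀ T, f T = 0 → g T = 0) :
    ∃ π : Place k Ω κ, ∀ T, f T ∈ π.O ∧ π.ev (f T) = g T := by
  have hk : RingHom.ker f.rangeRestrict.toRingHom ≤ RingHom.ker g.toRingHom := fun T hT =>
    H T (congrArg Subtype.val (RingHom.mem_ker.1 hT))
  obtain ⟨π, hπ⟩ := exists_place f.range
    (AlgHom.liftOfSurjective f.rangeRestrict f.rangeRestrict_surjective g hk)
  refine ⟨π, fun T => ?_⟩
  have h1 := hπ (f.rangeRestrict T)
  rw [AlgHom.liftOfSurjective_apply] at h1
  exact h1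

/-- A place that is nontrivial on `K` has fewer than `d` independent elements algebraic over the
residue field `R` of `K`. Plan: lift a transcendence basis of `R`; the lifts are independent and
generate a field inside `O`; if there were `d` of them, `K ⊆ O` by `mem_of_isAlgebraic`. So
`trdeg k R < d`, and `ρ` lies in the algebraic closure of `R` in `κ`. -/
theorem res_dep (htr : Algebra.trdeg k K = d) (π : Place k Ω κ) {x : K}
    (hx : algebraMap K Ω x ∉ π.O) {σ : Type} [Fintype σ] (hσ : Fintype.card σ = d) (ρ : σ → κ)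
    (hρ : ∀ i, IsAlgebraic (π.res (IsScalarTower.toAlgHom k K Ω).fieldRange) (ρ i)) :
    ¬ AlgebraicIndependent k ρ := by
  intro hind
  obtain ⟨r, hr⟩ := RetA_trdeg ρ hρ hind
  have h4 := hr.map' (f := (π.res (IsScalarTower.toAlgHom k K Ω).fieldRange).val)
    Subtype.val_injective
  have h5 : ∀ i, ∃ y : K, algebraMap K Ω y ∈ π.O ∧ π.ev (algebraMap K Ω y) = (r i : κ) := by
    intro i
    obtain ⟨z, ⟨y, rfl⟩, hz, he⟩ := (π.mem_res _ _).1 (r i).2
    exact ⟨y, hz, he⟩
  choose y hy he using h5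
  refine RetA_lift htr π hx hσ y hy ?_
  rw [funext he]
  exact h4

/-- If `∑ t^(n l) u l` is small compared with `u l₁`, the residue of `t` is algebraic over the
residue field of `K` (divide by a `u l₀` of largest valuation). -/
theorem res_alg (π : Place k Ω κ) (n : ι → ℕ) (hn : Function.Injective n) (u : ι → K) (l₁ : ι)
    {t : Ω} (ht : t ∈ π.O)
    (h : π.O.valuation (∑ l, t ^ n l * algebraMap K Ω (u l)) <
      π.O.valuation (algebraMap K Ω (u l₁))) :
    IsAlgebraic (π.res (IsScalarTower.toAlgHom k K Ω).fieldRange) (π.ev t) := by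
  classical
  obtain ⟨l₀, -, hmax⟩ := Finset.exists_max_image Finset.univ
    (fun l => π.O.valuation (algebraMap K Ω (u l))) ⟨l₁, Finset.mem_univ _⟩
  have hlt := h.trans_le (hmax l₁ (Finset.mem_univ _))
  have hpos : 0 < π.O.valuation (algebraMap K Ω (u l₀)) := lt_of_le_of_lt zero_le hlt
  have h0 : algebraMap K Ω (u l₀) ≠ 0 := (Valuation.pos_iff _).1 hpos
  have hc : ∀ l, algebraMap K Ω (u l / u l₀) ∈ π.O := fun l => by
    rw [← π.O.valuation_le_one_iff, map_div₀, map_div₀]
    exact div_le_one_of_le₀ (hmax l (Finset.mem_univ _)) zero_le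
  set R := π.res (IsScalarTower.toAlgHom k K Ω).fieldRange with hR
  let c : ι → R := fun l => ⟨π.ev (algebraMap K Ω (u l / u l₀)), π.ev_mem_res ⟨_, rfl⟩⟩
  refine ⟨∑ l, Polynomial.monomial (n l) (c l), fun hQ => ?_, ?_⟩
  · have h1 := congrArg (fun Q => Polynomial.coeff Q (n l₀)) hQ
    simp only [Polynomial.finsetSum_coeff, Polynomial.coeff_monomial, hn.eq_iff,
      Finset.sum_ite_eq', Finset.mem_univ, if_true, Polynomial.coeff_zero] at h1
    have h2 : π.ev (algebraMap K Ω (u l₀ / u l₀)) = 0 := congrArg Subtype.val h1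
    rw [map_div₀, div_self h0, π.ev_one] at h2
    exact one_ne_zero h2
  · have h1 : π.ev (∑ l, t ^ n l * algebraMap K Ω (u l / u l₀)) = 0 := by
      apply RetA_ev_zero
      have h2 : ∑ l, t ^ n l * algebraMap K Ω (u l / u l₀) =
          (∑ l, t ^ n l * algebraMap K Ω (u l)) / algebraMap K Ω (u l₀) := by
        rw [Finset.sum_div]
        exact Finset.sum_congr rfl fun l _ => by rw [map_div₀, mul_div_assoc]
      rw [h2, map_div₀]
      exact (div_lt_one₀ hpos).2 hlt
    rw [π.ev_sum _ _ fun l _ => mul_mem (pow_mem ht _) (hc l)] at h1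
    rw [map_sum, ← h1]
    refine Finset.sum_congr rfl fun l _ => ?_
    rw [Polynomial.aeval_monomial, π.ev_mul _ _ (pow_mem ht _) (hc l), π.ev_pow ht, mul_comm]
    rfl

/-- Generic linear forms and one transcendental function are independent. Plan: otherwise some
`a l` is transcendental over `E = k(t, y, w)`; take the place which is the identity on `E` and
sends `(a l)⁻¹` to `0` (`exists_place`), and use `res_alg`, `res_dep` for `(w, t)`. -/
theorem Ff.ind (h : Ff k K d) (hτ : Fintype.card τ + 1 = d) (a : ι → K)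
    (hgen : adjoin k (Set.range a) = ⊤) (t : τ → Ω) (ht : AlgebraicIndependent K t)
    (hΩ : adjoin K (Set.range t) = ⊤) (n : ι → ℕ) (hn : Function.Injective n) {w : K}
    (hw : Transcendental k w) :
    ix k (insert (algebraMap K Ω w) (Set.range t ∪
      Set.range fun j => ∑ l, t j ^ n l * algebraMap K Ω (a l))) ≠ 0 := by
  classical
  rw [(h.ext t ht hΩ).ix_ne_zero_iff]
  set E := adjoin k (insert (algebraMap K Ω w) (Set.range t ∪
      Set.range fun j => ∑ l, t j ^ n l * algebraMap K Ω (a l))) with hE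
  have hwE : algebraMap K Ω w ∈ E := subset_adjoin k _ (Set.mem_insert _ _)
  have htE : ∀ j, t j ∈ E := fun j =>
    subset_adjoin k _ (Set.mem_insert_of_mem _ (Or.inl ⟨j, rfl⟩))
  have hyE : ∀ j, ∑ l, t j ^ n l * algebraMap K Ω (a l) ∈ E := fun j =>
    subset_adjoin k _ (Set.mem_insert_of_mem _ (Or.inr ⟨j, rfl⟩))
  have key : ∀ l, IsAlgebraic E (algebraMap K Ω (a l)) := by
    intro l₁
    by_contra hb
    have hb0 : algebraMap K Ω (a l₁) ≠ 0 := fun h0 => hb (h0 ▸ isAlgebraic_zero)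
    have hb1 : Transcendental E (algebraMap K Ω (a l₁))⁻¹ := fun h1 =>
      hb (IsAlgebraic.inv_iff.1 h1)
    obtain ⟨π, hπ⟩ := RetA_place (k := k) (κ := AlgebraicClosure E)
      ((Polynomial.aeval (R := E) (algebraMap K Ω (a l₁))⁻¹).restrictScalars k)
      ((Polynomial.aeval (R := E) (0 : AlgebraicClosure E)).restrictScalars k)
      (fun T hT => by
        have h1 : T = 0 := transcendental_iff.1 hb1 T hT
        rw [h1, map_zero])
    have hEO : ∀ x : E, (x : Ω) ∈ π.O ∧ π.ev x = algebraMap E (AlgebraicClosure E) x :=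
      fun x => by simpa using hπ (Polynomial.C x)
    have hbO : algebraMap K Ω (a l₁) ∉ π.O := by
      have h1 := hπ Polynomial.X
      simp only [AlgHom.restrictScalars_apply, Polynomial.aeval_X] at h1
      have h2 := (π.ev_eq_zero_iff h1.1).1 h1.2
      rw [inv_inv] at h2
      exact h2.resolve_left (inv_ne_zero hb0)
    let x : τ ⊕ Unit → Ω := Sum.elim t (algebraMap K Ω ∘ fun _ => w)
    have hx : AlgebraicIndependent k x :=
      (algebraicIndependent_unique_type_iff.2 hw).sumElim_comp ht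
    have hxE : ∀ i, x i ∈ E := fun i => by
      rcases i with j | j
      · exact htE j
      · exact hwE
    refine res_dep h.tr π hbO (σ := τ ⊕ Unit) (by simpa using hτ) (fun i => π.ev (x i))
      (fun i => ?_) ?_
    · rcases i with j | j
      · refine res_alg π n hn a l₁ (hEO ⟨_, htE j⟩).1 ?_
        refine lt_of_le_of_lt ((π.O.valuation_le_one_iff _).2 (hEO ⟨_, hyE j⟩).1) ?_
        exact not_le.1 fun h1 => hbO ((π.O.valuation_le_one_iff _).1 h1)
      · exact isAlgebraic_algebraMap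
          (⟨_, π.ev_mem_res ⟨w, rfl⟩⟩ : π.res (IsScalarTower.toAlgHom k K Ω).fieldRange)
    · have h1 : AlgebraicIndependent k fun i => (⟨x i, hxE i⟩ : E) :=
        AlgebraicIndependent.of_comp E.val hx
      have h2 := h1.map' (f := IsScalarTower.toAlgHom k E (AlgebraicClosure E))
        (algebraMap E (AlgebraicClosure E)).injective
      rw [show (fun i => π.ev (x i)) = _ from funext fun i => (hEO ⟨x i, hxE i⟩).2]
      exact h2
  let A : IntermediateField E Ω := algebraicClosure E Ω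
  have hK : ∀ x : K, algebraMap K Ω x ∈ A.toSubfield := fun x => by
    have h1 : adjoin k (Set.range a) ≤
        (A.restrictScalars k).comap (IsScalarTower.toAlgHom k K Ω) := by
      rw [adjoin_le_iff]
      rintro _ ⟨l, rfl⟩
      exact mem_algebraicClosure_iff.2 (key l)
    exact h1 (hgen ▸ mem_top)
  have h1 : adjoin K (Set.range t) ≤ A.toSubfield.toIntermediateField hK := by
    rw [adjoin_le_iff]
    rintro _ ⟨j, rfl⟩
    exact A.algebraMap_mem ⟨t j, htE j⟩
  exact ⟨fun x => mem_algebraicClosure_iff.1 (h1 (hΩ ▸ mem_top))⟩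

/-- The relation does not vanish on the generic line over a regular point of `w = 0`.
Plan: otherwise the evaluation into `κ = AlgebraicClosure (FractionRing (MvPolynomial (Option τ) k))`
kills the kernel of `aeval (tup ..)`, so it factors through the range `B`; `exists_place` gives `π`
with `z ↦ X none`, `t j ↦ X (some j)`, `y j ↦ ∑ X^n p`, `w ↦ 0` (so `w⁻¹ ∉ O`). If all `a l - p l` have
valuation `< 1` then `z v(a) = u(a)` gives `ev z = ζ`, but `ev z` is transcendental. Otherwise
`res_alg` with `u l = a l - p l` makes all `ev (t j)` algebraic over the residue field of `K`,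
which contains `ev z`; contradiction with `res_dep`. -/
theorem Ff.nonvan (h : Ff k K d) (hτ : Fintype.card τ + 1 = d) (a : ι → K) (t : τ → Ω)
    (n : ι → ℕ) (hn : Function.Injective n) {w z : K} (hw : w ≠ 0)
    (P : MvPolynomial (Option (τ ⊕ τ ⊕ Unit)) k)
    (hP : ∀ T, aeval (tup n (algebraMap K Ω z) t (fun l => algebraMap K Ω (a l))
      (algebraMap K Ω w)) T = 0 → P ∣ T)
    (p : ι → k) {ζ : k} (hz : Loc_R a p z ζ) :
    aeval (tup n (X none : MvPolynomial (Option τ) k) (fun j => X (some j)) (fun l => C (p l)) 0)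
      P ≠ 0 := by
  classical
  intro hz0
  let κ := AlgebraicClosure (FractionRing (MvPolynomial (Option τ) k))
  let g : MvPolynomial (Option τ) k →ₐ[k] κ :=
    (IsScalarTower.toAlgHom k (FractionRing (MvPolynomial (Option τ) k)) κ).comp
      (IsScalarTower.toAlgHom k (MvPolynomial (Option τ) k) _)
  have hg : Function.Injective g :=
    (algebraMap (FractionRing (MvPolynomial (Option τ) k)) κ).injective.comp
      (IsFractionRing.injective (MvPolynomial (Option τ) k) _)
  obtain ⟨π, hπ⟩ := RetA_place (k := k) (κ := κ)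
    (aeval (tup n (algebraMap K Ω z) t (fun l => algebraMap K Ω (a l)) (algebraMap K Ω w)))
    (g.comp (aeval (tup n (X none : MvPolynomial (Option τ) k) (fun j => X (some j))
      (fun l => C (p l)) 0)))
    (fun T hT => by
      obtain ⟨Q, rfl⟩ := hP T hT
      rw [AlgHom.comp_apply, map_mul, hz0, zero_mul, map_zero])
  have hX := fun o => hπ (X o)
  simp only [AlgHom.comp_apply, aeval_X] at hX
  have hzO : algebraMap K Ω z ∈ π.O ∧ π.ev (algebraMap K Ω z) = g (X none) := hX none
  have htO : ∀ j, t j ∈ π.O ∧ π.ev (t j) = g (X (some j)) := fun j => hX (some (.inl j))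
  have hyO : ∀ j, ∑ l, t j ^ n l * algebraMap K Ω (a l) ∈ π.O ∧
      π.ev (∑ l, t j ^ n l * algebraMap K Ω (a l)) = g (∑ l, X (some j) ^ n l * C (p l)) :=
    fun j => hX (some (.inr (.inl j)))
  have hwO : algebraMap K Ω w ∈ π.O ∧ π.ev (algebraMap K Ω w) = g 0 :=
    hX (some (.inr (.inr ())))
  have hwi : algebraMap K Ω w⁻¹ ∉ π.O := by
    rw [map_inv₀]
    refine ((π.ev_eq_zero_iff hwO.1).1 (by rw [hwO.2, map_zero])).resolve_left ?_
    exact (map_ne_zero _).2 hw
  have hsub : ∀ l, algebraMap K Ω (a l - algebraMap k K (p l)) =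
      algebraMap K Ω (a l) - algebraMap k Ω (p l) := fun l => by
    rw [map_sub, ← IsScalarTower.algebraMap_apply]
  by_cases hc : ∀ l, π.O.valuation (algebraMap K Ω (a l - algebraMap k K (p l))) < 1
  · have haO : ∀ l, algebraMap K Ω (a l) ∈ π.O := fun l => by
      have h1 := add_mem ((π.O.valuation_le_one_iff _).1 (hc l).le) (π.alg_mem (p l))
      rwa [hsub, sub_add_cancel] at h1
    have hae : (fun l => π.ev (algebraMap K Ω (a l))) = fun l => algebraMap k κ (p l) :=
      funext fun l => by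
        have h1 := RetA_ev_zero π (hc l)
        rwa [hsub, π.ev_sub (haO l) (π.alg_mem _), π.ev_alg, sub_eq_zero] at h1
    obtain ⟨u, v, h1, h2, h3⟩ := hz
    have h4 := congrArg (fun y => π.ev (algebraMap K Ω y)) h2
    simp only [map_mul, ← RetA_aev] at h4
    rw [π.ev_mul _ _ hzO.1 (π.mvaeval_mem haO v), π.ev_mvaeval haO, π.ev_mvaeval haO, hae,
      RetA_aev, RetA_aev, aeval_eq_eval, ← h3, map_mul, hzO.2] at h4
    have h5 := mul_right_cancel₀ ((map_ne_zero _).2 h1) h4
    rw [← g.commutes ζ] at h5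
    have h6 := congrArg (eval fun _ => ζ + 1) (hg h5)
    simp at h6
  · obtain ⟨l₁, hl₁⟩ := not_forall.1 hc
    refine res_dep h.tr π hwi (σ := Option τ) (by simpa using hτ) (g ∘ X) (fun i => ?_)
      ((algebraicIndependent_X (Option τ) k).map' hg)
    rcases i with _ | j
    · rw [Function.comp_apply, ← hzO.2]
      exact isAlgebraic_algebraMap
        (⟨_, π.ev_mem_res ⟨z, rfl⟩⟩ : π.res (IsScalarTower.toAlgHom k K Ω).fieldRange)
    · rw [Function.comp_apply, ← (htO j).2]
      refine res_alg π n hn (fun l => a l - algebraMap k K (p l)) l₁ (htO j).1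
        (lt_of_lt_of_le ?_ (not_lt.1 hl₁))
      have hm : ∀ l, t j ^ n l * algebraMap k Ω (p l) ∈ π.O := fun l =>
        mul_mem (pow_mem (htO j).1 _) (π.alg_mem _)
      have h1 : ∑ l, t j ^ n l * algebraMap K Ω (a l - algebraMap k K (p l)) =
          ∑ l, t j ^ n l * algebraMap K Ω (a l) - ∑ l, t j ^ n l * algebraMap k Ω (p l) := by
        rw [← Finset.sum_sub_distrib]
        exact Finset.sum_congr rfl fun l _ => by rw [hsub, mul_sub]
      rw [h1]
      refine RetA_val_lt π (sub_mem (hyO j).1 (sum_mem fun l _ => hm l)) ?_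
      rw [π.ev_sub (hyO j).1 (sum_mem fun l _ => hm l), (hyO j).2, π.ev_sum _ _ fun l _ => hm l,
        map_sum, sub_eq_zero]
      refine Finset.sum_congr rfl fun l _ => ?_
      rw [π.ev_mul _ _ (pow_mem (htO j).1 _) (π.alg_mem _), π.ev_pow (htO j).1, (htO j).2,
        π.ev_alg, map_mul, map_pow, ← g.commutes]
      rfl

end Pool.Agent.H69K

/-!
The height of a function at the points of a hypersurface, without exceptional set.
-/

namespace Pool.Agent.H69K

open IntermediateField MvPolynomial Height Pool.Agent.H35S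

universe u

variable {k K Ω κ : Type u} [Field k] [Field K] [Algebra k K] [Field Ω] [Algebra k Ω] [Algebra K Ω]
  [IsScalarTower k K Ω] [Field κ] [Algebra k κ] {ι : Type} [Fintype ι] {τ : Type} [Fintype τ]
  {d : ℕ}

omit [Fintype ι] in
theorem RetB_tr {a : ι → K} {p : ι → k} (hp : ∀ f, aeval a f = 0 → eval p f = 0) {w : K}
    (h0 : w ≠ 0) (hw : Loc_R a p w 0) : Transcendental k w := fun h => by
  have m : w ∈ Algebra.adjoin k (Set.range fun _ : Unit => w) := Algebra.subset_adjoin ⟨(), rfl⟩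
  have m2 : w⁻¹ ∈ Algebra.adjoin k (Set.range fun _ : Unit => w) :=
    Subalgebra.inv_mem_of_algebraic (x := ⟨w, m⟩) _ h
  rw [Algebra.adjoin_range_eq_range_aeval] at m2
  obtain ⟨f, hf⟩ := m2
  have l := Loc_mul hw (Loc_aeval (b := fun _ : Unit => w) (q := fun _ => 0) (fun _ => hw) f)
  have e : aeval (fun _ : Unit => w) f = w⁻¹ := hf
  rw [e, mul_inv_cancel₀ h0, zero_mul] at l
  exact zero_ne_one (Loc_uniq hp l (by simpa using Loc_alg (a := a) (p := p) 1))

theorem RetB_ht [NumberField k] (n : ι → ℕ) (E : ℕ) : ∃ B : ℝ, ∀ c ≤ E,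
    logHeight₁ (c : k) ≤ B ∧ ∀ p : ι → k,
      logHeight₁ (∑ l, (c : k) ^ n l * p l) ≤ ∑ l, logHeight₁ (p l) + B := by
  obtain ⟨B, hB⟩ : ∃ B : ℝ, ∀ c ≤ E, logHeight₁ (c : k) ≤ B :=
    ⟨∑ c ∈ Finset.range (E + 1), logHeight₁ (c : k), fun c hc =>
      Finset.single_le_sum (f := fun c : ℕ => logHeight₁ (c : k)) (fun _ _ => zero_le_logHeight₁ _)
        (Finset.mem_range.2 (Nat.lt_succ_of_le hc))⟩
  refine ⟨max B (totalWeight k * Real.log (Finset.univ : Finset ι).card + ∑ l, n l * B),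
    fun c hc => ⟨(hB c hc).trans (le_max_left _ _), fun p => ?_⟩⟩
  have h1 := logHeight₁_sum_le Finset.univ fun l => (c : k) ^ n l * p l
  have h2 : ∑ l, logHeight₁ ((c : k) ^ n l * p l) ≤ ∑ l, (n l * B + logHeight₁ (p l)) :=
    Finset.sum_le_sum fun l _ => (logHeight₁_mul_le _ _).trans (by
      rw [logHeight₁_pow]
      have := hB c hc
      gcongr)
  rw [Finset.sum_add_distrib] at h2
  linarith [le_max_right B (totalWeight k * Real.log (Finset.univ : Finset ι).card + ∑ l, n l * B)]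

theorem RetB_core [NumberField k] {e : ℕ} (h : Ff k K (e + 2)) (hτ : Fintype.card τ = e + 1)
    (a : ι → K) (hgen : adjoin k (Set.range a) = ⊤) (t : τ → Ω) (ht : AlgebraicIndependent K t)
    (hΩ : adjoin K (Set.range t) = ⊤) (n : ι → ℕ) (hn : Function.Injective n) :
    ∃ c : ℕ, ∀ (w z : K) (M : ℕ), w ≠ 0 →
      (∀ C : Finset ι, C.card ≤ e → ix k (insert w (insert z (a '' C))) ≤ M) →
      ∃ C : ℝ, ∀ (p : ι → k) (ζ : k), (∀ f, aeval a f = 0 → eval p f = 0) → Loc_R a p w 0 →
        Loc_R a p z ζ → logHeight₁ ζ ≤ c * M * ∑ l, logHeight₁ (p l) + C := by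
  classical
  have H := h.ext t ht hΩ
  have hτ' : Fintype.card τ + 1 = e + 2 := by omega
  obtain ⟨y, hy⟩ : ∃ y : τ → Ω, y = fun j => ∑ l, t j ^ n l * algebraMap K Ω (a l) := ⟨_, rfl⟩
  obtain ⟨b, hb⟩ : ∃ b : ι ⊕ τ → Ω, b = Sum.elim (fun l => algebraMap K Ω (a l)) t := ⟨_, rfl⟩
  have tp : adjoin k (Set.range b) = ⊤ := by
    have e1 : Set.range b = Set.range t ∪ algebraMap K Ω '' Set.range a := by
      rw [hb, Set.Sum.elim_range, Set.union_comm, ← Set.range_comp]
      rfl
    rw [e1]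
    exact top_le_iff.1 fun x _ => Ret0_mem _ (fun x => Ret0_map (hgen ▸ mem_top) _)
      (Set.subset_union_left.trans (subset_adjoin _ _)) (hΩ ▸ mem_top)
  obtain ⟨D, hD⟩ := PD.of_alg_all (k := k) (b := b) (z := y) fun j => (Ret0_alg tp).isAlgebraic _
  refine ⟨(e + 1) * (D * Fintype.card (ι ⊕ τ)) ^ e, fun w z M w0 hM => ?_⟩
  by_cases hw : Transcendental k w
  swap
  · exact ⟨0, fun p ζ hp l _ => absurd (RetB_tr hp w0 l) hw⟩
  have i0 : tup n (algebraMap K Ω z) t (fun l => algebraMap K Ω (a l)) (algebraMap K Ω w) ''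
      {none}ᶜ = insert (algebraMap K Ω w) (Set.range t ∪ Set.range y) := by
    ext x
    constructor
    · rintro ⟨_ | j | j | j, h1, rfl⟩
      · exact absurd rfl h1
      · exact Or.inr (Or.inl ⟨j, rfl⟩)
      · exact Or.inr (Or.inr ⟨j, by rw [hy]; rfl⟩)
      · exact Or.inl rfl
    · rintro (rfl | ⟨j, rfl⟩ | ⟨j, rfl⟩)
      · exact ⟨some (.inr (.inr ())), by simp, rfl⟩
      · exact ⟨some (.inl j), by simp, rfl⟩
      · exact ⟨some (.inr (.inl j)), by simp, by rw [hy]; rfl⟩
  obtain ⟨P, χ, -, hP, χ1, hdeg⟩ := H.rel (σ := Option (τ ⊕ τ ⊕ Unit)) (by simp; omega)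
    (tup n (algebraMap K Ω z) t (fun l => algebraMap K Ω (a l)) (algebraMap K Ω w)) none
    (by rw [i0, hy]; exact h.ind hτ' a hgen t ht hΩ n hn hw)
  have dg : ∀ j, degreeOf (some (.inr (.inl j))) P ≤ (D * Fintype.card (ι ⊕ τ)) ^ e * M := by
    intro j
    have i1 : tup n (algebraMap K Ω z) t (fun l => algebraMap K Ω (a l)) (algebraMap K Ω w) ''
        {some (.inr (.inl j))}ᶜ =
        (Set.range t ∪ algebraMap K Ω '' {w, z}) ∪ y '' (Finset.univ.erase j : Finset τ) := by
      ext x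
      constructor
      · rintro ⟨_ | i | i | i, h1, rfl⟩
        · exact Or.inl (Or.inr ⟨z, by simp, rfl⟩)
        · exact Or.inl (Or.inl ⟨i, rfl⟩)
        · exact Or.inr ⟨i, by simpa using h1, by rw [hy]; rfl⟩
        · exact Or.inl (Or.inr ⟨w, by simp, rfl⟩)
      · rintro ((⟨i, rfl⟩ | ⟨_, rfl | rfl, rfl⟩) | ⟨i, h1, rfl⟩)
        · exact ⟨some (.inl i), by simp, rfl⟩
        · exact ⟨some (.inr (.inr ())), by simp, rfl⟩
        · exact ⟨none, by simp, rfl⟩
        · exact ⟨some (.inr (.inl i)), by simpa using h1, by rw [hy]; rfl⟩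
    have cj : (Finset.univ.erase j).card = e := by
      rw [Finset.card_erase_of_mem (Finset.mem_univ _), Finset.card_univ, hτ]
      rfl
    have s2 : Sm ({w, z} : Set K) 2 := ⟨{w, z}, by simp, Finset.card_le_two⟩
    have := H.slots hD M (Finset.univ.erase j) ((Sm.range t).union (s2.map (algebraMap K Ω)))
      (by omega) fun C hC => by
        have i2 : Set.range t ∪ algebraMap K Ω '' {w, z} ∪ b '' C =
            Set.range t ∪ algebraMap K Ω '' insert w (insert z (a '' C.toLeft)) := by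
          ext x
          constructor
          · rintro ((h1 | ⟨u, h1, rfl⟩) | ⟨l | i, h1, rfl⟩)
            · exact Or.inl h1
            · exact Or.inr ⟨u, h1.imp id Or.inl, rfl⟩
            · exact Or.inr ⟨a l, Or.inr (Or.inr ⟨l, by simpa using h1, rfl⟩), by rw [hb]; rfl⟩
            · exact Or.inl ⟨i, by rw [hb]; rfl⟩
          · rintro (h1 | ⟨u, rfl | rfl | ⟨l, h1, rfl⟩, rfl⟩)
            · exact Or.inl (Or.inl h1)
            · exact Or.inl (Or.inr ⟨_, Or.inl rfl, rfl⟩)
            · exact Or.inl (Or.inr ⟨_, Or.inr rfl, rfl⟩)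
            · exact Or.inr ⟨.inl l, by simpa using h1, by rw [hb]; rfl⟩
        have c1 : C.toLeft.card ≤ e := Finset.card_toLeft_le.trans (hC.trans_eq cj)
        rw [i2]
        exact (h.base t ht hΩ ((((Sm.image a C.toLeft).insert z).insert w).le (by omega))).trans
          (hM _ c1)
    rw [cj, ← i1, ← hdeg] at this
    exact (Nat.le_mul_of_pos_right _ χ1).trans this
  obtain ⟨E, hE⟩ := grid n P
  obtain ⟨C₀, hC⟩ := ht_opt P
  obtain ⟨B, hB⟩ := RetB_ht (k := k) n E
  refine ⟨∑ j : τ, (degreeOf (some (.inl j)) P : ℝ) * B +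
    (e + 1) * (((D * Fintype.card (ι ⊕ τ)) ^ e * M : ℕ) * B) + C₀, fun p ζ hp lw lz => ?_⟩
  obtain ⟨ζ', c, hc, ne⟩ := hE p (h.nonvan hτ' a t n hn w0 P (fun T hT => (hP T).1 hT) p lz)
  have v := rel_van a t ht n P ((hP P).2 dvd_rfl) p hp lz lw fun j => (c j : k)
  have := hC _ _ _ v ne
  rw [Fintype.sum_sum_type, Fintype.sum_sum_type] at this
  simp only [Sum.elim_inl, Sum.elim_inr, logHeight₁_zero, mul_zero, Finset.sum_const_zero,
    add_zero] at this
  have k1 : ∑ j : τ, (degreeOf (some (.inl j)) P : ℝ) * logHeight₁ (c j : k) ≤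
      ∑ j : τ, (degreeOf (some (.inl j)) P : ℝ) * B :=
    Finset.sum_le_sum fun j _ => mul_le_mul_of_nonneg_left (hB _ (hc j)).1 (Nat.cast_nonneg _)
  have k2 : ∑ j : τ, (degreeOf (some (.inr (.inl j))) P : ℝ) *
      logHeight₁ (∑ l, (c j : k) ^ n l * p l) ≤
      ∑ _j : τ, (((D * Fintype.card (ι ⊕ τ)) ^ e * M : ℕ) : ℝ) * (∑ l, logHeight₁ (p l) + B) :=
    Finset.sum_le_sum fun j _ => mul_le_mul (Nat.cast_le.2 (dg j)) ((hB _ (hc j)).2 p)
      (zero_le_logHeight₁ _) (Nat.cast_nonneg _)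
  rw [Finset.sum_const, Finset.card_univ, hτ, nsmul_eq_mul] at k2
  push_cast at k2 ⊢
  linarith

/-- The bound at all points of the hypersurface `w = 0` where `w` and `z` are regular.
Plan: `d = e + 2`, `τ = Fin (e + 1)`, `Ω = FractionRing (MvPolynomial τ K)`, `t j` the variables,
`n = Fintype.equivFin ι` cast to `ℕ`, `y j = ∑ l, t j ^ n l * a l`, `b' = Sum.elim a t`, `D` from
`PD.of_alg_all` for `y` over `b'` (before `w, z` are given). If `w` is algebraic over `k` there is no
point `p` (`w * q(w) = 1`, `Loc_uniq`). Otherwise `Ff.ind`, and `Ff.rel` (for `Ff.ext`) applied to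
`tup n z t a w` with `i₀ = none` give `P`; the degree of `P` in `Y j` is at most the index of
`(range t ∪ {w, z}) ∪ y '' (univ.erase j)`, which is at most `(D * card (ι ⊕ τ)) ^ e * M` by
`Ff.slots` and `Ff.base` (the elements of `C : Finset (ι ⊕ τ)` in `τ` add nothing; use `C.toLeft`).
`Ff.nonvan`, `grid`, `rel_van`, `ht_opt` at the point `(c, ∑ c ^ n p, 0)`;
`logHeight₁_sum_le`, `logHeight₁_mul_le` bound the height of `∑ l, c j ^ n l * p l` by
`∑ l, logHeight₁ (p l)` plus a constant (finitely many `c`). -/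
theorem Ff.ret [NumberField k] (h : Ff k K d) (hd : 2 ≤ d) (a : ι → K)
    (hgen : adjoin k (Set.range a) = ⊤) :
    ∃ c : ℕ, ∀ (w z : K) (M : ℕ), w ≠ 0 →
      (∀ C : Finset ι, C.card ≤ d - 2 → ix k (insert w (insert z (a '' C))) ≤ M) →
      ∃ C : ℝ, ∀ (p : ι → k) (ζ : k), (∀ f, aeval a f = 0 → eval p f = 0) → Loc_R a p w 0 →
        Loc_R a p z ζ → logHeight₁ ζ ≤ c * M * ∑ l, logHeight₁ (p l) + C := by
  obtain ⟨e, rfl⟩ : ∃ e, d = e + 2 := ⟨d - 2, by omega⟩
  refine RetB_core (τ := Fin (e + 1)) (Ω := FractionRing (MvPolynomial (Fin (e + 1)) K)) h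
    (Fintype.card_fin _) a hgen (fun j => algebraMap (MvPolynomial (Fin (e + 1)) K) _ (X j))
    ((algebraicIndependent_X _ _).map' (f := IsScalarTower.toAlgHom K _ _)
      (IsFractionRing.injective _ _)) (top_le_iff.1 fun x _ => ?_)
    (fun l => Fintype.equivFin ι l) (Fin.val_injective.comp (Fintype.equivFin ι).injective)
  obtain ⟨r, s, -, rfl⟩ := IsFractionRing.div_surjective (MvPolynomial (Fin (e + 1)) K) x
  have k : ∀ r : MvPolynomial (Fin (e + 1)) K,
      aeval (fun j => algebraMap (MvPolynomial (Fin (e + 1)) K)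
        (FractionRing (MvPolynomial (Fin (e + 1)) K)) (X j)) r = algebraMap _ _ r := fun r =>
    (comp_aeval_apply X (IsScalarTower.toAlgHom K _ _) r).symm.trans (by simp)
  exact (mem_adjoin_range_iff _ _ _).2 ⟨r, s, by rw [k, k]⟩

end Pool.Agent.H69K
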