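import Pool.Agent.MP_195eb9_ag.H69.Defs
import Pool.Agent.MP_195eb9_ag.H69.B

/-!
Dense orbits in an affine chart.
-/

namespace Pool.Agent.H69K

open IntermediateField MvPolynomial Height Filter Topology Pool.Agent.H35S Pool.Agent.MP_195eb9_ag

universe u

/-- A rational self-map of an affine variety with a Zariski dense orbit. -/
structure Dyn (k K : Type u) (ι : Type) [Field k] [Field K] [Algebra k K] (d : ℕ) where
  a : ι → K
  φ : K →ₐ[k] K
  y : ℕ → ι → k
  gen : adjoin k (Set.range a) = ⊤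
  tr : Algebra.trdeg k K = d
  two : 2 ≤ d
  hy : ∀ n f, aeval a f = 0 → eval (y n) f = 0
  reg : ∀ n l, Loc_R a (y n) (φ (a l)) (y (n + 1) l)
  dense : ∀ f, (∀ n, eval (y n) f = 0) → aeval a f = 0

variable {k K : Type u} [Field k] [Field K] [Algebra k K] {ι : Type} [Fintype ι] {d : ℕ}
  (S : Dyn k K ι d)

/-- The degree sequences. -/
noncomputable def Dyn.δ (j n : ℕ) : ℕ := md k d j (fun l => (S.φ ^ n) (S.a l)) S.a

/-- The height of the `n`-th point. -/
noncomputable def Dyn.H [NumberField k] (n : ℕ) : ℝ := ∑ l, logHeight₁ (S.y n l)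

include S in
theorem Dyn.ff : Ff k K d := Ff.of_gen S.a S.gen S.tr

theorem Dyn.loc (n i : ℕ) {x : K} {c : k} (h : Loc_R S.a (S.y (n + i)) x c) :
    Loc_R S.a (S.y n) ((S.φ ^ i) x) c := by
  induction i generalizing x with
  | zero => exact h
  | succ i ih =>
    rw [pow_succ]
    exact ih (Loc_step (S.hy _) S.φ (S.reg (n + i)) h)

omit [Fintype ι] in
theorem DynA_poly {a b : ι → K} {p q : ι → k} (h : ∀ l, Loc_R a p (b l) (q l)) {w : K} {c : k}
    (hw : Loc_R a p w c) (Q : Polynomial (MvPolynomial ι k)) :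
    Loc_R a p ((Q.map (aeval b : MvPolynomial ι k →ₐ[k] K).toRingHom).eval w)
      ((Q.map (eval q)).eval c) := by
  induction Q using Polynomial.induction_on with
  | C r =>
    rw [Polynomial.map_C, Polynomial.map_C, Polynomial.eval_C, Polynomial.eval_C]
    exact Loc_poly h r
  | add f g hf hg => simpa using Loc_add hf hg
  | monomial n r ih => simpa [pow_succ, ← mul_assoc] using Loc_mul ih hw

theorem DynA_div {R : Type*} [CommRing R] (ψ : R →+* K) {w : K} (hw : w ≠ 0) (n : ℕ) :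
    ∀ P : Polynomial R, P.natDegree ≤ n → P.map ψ ≠ 0 → (P.map ψ).eval w = 0 →
      ∃ Q : Polynomial R, ψ (Q.coeff 0) ≠ 0 ∧ (Q.map ψ).eval w = 0 := by
  induction n with
  | zero =>
    intro P hP h0 h1
    refine ⟨P, fun h => h0 ?_, h1⟩
    rw [Polynomial.eq_C_of_natDegree_le_zero hP, Polynomial.map_C, h, map_zero]
  | succ n ih =>
    intro P hP h0 h1
    by_cases h : ψ (P.coeff 0) = 0
    · have e : P.map ψ = P.divX.map ψ * Polynomial.X := by
        conv_lhs => rw [← P.divX_mul_X_add]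
        rw [Polynomial.map_add, Polynomial.map_C, h, map_zero, add_zero, Polynomial.map_mul,
          Polynomial.map_X]
      rw [e] at h0 h1
      refine ih P.divX ?_ (left_ne_zero_of_mul h0) ?_
      · rw [Polynomial.natDegree_divX_eq_natDegree_tsub_one]
        omega
      · rw [Polynomial.eval_mul, Polynomial.eval_X] at h1
        exact (mul_eq_zero.1 h1).resolve_right hw
    · exact ⟨P, h, h1⟩

/-- Nonzero functions that vanish whenever a given coordinate lies in a finite set. -/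
theorem Dyn.DynA_prod : ∃ l : ι, ∀ T : Finset k, ∃ f : MvPolynomial ι k, aeval S.a f ≠ 0 ∧
    ∀ p : ι → k, p l ∈ T → eval p f = 0 := by
  obtain ⟨c, hc⟩ := S.ff.exists_basis S.a S.gen
  have h0 : 0 < d := lt_of_lt_of_le two_pos S.two
  have ht : Transcendental k (S.a (c ⟨0, h0⟩)) := hc.transcendental ⟨0, h0⟩
  refine ⟨c ⟨0, h0⟩, fun T => ⟨∏ t ∈ T, (X (c ⟨0, h0⟩) - C t), ?_, fun p hp => ?_⟩⟩
  · rw [map_prod, Finset.prod_ne_zero_iff]
    intro t _ h
    rw [map_sub, aeval_X, aeval_C, sub_eq_zero] at h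
    exact ht (h ▸ isAlgebraic_algebraMap t)
  · rw [map_prod]
    exact Finset.prod_eq_zero hp (by simp)

/-- The zero set moves forward. Plan: `w = g(a) ≠ 0` is algebraic over `k(φ a)` (`Ff.alg_map`,
`PD.of_alg`): `∑ qᵢ(φ a) wⁱ = 0`; dividing by powers of `w` (`divX`) we may assume `q₀(φ a) ≠ 0`;
`g' = q₀`; `Loc_aeval`, `Loc_uniq` at `y n`. -/
theorem Dyn.fwd {g : MvPolynomial ι k} (hg : aeval S.a g ≠ 0) :
    ∃ g', aeval S.a g' ≠ 0 ∧ ∀ n, eval (S.y n) g = 0 → eval (S.y (n + 1)) g' = 0 := by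
  obtain ⟨D, P, -, h0, h1⟩ := PD.of_alg ((S.ff.alg_map S.a S.gen S.φ).isAlgebraic (aeval S.a g))
  obtain ⟨Q, hQ, h2⟩ := DynA_div _ hg _ P le_rfl h0 h1
  refine ⟨Q.coeff 0, fun h => hQ ?_, fun n hn => ?_⟩
  · have : aeval (fun l => S.φ (S.a l)) (Q.coeff 0) = S.φ (aeval S.a (Q.coeff 0)) :=
      (comp_aeval_apply _ _ _).symm
    rw [h, map_zero] at this
    exact this
  · have h3 := DynA_poly (S.reg n) (Loc_poly (Loc_self S.a (S.y n)) g) Q
    rw [h2, hn, ← Polynomial.coeff_zero_eq_eval_zero, Polynomial.coeff_map] at h3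
    exact Loc_uniq (S.hy n) h3 (by simpa using Loc_alg (a := S.a) (p := S.y n) 0)

/-- A nonzero function does not vanish at all late points: multiply `g` by
`∏ n < N, (X l - C (y n l))` with `a l` transcendental (`Ff.exists_basis`). -/
theorem Dyn.tail {g : MvPolynomial ι k} (hg : aeval S.a g ≠ 0) (N : ℕ) :
    ∃ n, N ≤ n ∧ eval (S.y n) g ≠ 0 := by
  classical
  by_contra h
  push Not at h
  obtain ⟨l, hl⟩ := S.DynA_prod
  obtain ⟨f, hf, hf'⟩ := hl ((Finset.range N).image fun n => S.y n l)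
  refine mul_ne_zero hg hf ?_
  rw [← map_mul]
  refine S.dense _ fun n => ?_
  rw [map_mul]
  rcases lt_or_ge n N with hn | hn
  · rw [hf' _ (Finset.mem_image.2 ⟨n, Finset.mem_range.2 hn, rfl⟩), mul_zero]
  · rw [h n hn, zero_mul]

theorem Dyn.DynA_iter {g : MvPolynomial ι k} (hg : aeval S.a g ≠ 0) (j : ℕ) :
    ∃ g', aeval S.a g' ≠ 0 ∧ ∀ n, eval (S.y n) g = 0 → eval (S.y (n + j)) g' = 0 := by
  induction j with
  | zero => exact ⟨g, hg, fun _ h => h⟩
  | succ j ih =>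
    obtain ⟨g₁, h₁, h₂⟩ := ih
    obtain ⟨g₂, h₃, h₄⟩ := S.fwd h₁
    exact ⟨g₂, h₃, fun n hn => h₄ _ (h₂ n hn)⟩

omit [Fintype ι] in
theorem Dyn.DynA_shift (G : Set (MvPolynomial ι k)) : ∃ G' : Set (MvPolynomial ι k), ∀ n,
    (∀ g ∈ G', eval (S.y n) g = 0) ↔ ∀ g ∈ G, eval (S.y (n + 1)) g = 0 := by
  have key : ∀ n g, Loc_R S.a (S.y n) (S.φ (aeval S.a g)) (eval (S.y (n + 1)) g) := fun n g =>
    Loc_step (S.hy n) S.φ (S.reg n) (Loc_poly (Loc_self S.a (S.y (n + 1))) g)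
  refine ⟨{u | ∃ g ∈ G, ∃ v : MvPolynomial ι k,
    S.φ (aeval S.a g) * aeval S.a v = aeval S.a u}, fun n =>
    ⟨fun h g hg => ?_, ?_⟩⟩
  · obtain ⟨u, v, h1, h2, h3⟩ := key n g
    rw [h u ⟨g, hg, v, h2⟩] at h3
    exact (mul_eq_zero.1 h3).resolve_right h1
  · rintro h u ⟨g, hg, v, h2⟩
    have h3 := Loc_mul (key n g) (Loc_poly (Loc_self S.a (S.y n)) v)
    rw [h2, h g hg, zero_mul] at h3
    exact Loc_uniq (S.hy n) (Loc_poly (Loc_self S.a (S.y n)) u) h3

theorem Dyn.DynA_dml : ∃ a r : ℕ, 0 < r ∧ ∀ p : MvPolynomial ι k, ∀ i : ℕ,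
    (∀ t : ℕ, eval (S.y (a + i + r * t)) p = 0) ∨
      BZ ({n | eval (S.y n) p = 0} ∩ {n | ∃ t, n = a + i + r * t}) := by
  let Nn : Set (MvPolynomial ι k) → Set ℕ := fun J => {n | ∀ p ∈ J, eval (S.y n) p = 0}
  let I : Set ℕ → Ideal (MvPolynomial ι k) := fun T =>
    { carrier := {p | ∀ n ∈ T, eval (S.y n) p = 0}
      add_mem' := by
        intro p q hp hq n hn
        simp [hp n hn, hq n hn]
      zero_mem' := by intro n _; simp
      smul_mem' := by
        intro c p hp n hn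
        simp [hp n hn] }
  have hiter : ∀ (r : ℕ) (J : Set (MvPolynomial ι k)), ∃ J', Nn J' = {n | n + r ∈ Nn J} := by
    intro r
    induction r with
    | zero => exact fun J => ⟨J, rfl⟩
    | succ r ih =>
      intro J
      obtain ⟨J₁, h₁⟩ := S.DynA_shift J
      obtain ⟨J₂, h₂⟩ := ih J₁
      exact ⟨J₂, h₂.trans (Set.ext fun n => h₁ (n + r))⟩
  obtain ⟨a, r, hr, h⟩ := weak_dml_abstract (Set.range Nn) ⟨∅, by ext n; simp [Nn]⟩
    (by
      rintro _ ⟨J, rfl⟩ _ ⟨J', rfl⟩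
      refine ⟨J ∪ J', ?_⟩
      ext n
      simp only [Nn, Set.mem_union, Set.mem_ofPred_eq, Set.mem_inter_iff]
      constructor
      · intro h
        exact ⟨fun p hp => h p (Or.inl hp), fun p hp => h p (Or.inr hp)⟩
      · rintro ⟨h1, h2⟩ p (hp | hp)
        exacts [h1 p hp, h2 p hp])
    (by
      rintro _ ⟨J, rfl⟩ r
      exact hiter r J)
    (by
      intro P hP hne
      obtain ⟨_, ⟨T₀, hS, rfl⟩, hmax⟩ :=
        set_has_maximal_iff_noetherian.2 (inferInstance : IsNoetherian (MvPolynomial ι k) _)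
          (I '' P) (hne.image I)
      refine ⟨T₀, hS, fun T hT hTS => ?_⟩
      have hle : I T₀ ≤ I T := fun p hp n hn => hp n (hTS hn)
      have hIe : I T₀ = I T := by
        by_contra hne'
        exact hmax (I T) ⟨T, hT, rfl⟩ (lt_of_le_of_ne hle hne')
      apply Set.Subset.antisymm hTS
      obtain ⟨J, rfl⟩ := hP hT
      intro n hn p hp
      have : p ∈ I (Nn J) := fun m hm => hm p hp
      rw [← hIe] at this
      exact this n hn)
  refine ⟨a, r, hr, fun p i => ?_⟩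
  have := h (Nn {p}) ⟨_, rfl⟩ i
  simpa [Nn] using this

/-- Weak dynamical Mordell-Lang. Plan: `weak_dml_abstract` for the sets
`Z G = {n | ∀ g ∈ G, eval (y n) g = 0}` (copy the proof of `weak_dml`); the shift by one of `Z G` is
`Z G'` with `G' = {u | ∃ g ∈ G, ∃ v, φ (g(a)) * v(a) = u(a)}`. If `Z {g}` contained a progression,
`fwd` would give a nonzero product vanishing at all late points, against `tail`. -/
theorem Dyn.bz {g : MvPolynomial ι k} (hg : aeval S.a g ≠ 0) : BZ {n | eval (S.y n) g = 0} := by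
  obtain ⟨a, r, hr, h⟩ := S.DynA_dml
  have h1 : ∀ i, BZ ({n | eval (S.y n) g = 0} ∩ {n | ∃ t, n = a + i + r * t}) := fun i => by
    refine (h g i).resolve_left fun hi => ?_
    choose G hG hG' using S.DynA_iter hg
    obtain ⟨n, hn, hn'⟩ := S.tail (g := ∏ j ∈ Finset.range r, G j)
      (by rw [map_prod, Finset.prod_ne_zero_iff]; exact fun j _ => hG j) (a + i)
    obtain ⟨m, rfl⟩ := Nat.exists_eq_add_of_le hn
    refine hn' ?_
    rw [map_prod]
    refine Finset.prod_eq_zero (Finset.mem_range.2 (Nat.mod_lt m hr)) ?_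
    have := hG' (m % r) _ (hi (m / r))
    rwa [add_assoc, Nat.div_add_mod] at this
  refine ((BZ.of_finite (Set.finite_lt_nat a)).union
    (BZ.biUnion (Finset.range r) _ fun i _ => h1 i)).mono fun n hn => ?_
  rcases lt_or_ge n a with hna | hna
  · exact Or.inl hna
  · obtain ⟨m, rfl⟩ := Nat.exists_eq_add_of_le hna
    refine Or.inr (Set.mem_iUnion₂.2 ⟨m % r, Finset.mem_range.2 (Nat.mod_lt m hr), hn, m / r, ?_⟩)
    rw [add_assoc, Nat.mod_add_div]

/-- `orbit_det`, then a product `∏ (X l - C (q l))` over the finite orbit. -/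
theorem Dyn.inj : Function.Injective S.y := by
  by_contra h
  obtain ⟨l, hl⟩ := S.DynA_prod
  obtain ⟨f, hf, hf'⟩ := hl ((orbit_det S.a S.φ S.y S.hy S.reg h).image fun p => p l).toFinset
  exact hf (S.dense f fun n => hf' _ ((Set.Finite.mem_toFinset _).2 ⟨_, ⟨n, rfl⟩, rfl⟩))

end Pool.Agent.H69K

/-!
Dense orbits in an affine chart.
-/

namespace Pool.Agent.H69K

open IntermediateField MvPolynomial Height Filter Topology Pool.Agent.H35S Pool.Agent.MP_195eb9_ag

universe u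

variable {k K : Type u} [Field k] [Field K] [Algebra k K] {ι : Type} [Fintype ι] {d : ℕ}
  (S : Dyn k K ι d)

theorem Dyn.one_le (j : ℕ) (hj : j ≤ d) (n : ℕ) : 1 ≤ S.δ j n := by
  exact Nat.one_le_iff_ne_zero.2
    (S.ff.md_ne_zero hj (S.ff.alg_map S.a S.gen (S.φ ^ n)) S.gen)

theorem pd_gen {τ : Type} [Fintype τ] {a : ι → K} (hgen : adjoin k (Set.range a) = ⊤) (z : τ → K) :
    ∃ D, ∀ j, PD k a (z j) D :=
  PD.of_alg_all fun j =>
    isAlgebraic_algebraMap (⟨z j, hgen ▸ mem_top⟩ : adjoin k (Set.range a))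

theorem Dyn.step (j : ℕ) (hj : j ≤ d) : ∃ c : ℕ, ∀ n, S.δ j (n + 1) ≤ c * S.δ j n := by
  obtain ⟨D, hD⟩ := pd_gen S.gen (Sum.elim (fun l => S.φ (S.a l)) S.a)
  refine ⟨Fintype.card ι ^ d * (D * Fintype.card ι) ^ d, fun n => ?_⟩
  refine S.ff.md_le hj (fun l => ?_) fun l => hD (Sum.inr l)
  rw [pow_succ]
  exact (hD (Sum.inl l)).map (S.φ ^ n)

theorem Dyn.pd (n : ℕ) (l : ι) : PD k S.a ((S.φ ^ n) (S.a l)) (S.δ 1 n) := by
  refine S.ff.dom S.a S.gen _ _ fun C hC => ?_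
  have := S.ff.ix_le_md (j := 1) (by have := S.two; omega) (fun l => (S.φ ^ n) (S.a l)) S.a {l} C
    (by simp) hC
  rwa [Finset.coe_singleton, Set.image_singleton, Set.singleton_union] at this

theorem Dyn.two_le (n : ℕ) (l l' : ι) (C : Finset ι) (hC : C.card ≤ d - 2) :
    ix k (insert ((S.φ ^ n) (S.a l)) (insert ((S.φ ^ n) (S.a l')) (S.a '' C))) ≤ S.δ 2 n := by
  classical
  have := S.ff.ix_le_md (j := 2) S.two (fun l => (S.φ ^ n) (S.a l)) S.a {l, l'} C
    Finset.card_le_two hC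
  rwa [Finset.coe_pair, Set.image_pair, Set.insert_union, Set.singleton_union] at this

/-- Two slots, one of them dominated by the `n`-th iterates. -/
theorem Dyn.two_pd (n : ℕ) {w : K} {D : ℕ} (hw : PD k (fun l => (S.φ ^ n) (S.a l)) w D) (l : ι)
    (C : Finset ι) (hC : C.card ≤ d - 2) :
    ix k (insert w (insert ((S.φ ^ n) (S.a l)) (S.a '' C))) ≤
      D * (Fintype.card ι * S.δ 2 n) := by
  have h2 := S.two
  refine (S.ff.slot ((Sm.image S.a C).insert _) (by omega) hw).trans (Nat.mul_le_mul_left _ ?_)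
  have := Finset.sum_le_card_nsmul Finset.univ _ _ fun l' _ => S.two_le n l' l C hC
  rwa [Finset.card_univ, smul_eq_mul] at this

theorem cons_zero' {α : Type*} {n : ℕ} (x : α) (f : Fin n → α) :
    (Fin.cons x f : Fin (n + 1) → α) '' {0}ᶜ = Set.range f := by
  rw [← Fin.range_succ, ← Set.range_comp]
  rfl

theorem cons_succ' {α : Type*} {n : ℕ} (x : α) (f : Fin n → α) (i : Fin n) :
    (Fin.cons x f : Fin (n + 1) → α) '' {i.succ}ᶜ = insert x (f '' {i}ᶜ) := by
  ext y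
  constructor
  · rintro ⟨j, hj, rfl⟩
    revert hj
    exact Fin.cases (fun _ => Or.inl rfl)
      (fun j hj => Or.inr ⟨j, fun e => hj (congrArg Fin.succ e), rfl⟩) j
  · rintro (rfl | ⟨j, hj, rfl⟩)
    · exact ⟨0, (Fin.succ_ne_zero i).symm, rfl⟩
    · exact ⟨j.succ, fun e => hj (Fin.succ_injective _ e), rfl⟩

/-- A nonzero function has nonzero values outside a hypersurface. -/
theorem Dyn.num {x : K} (hx : x ≠ 0) : ∃ u : MvPolynomial ι k, aeval S.a u ≠ 0 ∧
    ∀ n c, Loc_R S.a (S.y n) x c → eval (S.y n) u ≠ 0 → c ≠ 0 := by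
  obtain ⟨u, v, huv⟩ := (mem_adjoin_range_iff k S.a x).1 (S.gen ▸ mem_top)
  have hv : aeval S.a v ≠ 0 := fun h => hx (by rw [huv, h, div_zero])
  refine ⟨u, fun h => hx (by rw [huv, h, zero_div]), fun n c hc hu h0 => hu ?_⟩
  have h1 := Loc_mul hc (Loc_poly (Loc_self S.a (S.y n)) v)
  rw [huv, div_mul_cancel₀ _ hv, h0, zero_mul] at h1
  exact Loc_uniq (S.hy n) (Loc_poly (Loc_self _ _) u) h1

theorem Dyn.loc_a (n i : ℕ) (l : ι) :
    Loc_R S.a (S.y n) ((S.φ ^ i) (S.a l)) (S.y (n + i) l) :=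
  S.loc n i (Loc_self _ _ l)

variable [NumberField k]

theorem Dyn.H_nonneg (n : ℕ) : 0 ≤ S.H n := Finset.sum_nonneg fun _ _ => zero_le_logHeight₁ _

theorem Dyn.le_H (n : ℕ) (l : ι) : logHeight₁ (S.y n l) ≤ S.H n :=
  Finset.single_le_sum (f := fun l => logHeight₁ (S.y n l)) (fun _ _ => zero_le_logHeight₁ _)
    (Finset.mem_univ l)

theorem Dyn.gen_bound (i : ℕ) : ∃ (g : MvPolynomial ι k) (C : ℝ), aeval S.a g ≠ 0 ∧
    ∀ n, eval (S.y n) g ≠ 0 → S.H (n + i) ≤ Fintype.card ι * S.δ 1 i * S.H n + C := by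
  choose g C h1 h2 using fun l => (S.pd i l).ht
  refine ⟨∏ l, g l, ∑ l, C l, ?_, fun n hn => ?_⟩
  · rw [map_prod]
    exact Finset.prod_ne_zero_iff.2 fun l _ => h1 l
  · rw [map_prod, Finset.prod_ne_zero_iff] at hn
    have := Finset.sum_le_sum fun l (hl : l ∈ Finset.univ) =>
      h2 l (S.y n) _ (S.hy n) (S.loc_a n i l) (hn l hl)
    rw [Finset.sum_add_distrib, Finset.sum_const, Finset.card_univ, nsmul_eq_mul] at this
    rw [mul_assoc]
    exact this

theorem Dyn.ret_gen : ∃ c : ℕ, ∀ (w : K) (i M : ℕ), w ≠ 0 →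
    (∀ l (C : Finset ι), C.card ≤ d - 2 →
      ix k (insert w (insert ((S.φ ^ i) (S.a l)) (S.a '' C))) ≤ M) →
    ∃ C : ℝ, ∀ n, Loc_R S.a (S.y n) w 0 → S.H (n + i) ≤ c * M * S.H n + C := by
  obtain ⟨c, hc⟩ := S.ff.ret S.two S.a S.gen
  refine ⟨Fintype.card ι * c, fun w i M hw hM => ?_⟩
  choose C hC using fun l => hc w _ M hw (hM l)
  refine ⟨∑ l, C l, fun n hn => ?_⟩
  have := Finset.sum_le_sum fun l (_ : l ∈ Finset.univ) =>
    hC l (S.y n) _ (S.hy n) hn (S.loc_a n i l)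
  rw [Finset.sum_add_distrib, Finset.sum_const, Finset.card_univ, nsmul_eq_mul] at this
  rw [Nat.cast_mul, mul_assoc, mul_assoc, ← mul_assoc (c : ℝ)]
  exact this

theorem Dyn.ret {g : MvPolynomial ι k} (hg : aeval S.a g ≠ 0) :
    ∃ c : ℝ, ∀ i, ∃ C : ℝ, ∀ n, eval (S.y (n + i)) g = 0 →
      S.H (n + i) ≤ c * S.δ 2 i * S.H n + C := by
  obtain ⟨c, hc⟩ := S.ret_gen
  obtain ⟨D, hD⟩ := pd_gen S.gen fun _ : Unit => aeval S.a g
  refine ⟨c * D * Fintype.card ι, fun i => ?_⟩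
  obtain ⟨C, hC⟩ := hc ((S.φ ^ i) (aeval S.a g)) i _ ((map_ne_zero _).2 hg)
    (S.two_pd i ((hD ()).map (S.φ ^ i)))
  refine ⟨C, fun n hn => ?_⟩
  have h1 := hC n (S.loc n i (hn ▸ Loc_poly (Loc_self _ _) g))
  push_cast at h1
  linarith

theorem Dyn.ratio : ∃ c : ℝ, ∀ n, S.H (n + 1) ≤ c * (S.H n + 1) := by
  classical
  obtain ⟨g, C, hg, h1⟩ := S.gen_bound 1
  obtain ⟨c, hc⟩ := S.ret_gen
  obtain ⟨M, hM⟩ : ∃ M, ∀ p : ι × Finset ι,
      ix k (insert (aeval S.a g) (insert ((S.φ ^ 1) (S.a p.1)) (S.a '' p.2))) ≤ M :=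
    ⟨_, fun p => Finset.le_sup (f := fun p : ι × Finset ι =>
      ix k (insert (aeval S.a g) (insert ((S.φ ^ 1) (S.a p.1)) (S.a '' p.2)))) (Finset.mem_univ p)⟩
  obtain ⟨C', h2⟩ := hc _ 1 M hg fun l C _ => hM (l, C)
  refine ⟨Fintype.card ι * S.δ 1 1 + c * M + |C| + |C'|, fun n => ?_⟩
  have h0 := S.H_nonneg n
  have h3 : (0 : ℝ) ≤ Fintype.card ι * S.δ 1 1 := by positivity
  have h4 : (0 : ℝ) ≤ c * M := by positivity
  have h5 := le_abs_self C
  have h6 := le_abs_self C'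
  have h7 := abs_nonneg C
  have h8 := abs_nonneg C'
  by_cases hn : eval (S.y n) g = 0
  · have := h2 n (hn ▸ Loc_poly (Loc_self _ _) g)
    nlinarith [mul_nonneg h3 h0, mul_nonneg h7 h0, mul_nonneg h8 h0]
  · have := h1 n hn
    nlinarith [mul_nonneg h4 h0, mul_nonneg h7 h0, mul_nonneg h8 h0]

theorem Dyn.three_one {e : ℕ} (S : Dyn k K ι (e + 2)) (m : ℕ) (l l' : ι) (c' : Fin (e + 1) → ι)
    (h0 : ix k (insert ((S.φ ^ (2 * m)) (S.a l)) (Set.range (S.a ∘ c'))) ≠ 0) :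
    ∃ (g : MvPolynomial ι k) (C : ℝ), aeval S.a g ≠ 0 ∧ ∀ n, eval (S.y n) g ≠ 0 →
      (ix k (insert ((S.φ ^ (2 * m)) (S.a l)) (Set.range (S.a ∘ c'))) : ℝ) *
        logHeight₁ (S.y (n + m) l') ≤ 2 * (e + 2) * (S.δ 1 m * S.H (n + 2 * m) +
          (e + 1) * (S.δ 1 m * (Fintype.card ι * S.δ 2 m) * S.H n)) + C := by
  classical
  obtain ⟨t, ht⟩ : ∃ t : Fin (e + 2 + 1) → K, t = Fin.cons ((S.φ ^ m) (S.a l'))
    (Fin.cons ((S.φ ^ (2 * m)) (S.a l)) (S.a ∘ c')) := ⟨_, rfl⟩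
  have e0 : t '' {0}ᶜ = insert ((S.φ ^ (2 * m)) (S.a l)) (Set.range (S.a ∘ c')) := by
    rw [ht, cons_zero', Fin.range_cons]
  have b1 : ix k (t '' {Fin.succ 0}ᶜ) ≤ S.δ 1 m := by
    rw [ht, cons_succ', cons_zero']
    have := S.ff.ix_le_md (j := 1) (by omega) (fun l => (S.φ ^ m) (S.a l)) S.a {l'}
      (Finset.univ.image c') (by simp) (Finset.card_image_le.trans (by simp))
    rwa [Finset.coe_singleton, Set.image_singleton, Set.singleton_union, Finset.coe_image,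
      Finset.coe_univ, Set.image_univ, ← Set.range_comp] at this
  have b2 : ∀ i : Fin (e + 1), ix k (t '' {i.succ.succ}ᶜ) ≤
      S.δ 1 m * (Fintype.card ι * S.δ 2 m) := fun i => by
    rw [ht, cons_succ', cons_succ', Set.insert_comm]
    have h1 := (S.pd m l).map (S.φ ^ m)
    rw [← AlgHom.mul_apply, ← pow_add, ← two_mul] at h1
    have := S.two_pd m h1 l' ((Finset.univ.erase i).image c')
      (Finset.card_image_le.trans (by simp))
    rwa [Finset.coe_image, ← Set.image_comp, Finset.coe_erase, Finset.coe_univ,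
      ← Set.compl_eq_univ_sdiff] at this
  obtain ⟨T, C, hT, hC⟩ := S.ff.three t (by rwa [e0])
  obtain ⟨u, hu, hu'⟩ := S.num hT
  refine ⟨u, C, hu, fun n hn => ?_⟩
  obtain ⟨s, hs⟩ : ∃ s : Fin (e + 2 + 1) → k, s = Fin.cons (S.y (n + m) l')
    (Fin.cons (S.y (n + 2 * m) l) (S.y n ∘ c')) := ⟨_, rfl⟩
  have hloc : ∀ i, Loc_R S.a (S.y n) (t i) (s i) := fun i => by
    rw [ht, hs]
    refine Fin.cases (S.loc_a n m l') (fun i => ?_) i
    exact Fin.cases (S.loc_a n (2 * m) l) (fun i => Loc_self _ _ (c' i)) i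
  have h1 := hC s (fun f hf => Loc_uniq (S.hy n) (Loc_aeval hloc f)
    (by simpa [hf] using Loc_alg (a := S.a) (p := S.y n) 0)) (hu' n _ (Loc_aeval hloc T) hn)
  rw [e0, Fin.sum_univ_succ] at h1
  have s0 : s 0 = S.y (n + m) l' := by rw [hs]; rfl
  have s1 : s (Fin.succ 0) = S.y (n + 2 * m) l := by rw [hs]; rfl
  have s2 : ∀ i : Fin (e + 1), s i.succ.succ = S.y n (c' i) := fun i => by rw [hs]; rfl
  rw [s0, s1] at h1
  refine h1.trans (add_le_add_left ?_ C)
  push_cast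
  refine mul_le_mul_of_nonneg_left (add_le_add ?_ ?_) (by positivity)
  · exact mul_le_mul (by exact_mod_cast b1) (S.le_H _ _) (zero_le_logHeight₁ _) (by positivity)
  · have := Finset.sum_le_card_nsmul Finset.univ
      (fun i : Fin (e + 1) => (ix k (t '' {i.succ.succ}ᶜ) : ℝ) * logHeight₁ (s i.succ.succ))
      (S.δ 1 m * (Fintype.card ι * S.δ 2 m) * S.H n) fun i _ => by
        rw [s2]
        exact mul_le_mul (by exact_mod_cast b2 i) (S.le_H _ _) (zero_le_logHeight₁ _)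
          (by positivity)
    simpa using this

theorem Dyn.three : ∃ c : ℝ, ∀ m, ∃ (g : MvPolynomial ι k) (C : ℝ), aeval S.a g ≠ 0 ∧
    ∀ n, eval (S.y n) g ≠ 0 → S.δ 1 (2 * m) * S.H (n + m) ≤
      c * S.δ 1 m * (S.H (n + 2 * m) + S.δ 2 m * S.H n) + C := by
  obtain ⟨e, rfl⟩ : ∃ e, d = e + 2 := ⟨d - 2, by have := S.two; omega⟩
  obtain ⟨N, hN⟩ : ∃ N : ℝ, N = Fintype.card ι := ⟨_, rfl⟩
  have hN0 : 0 ≤ N := by rw [hN]; positivity
  refine ⟨N ^ (e + 2) * N * (2 * (e + 2)) * (1 + (e + 1) * N), fun m => ?_⟩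
  have h1 := S.one_le 1 (by omega) (2 * m)
  obtain ⟨c, c', hc⟩ := md_le_max (k := k) (d := e + 2) (j := 1) (by omega)
    (fun l => (S.φ ^ (2 * m)) (S.a l)) S.a (Nat.one_le_iff_ne_zero.1 h1)
  rw [Set.range_unique, Set.singleton_union] at hc
  have h0 : ix k (insert ((S.φ ^ (2 * m)) (S.a (c default))) (Set.range (S.a ∘ c'))) ≠ 0 := by
    intro h
    have : md k (e + 2) 1 (fun l => (S.φ ^ (2 * m)) (S.a l)) S.a ≤ 0 := by
      refine hc.trans (le_of_eq ?_)
      rw [mul_eq_zero]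
      exact Or.inr h
    exact absurd (h1.trans this) (by omega)
  choose g C h2 h3 using fun l' => S.three_one m (c default) l' c' h0
  refine ⟨∏ l, g l, N ^ (e + 2) * ∑ l, C l, ?_, fun n hn => ?_⟩
  · rw [map_prod]
    exact Finset.prod_ne_zero_iff.2 fun l _ => h2 l
  rw [map_prod, Finset.prod_ne_zero_iff] at hn
  have h4 := Finset.sum_le_sum fun l (hl : l ∈ Finset.univ) => h3 l n (hn l hl)
  rw [Finset.sum_add_distrib, Finset.sum_const, Finset.card_univ, nsmul_eq_mul, ← Finset.mul_sum,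
    ← hN] at h4
  have h5 : (S.δ 1 (2 * m) : ℝ) ≤ N ^ (e + 2) *
      ix k (insert ((S.φ ^ (2 * m)) (S.a (c default))) (Set.range (S.a ∘ c'))) := by
    rw [hN]
    exact_mod_cast hc
  have h6 := mul_le_mul_of_nonneg_right h5 (S.H_nonneg (n + m))
  have h7 := mul_le_mul_of_nonneg_left h4 (pow_nonneg hN0 (e + 2))
  have a0 := S.H_nonneg n
  have a2 := S.H_nonneg (n + 2 * m)
  have h8 : (0 : ℝ) ≤ N ^ (e + 2) * N * (2 * (e + 2)) * S.δ 1 m *
      ((e + 1) * N * S.H (n + 2 * m) + S.δ 2 m * S.H n) := by positivity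
  rw [mul_assoc] at h6
  refine h6.trans (h7.trans ?_)
  linarith

/-- The affine form of the theorem; the degrees are computed with any generators `r`. -/
theorem Dyn.main {ι' : Type} [Fintype ι'] (r : ι' → K) (hr : adjoin k (Set.range r) = ⊤)
    (hlt : rate (fun n => (md k d 2 (fun l => (S.φ ^ n) (r l)) r : ℝ)) <
      rate (fun n => (md k d 1 (fun l => (S.φ ^ n) (r l)) r : ℝ))) :
    Tendsto (fun n : ℕ => (max 1 (S.H n)) ^ (1 / (n : ℝ))) atTop
      (𝓝 (rate fun n => (md k d 1 (fun l => (S.φ ^ n) (r l)) r : ℝ))) := by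
  have h2 := S.two
  obtain ⟨D, hD⟩ := pd_gen S.gen r
  obtain ⟨D', hD'⟩ := pd_gen hr S.a
  let S' : ℕ → ℕ → ℝ := fun j n => (md k d j (fun l => (S.φ ^ n) (r l)) r : ℝ)
  have hone : ∀ j ≤ d, ∀ n, (1 : ℝ) ≤ S.δ j n := fun j hj n => by exact_mod_cast S.one_le j hj n
  have hstep : ∀ j ≤ d, ∃ c : ℝ, 0 ≤ c ∧ ∀ n, (S.δ j (n + 1) : ℝ) ≤ c * S.δ j n := fun j hj => by
    obtain ⟨c, hc⟩ := S.step j hj
    exact ⟨c, by positivity, fun n => by exact_mod_cast hc n⟩
  have hrate : ∀ j ≤ d, rate (S' j) = rate fun n => (S.δ j n : ℝ) := fun j hj => by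
    have h1 : ∀ n, 1 ≤ S' j n := fun n => by
      have := Nat.one_le_iff_ne_zero.2 (S.ff.md_ne_zero hj (S.ff.alg_map r hr (S.φ ^ n)) hr)
      simp only [S']
      exact_mod_cast this
    obtain ⟨c, -, hc⟩ := hstep j hj
    have h3 : ∀ n, S' j n ≤ (Fintype.card ι' ^ d * (D * Fintype.card ι) ^ d : ℕ) * S.δ j n :=
      fun n => by
        simp only [S']
        exact_mod_cast S.ff.md_le hj (fun l => (hD l).map (S.φ ^ n)) hD
    have h4 : ∀ n, (S.δ j n : ℝ) ≤ (Fintype.card ι ^ d * (D' * Fintype.card ι') ^ d : ℕ) * S' j n :=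
      fun n => by
        simp only [S']
        exact_mod_cast S.ff.md_le hj (fun l => (hD' l).map (S.φ ^ n)) hD'
    obtain ⟨D₁, hD₁⟩ := pd_gen hr (Sum.elim (fun l => S.φ (r l)) r)
    have h5 : ∀ n, S' j (n + 1) ≤
        (Fintype.card ι' ^ d * (D₁ * Fintype.card ι') ^ d : ℕ) * S' j n := fun n => by
      simp only [S']
      have := S.ff.md_le hj (b := fun l => (S.φ ^ (n + 1)) (r l)) (b' := fun l => (S.φ ^ n) (r l))
        (fun l => by
          rw [pow_succ]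
          exact (hD₁ (Sum.inl l)).map (S.φ ^ n)) fun l => hD₁ (Sum.inr l)
      exact_mod_cast this
    exact le_antisymm (rate_le h1 (hone j hj) hc h3) (rate_le (hone j hj) h1 h5 h4)
  change rate (S' 2) < rate (S' 1) at hlt
  change Tendsto _ _ (𝓝 (rate (S' 1)))
  rw [hrate 1 (by omega)] at hlt ⊢
  rw [hrate 2 h2] at hlt
  obtain ⟨c₁, p₁, hc₁⟩ := hstep 1 (by omega)
  obtain ⟨c₂, p₂, hc₂⟩ := hstep 2 h2
  obtain ⟨c₃, hc₃⟩ := S.ratio
  obtain ⟨c₄, hc₄⟩ := S.three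
  obtain ⟨c, hc, q₁, q₂, q₃, q₄, q₅⟩ : ∃ c : ℝ, 1 ≤ c ∧ c₁ ≤ c ∧ c₂ ≤ c ∧ c₃ ≤ c ∧ c₄ ≤ c ∧
      (Fintype.card ι : ℝ) ≤ c := by
    refine ⟨max 1 (max c₁ (max c₂ (max c₃ (max c₄ (Fintype.card ι))))), ?_⟩
    simp
  refine numer S.H (fun n => S.δ 1 n) (fun n => S.δ 2 n) c hc (hone 1 (by omega)) (hone 2 h2)
    (fun n => (hc₁ n).trans (by gcongr)) (fun n => (hc₂ n).trans (by gcongr)) hlt S.H_nonneg
    (tendsto_sum_logHeight₁ S.y S.inj)
    (fun n => (hc₃ n).trans (by have := S.H_nonneg n; gcongr)) (fun i => ?_) fun m => ?_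
  · obtain ⟨g, C, hg, h⟩ := S.gen_bound i
    refine ⟨_, C, S.bz hg, fun n hn => (h n hn).trans ?_⟩
    have := S.H_nonneg n
    gcongr
  · obtain ⟨g, C, hg, h⟩ := hc₄ m
    refine ⟨_, C, S.bz hg, S.ret hg, fun n hn => (h n hn).trans ?_⟩
    have := S.H_nonneg n
    have := S.H_nonneg (n + 2 * m)
    gcongr

end Pool.Agent.H69K

/-!
The projective form.
-/

namespace Pool.Agent.H69K

open IntermediateField MvPolynomial Height Filter Topology Pool.Agent.H35S

universe u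

section aux

variable {k L : Type u} [Field k] [Field L] [Algebra k L] {σ : Type}

theorem Proj_aeval (I : Ideal (MvPolynomial σ k)) (p : MvPolynomial σ k) :
    aeval (fun i => gen I (X i)) p = gen I p := by
  have : aeval (fun i => gen I (X i)) = (IsScalarTower.toAlgHom k (MvPolynomial σ k ⧸ I)
      (FractionRing (MvPolynomial σ k ⧸ I))).comp (Ideal.Quotient.mkₐ k I) :=
    MvPolynomial.algHom_ext fun i => by rw [aeval_X]; rfl
  rw [this]
  rfl

theorem Proj_ker (I : Ideal (MvPolynomial σ k)) [I.IsPrime] (p : MvPolynomial σ k) :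
    gen I p = 0 ↔ p ∈ I := by
  rw [gen, map_eq_zero_iff _ (IsFractionRing.injective (MvPolynomial σ k ⧸ I) _),
    Ideal.Quotient.eq_zero_iff_mem]

theorem Proj_gen (I : Ideal (MvPolynomial σ k)) [I.IsPrime] :
    adjoin k (Set.range fun i => gen I (X i)) = ⊤ := by
  rw [eq_top_iff]
  intro x _
  obtain ⟨a, b, -, rfl⟩ := IsFractionRing.div_surjective (A := MvPolynomial σ k ⧸ I) x
  obtain ⟨p, rfl⟩ := Ideal.Quotient.mk_surjective a
  obtain ⟨r, rfl⟩ := Ideal.Quotient.mk_surjective b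
  exact (mem_adjoin_range_iff _ _ _).2 ⟨p, r, by rw [Proj_aeval, Proj_aeval]; rfl⟩

theorem Proj_trdeg (I : Ideal (MvPolynomial σ k)) [I.IsPrime] :
    Algebra.trdeg k (FractionRing (MvPolynomial σ k ⧸ I)) =
      Algebra.trdeg k (MvPolynomial σ k ⧸ I) := by
  have : Algebra.IsAlgebraic (MvPolynomial σ k ⧸ I) (FractionRing (MvPolynomial σ k ⧸ I)) :=
    IsLocalization.isAlgebraic _ (nonZeroDivisors (MvPolynomial σ k ⧸ I))
  rw [← trdeg_add_eq k (MvPolynomial σ k ⧸ I) (A := FractionRing (MvPolynomial σ k ⧸ I)),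
    trdeg_eq_zero (R := MvPolynomial σ k ⧸ I) (A := FractionRing (MvPolynomial σ k ⧸ I)), add_zero]

theorem Proj_map (I : Ideal (MvPolynomial σ k)) [I.IsPrime] (G : σ → MvPolynomial σ k)
    (hdom : ∀ p, aeval G p ∈ I ↔ p ∈ I) :
    ∃ Φ : FractionRing (MvPolynomial σ k ⧸ I) →ₐ[k] FractionRing (MvPolynomial σ k ⧸ I),
      ∀ p, Φ (gen I p) = gen I (aeval G p) := by
  let g : (MvPolynomial σ k ⧸ I) →ₐ[k] FractionRing (MvPolynomial σ k ⧸ I) :=
    Ideal.Quotient.liftₐ I ((aeval fun i => gen I (X i)).comp (aeval G))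
      fun p hp => (Proj_aeval I _).trans ((Proj_ker I _).2 ((hdom p).2 hp))
  have hg : ∀ p, g (Ideal.Quotient.mk I p) = gen I (aeval G p) := fun p => Proj_aeval I _
  have hinj : Function.Injective g := by
    rw [injective_iff_map_eq_zero]
    intro a ha
    obtain ⟨p, rfl⟩ := Ideal.Quotient.mk_surjective a
    rw [hg, Proj_ker, hdom] at ha
    exact Ideal.Quotient.eq_zero_iff_mem.2 ha
  refine ⟨IsFractionRing.liftAlgHom hinj, fun p => ?_⟩
  rw [IsFractionRing.liftAlgHom_apply]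
  exact (IsFractionRing.lift_algebraMap
    (g := (g : (MvPolynomial σ k ⧸ I) →+* FractionRing (MvPolynomial σ k ⧸ I))) hinj _).trans (hg _)

theorem Proj_ne {e : ℕ} (he : 1 ≤ e) (q : MvPolynomial σ k) (hqe : q.IsHomogeneous e)
    (ξ : σ → L) (hq : aeval ξ q ≠ 0) : ∃ i, ξ i ≠ 0 := by
  by_contra hc
  have h0 : ξ = 0 := funext fun i => not_not.1 fun h => hc ⟨i, h⟩
  apply hq
  rw [h0, aeval_zero, constantCoeff_eq, hqe.coeff_eq_zero (by simp; omega), map_zero]

theorem Proj_chart [Fintype σ] {e d : ℕ} (he : 1 ≤ e) (q : MvPolynomial σ k)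
    (hqe : q.IsHomogeneous e) (ξ : σ → L) (hq : aeval ξ q ≠ 0)
    (hI : ∀ p : MvPolynomial σ k, aeval ξ p = 0 → ∀ n, aeval ξ (homogeneousComponent n p) = 0)
    (hgen : adjoin k (Set.range ξ) = ⊤) (htr : Algebra.trdeg k L = d + 1) :
    Algebra.trdeg k (adjoin k (Set.range (wd q e ξ))) = d := by
  obtain ⟨i, hi⟩ := Proj_ne he q hqe ξ hq
  set K := adjoin k (Set.range (wd q e ξ)) with hK
  have htop : adjoin K {ξ i} = ⊤ := by
    rw [← restrictScalars_eq_top_iff (K := k), eq_top_iff, ← hgen, adjoin_le_iff]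
    rintro _ ⟨j, rfl⟩
    have h1 : ξ j / ξ i ∈ K := by
      simpa using ratio_mem he q ξ hq (isHomogeneous_X k j) (isHomogeneous_X k i)
    have h2 : ξ j / ξ i ∈ adjoin K {ξ i} := (adjoin K {ξ i}).algebraMap_mem ⟨_, h1⟩
    have h3 := mul_mem h2 (mem_adjoin_simple_self K (ξ i))
    rwa [div_mul_cancel₀ _ hi] at h3
  have halg : Algebra.IsAlgebraic (Algebra.adjoin K {ξ i}) L := by
    rw [← isAlgebraic_adjoin_iff_top]
    exact ⟨fun x => isAlgebraic_algebraMap (⟨x, htop ▸ mem_top⟩ : adjoin K {ξ i})⟩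
  have hle : Algebra.trdeg K L ≤ 1 := by
    simpa using Algebra.IsAlgebraic.trdeg_le_cardinalMk K ({ξ i} : Set L)
  have : Algebra.Transcendental K L := ⟨ξ i, ChB0_trans q hqe ξ hq hI hi⟩
  have h1 : Algebra.trdeg K L = 1 :=
    le_antisymm hle (Cardinal.one_le_iff_pos.2 (trdeg_pos K L))
  have h2 := trdeg_add_eq k K (A := L)
  rw [h1, htr] at h2
  exact Cardinal.add_one_inj.1 h2

/-- The affine coordinates and the coordinate ratios generate the same field. -/
theorem Proj_field [Fintype σ] {e : ℕ} (he : 1 ≤ e) (q : MvPolynomial σ k)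
    (hqe : q.IsHomogeneous e) (ξ : σ → L) (hq : aeval ξ q ≠ 0) :
    adjoin k (Set.range fun p : σ × σ => ξ p.1 / ξ p.2) = adjoin k (Set.range (wd q e ξ)) := by
  obtain ⟨i, hi⟩ := Proj_ne he q hqe ξ hq
  refine le_antisymm (adjoin_le_iff.2 ?_) (adjoin_le_iff.2 ?_)
  · rintro _ ⟨p, rfl⟩
    simpa using ratio_mem he q ξ hq (isHomogeneous_X k p.1) (isHomogeneous_X k p.2)
  · rintro _ ⟨w, rfl⟩
    have h1 : wd q e ξ w = (∏ j, ξ (w j) / ξ i) / aeval (fun a => ξ a / ξ i) q := by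
      rw [ChA0_div ξ (ξ i) q hqe, Finset.prod_div_distrib, Finset.prod_const, Finset.card_univ,
        Fintype.card_fin, div_div_div_cancel_right₀ (pow_ne_zero _ hi), wd]
    have h2 : ∀ a, ξ a / ξ i ∈ adjoin k (Set.range fun p : σ × σ => ξ p.1 / ξ p.2) :=
      fun a => subset_adjoin k _ ⟨(a, i), rfl⟩
    have h3 : adjoin k (Set.range fun a => ξ a / ξ i) ≤
        adjoin k (Set.range fun p : σ × σ => ξ p.1 / ξ p.2) :=
      adjoin_le_iff.2 (Set.range_subset_iff.2 h2)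
    rw [h1]
    exact div_mem (prod_mem fun j _ => h2 _)
      (h3 ((mem_adjoin_range_iff k (fun a => ξ a / ξ i) _).2 ⟨q, 1, by rw [map_one, div_one]⟩))

/-- Homogenisation with powers of `q`. -/
theorem Proj_hom (e : ℕ) (q : MvPolynomial σ k) (hqe : q.IsHomogeneous e)
    (f : MvPolynomial (Fin e → σ) k) :
    ∃ (N : ℕ) (p : MvPolynomial σ k), p.IsHomogeneous (N * e) ∧
      ∀ (L' : Type u) [Field L'] [Algebra k L'] (ξ : σ → L'),
      aeval ξ q ≠ 0 → aeval ξ p = aeval ξ q ^ N * aeval (wd q e ξ) f := by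
  induction f using MvPolynomial.induction_on with
  | C a => exact ⟨0, C a, by rw [zero_mul]; exact isHomogeneous_C _ _, fun L' _ _ ξ _ => by simp⟩
  | add f g hf hg =>
    obtain ⟨N₁, p₁, g₁, h₁⟩ := hf
    obtain ⟨N₂, p₂, g₂, h₂⟩ := hg
    refine ⟨N₁ + N₂, q ^ N₂ * p₁ + q ^ N₁ * p₂, IsHomogeneous.add ?_ ?_, fun L' _ _ ξ hξ => ?_⟩
    · rw [show (N₁ + N₂) * e = e * N₂ + N₁ * e by ring]
      exact (hqe.pow N₂).mul g₁
    · rw [show (N₁ + N₂) * e = e * N₁ + N₂ * e by ring]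
      exact (hqe.pow N₁).mul g₂
    · simp only [map_add, map_mul, map_pow, h₁ L' ξ hξ, h₂ L' ξ hξ]
      ring
  | mul_X f w hf =>
    obtain ⟨N, p, g, h⟩ := hf
    refine ⟨N + 1, p * ∏ j, X (w j), ?_, fun L' _ _ ξ hξ => ?_⟩
    · rw [add_mul, one_mul]
      refine g.mul ?_
      simpa using IsHomogeneous.prod Finset.univ (fun j => (X (w j) : MvPolynomial σ k))
        (fun _ => 1) fun j _ => isHomogeneous_X k (w j)
    · simp only [map_mul, map_prod, aeval_X, h L' ξ hξ, wd]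
      field_simp
      ring

/-- The index inside a subfield as a relative degree. -/
theorem Proj_ix (K' : IntermediateField k L) (S : Set K') :
    ix k S = relfinrank (adjoin k (Subtype.val '' S)) K' := by
  have h := relfinrank_map_map (adjoin k S) ⊤ K'.val
  rw [relfinrank_top_right, adjoin_map, ← AlgHom.fieldRange_eq_map, fieldRange_val] at h
  exact h.symm

theorem Proj_md [Fintype σ] (d j : ℕ) (ξ ζ : σ → L) (K' : IntermediateField k L)
    (hK : adjoin k (Set.range fun p : σ × σ => ξ p.1 / ξ p.2) = K') (b r : σ × σ → K')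
    (hb : ∀ p, (b p : L) = ζ p.1 / ζ p.2) (hr : ∀ p, (r p : L) = ξ p.1 / ξ p.2) :
    md k d j b r = mixedDeg k d j ξ ζ := by
  rw [md, mixedDeg, hK]
  refine Finset.sum_congr rfl fun c _ => Finset.sum_congr rfl fun c' _ => ?_
  rw [Proj_ix, Set.image_union, ← Set.range_comp, ← Set.range_comp]
  have e1 : Subtype.val ∘ b ∘ c = fun i => ζ (c i).1 / ζ (c i).2 := funext fun i => hb _
  have e2 : Subtype.val ∘ r ∘ c' = fun i => ξ (c' i).1 / ξ (c' i).2 := funext fun i => hr _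
  rw [e1, e2]

end aux

/-- The theorem for a generic point `ξ` of the cone. -/
theorem Proj_core {K L : Type u} [Field K] [NumberField K] [Field L] [Algebra K L] {N d : ℕ}
    (hd : 2 ≤ d) (I : Ideal (MvPolynomial (Fin (N + 1)) K))
    (hI : ∀ p ∈ I, ∀ n, homogeneousComponent n p ∈ I)
    (G : Fin (N + 1) → MvPolynomial (Fin (N + 1)) K) (D : ℕ) (hG : ∀ a, (G a).IsHomogeneous D)
    (ξ : Fin (N + 1) → L) (Φ : L →ₐ[K] L) (hker : ∀ p, aeval ξ p = 0 ↔ p ∈ I)
    (hgen : adjoin K (Set.range ξ) = ⊤) (htr : Algebra.trdeg K L = d + 1)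
    (hΦ : ∀ i, Φ (ξ i) = aeval ξ (G i))
    (hlt : rate (fun n => (mixedDeg K d 2 ξ (fun i => (Φ ^ n) (ξ i)) : ℝ)) <
      rate (fun n => (mixedDeg K d 1 ξ (fun i => (Φ ^ n) (ξ i)) : ℝ)))
    (x : ℕ → Fin (N + 1) → K) (hx0 : ∀ n, x n ≠ 0) (hxI : ∀ n, ∀ p ∈ I, eval (x n) p = 0)
    (hstep : ∀ n, ∃ (e : ℕ) (F : Fin (N + 1) → MvPolynomial (Fin (N + 1)) K),
      (∀ a, (F a).IsHomogeneous e) ∧ (∀ a b, F a * G b - F b * G a ∈ I) ∧
      ∀ a, x (n + 1) a = eval (x n) (F a))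
    (hdense : ∀ (e : ℕ) (p : MvPolynomial (Fin (N + 1)) K), p.IsHomogeneous e →
      (∀ n, eval (x n) p = 0) → p ∈ I) :
    Tendsto (fun n : ℕ => (max 1 (logHeight (x n))) ^ (1 / (n : ℝ))) atTop
      (𝓝 (rate fun n => (mixedDeg K d 1 ξ (fun i => (Φ ^ n) (ξ i)) : ℝ))) := by
  classical
  obtain ⟨q, hq, han⟩ := exists_aniso K N
  have hev : ∀ (z : Fin (N + 1) → K) (p : MvPolynomial (Fin (N + 1)) K), aeval z p = eval z p :=
    fun z p => by rw [MvPolynomial.aeval_eq_eval]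
  have hev' : ∀ (z : (Fin (N + 1) → Fin (N + 1)) → K)
      (p : MvPolynomial (Fin (N + 1) → Fin (N + 1)) K), aeval z p = eval z p :=
    fun z p => by rw [MvPolynomial.aeval_eq_eval]
  have hx : ∀ n (p : MvPolynomial (Fin (N + 1)) K), aeval ξ p = 0 → aeval (x n) p = 0 :=
    fun n p hp => by rw [hev]; exact hxI n p ((hker p).1 hp)
  have hqx : ∀ n, aeval (x n) q ≠ 0 := fun n => han _ (hx0 n)
  have hqξ : aeval ξ q ≠ 0 := fun h => hqx 0 (hx 0 q h)
  have he : 1 ≤ N + 1 := by omega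
  set K' : IntermediateField K L := adjoin K (Set.range (wd q (N + 1) ξ)) with hK'
  have hcomp : ∀ p : MvPolynomial (Fin (N + 1)) K, Φ (aeval ξ p) = aeval ξ (aeval G p) := by
    intro p
    have h1 : Φ.comp (aeval ξ) = (aeval ξ).comp (aeval G) := by
      apply MvPolynomial.algHom_ext
      intro i
      simp [hΦ]
    exact AlgHom.congr_fun h1 p
  have hgenmem : ∀ w, Φ (wd q (N + 1) ξ w) ∈ K' := by
    intro w
    have h1 : Φ (wd q (N + 1) ξ w) =
        aeval ξ (∏ j, G (w j)) / aeval ξ (aeval G q) := by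
      simp only [wd, map_div₀, map_prod, hΦ, hcomp]
    rw [h1]
    refine ratio_mem he q ξ hqξ (n := D * (N + 1)) ?_ (hq.aeval G hG)
    have := MvPolynomial.IsHomogeneous.prod (Finset.univ : Finset (Fin (N + 1)))
      (fun j => G (w j)) (fun _ => D) (fun j _ => hG _)
    simpa [mul_comm] using this
  have hmap : ∀ z ∈ K', Φ z ∈ K' := by
    have h1 : K' ≤ K'.comap Φ := by
      rw [hK', adjoin_le_iff]
      rintro _ ⟨w, rfl⟩
      exact hgenmem w
    intro z hz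
    exact h1 hz
  let φ : K' →ₐ[K] K' :=
    { toFun := fun z => ⟨Φ z, hmap z z.2⟩
      map_one' := Subtype.ext (by simp)
      map_mul' := fun a b => Subtype.ext (by simp)
      map_zero' := Subtype.ext (by simp)
      map_add' := fun a b => Subtype.ext (by simp)
      commutes' := fun c => Subtype.ext (by simp) }
  have hφ : ∀ (n : ℕ) (z : K'), (((φ ^ n) z : K') : L) = (Φ ^ n) z := by
    intro n
    induction n with
    | zero => exact fun _ => rfl
    | succ n ih =>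
      intro z
      rw [pow_succ, pow_succ, AlgHom.mul_apply, AlgHom.mul_apply, ih]
      rfl
  let a : (Fin (N + 1) → Fin (N + 1)) → K' :=
    fun w => ⟨wd q (N + 1) ξ w, subset_adjoin K _ ⟨w, rfl⟩⟩
  have hval : ∀ f : MvPolynomial (Fin (N + 1) → Fin (N + 1)) K,
      ((aeval a f : K') : L) = aeval (wd q (N + 1) ξ) f := by
    intro f
    have h1 : K'.val.comp (aeval a) = aeval (wd q (N + 1) ξ) := by
      apply MvPolynomial.algHom_ext
      intro i
      simp [a]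
    exact AlgHom.congr_fun h1 f
  have hgen' : adjoin K (Set.range a) = ⊤ := by
    apply IntermediateField.lift_injective K'
    rw [IntermediateField.lift_adjoin, IntermediateField.lift_top, ← Set.range_comp]
    rfl
  have htr' : Algebra.trdeg K K' = d :=
    Proj_chart he q hq ξ hqξ
      (fun p hp n => (hker _).2 (hI p ((hker p).1 hp) n)) hgen htr
  let S : Dyn K K' (Fin (N + 1) → Fin (N + 1)) d :=
    { a := a
      φ := φ
      y := fun n => wd q (N + 1) (x n)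
      gen := hgen'
      tr := htr'
      two := hd
      hy := fun n f hf => by
        rw [← hev']
        refine wd_ker (N + 1) q ξ hqξ (x n) (hqx n) (hx n) f ?_
        rw [← hval, hf]; rfl
      reg := fun n w => by
        obtain ⟨e', F, hF, hFG, hx'⟩ := hstep n
        obtain ⟨u, v, h1, h2, h3⟩ := wd_reg he q hq ξ hqξ Φ G hΦ (x n) (x (n + 1)) (hqx n)
          (hqx (n + 1)) (hx n) F hF (fun a b => (hker _).2 (hFG a b))
          (fun a => by rw [hev]; exact hx' a) w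
        refine ⟨u, v, by rwa [← hev'], ?_, by rw [← hev', ← hev']; exact h3⟩
        apply Subtype.ext
        rw [MulMemClass.coe_mul, hval, hval]
        exact h2
      dense := fun f hf => by
        obtain ⟨M, p, hp, h⟩ := Proj_hom (N + 1) q hq f
        have h1 : p ∈ I := hdense _ p hp fun n => by
          rw [← hev, h K (x n) (hqx n), hev', hf n, mul_zero]
        have h2 := (hker p).2 h1
        rw [h L ξ hqξ] at h2
        apply Subtype.ext
        rw [hval]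
        exact (mul_eq_zero.1 h2).resolve_left (pow_ne_zero _ hqξ) }
  have hF : adjoin K (Set.range fun p : Fin (N + 1) × Fin (N + 1) => ξ p.1 / ξ p.2) = K' :=
    Proj_field he q hq ξ hqξ
  let r : Fin (N + 1) × Fin (N + 1) → K' :=
    fun p => ⟨ξ p.1 / ξ p.2, hF.le (subset_adjoin K _ ⟨p, rfl⟩)⟩
  have hr : adjoin K (Set.range r) = ⊤ := by
    apply IntermediateField.lift_injective K'
    rw [IntermediateField.lift_adjoin, IntermediateField.lift_top, ← Set.range_comp]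
    exact hF
  have hmd : ∀ j n : ℕ, md K d j (fun l => (S.φ ^ n) (r l)) r =
      mixedDeg K d j ξ (fun i => (Φ ^ n) (ξ i)) := fun j n =>
    Proj_md d j ξ _ K' hF _ r (fun p => (hφ n (r p)).trans (map_div₀ _ _ _)) fun _ => rfl
  have hα := S.main r hr (by simpa only [hmd] using hlt)
  simp only [hmd] at hα
  obtain ⟨c, hc⟩ := wd_height he q hq
  exact tendsto_of_comparable (c := c) (fun n => hc (x n) (hqx n)) hα

/-- The projective form of the theorem. -/
theorem proj_main {K : Type u} [Field K] [NumberField K] {N d : ℕ} (hd : 2 ≤ d)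
    (I : Ideal (MvPolynomial (Fin (N + 1)) K)) [I.IsPrime]
    (hI : ∀ p ∈ I, ∀ n, homogeneousComponent n p ∈ I)
    (hdim : Algebra.trdeg K (MvPolynomial (Fin (N + 1)) K ⧸ I) = d + 1)
    (G : Fin (N + 1) → MvPolynomial (Fin (N + 1)) K) (D : ℕ) (hG : ∀ a, (G a).IsHomogeneous D)
    (hdom : ∀ p, aeval G p ∈ I ↔ p ∈ I)
    (hlt : dynDeg I G d 2 < dynDeg I G d 1)
    (x : ℕ → Fin (N + 1) → K) (hx0 : ∀ n, x n ≠ 0) (hxI : ∀ n, ∀ p ∈ I, eval (x n) p = 0)
    (hstep : ∀ n, ∃ (e : ℕ) (F : Fin (N + 1) → MvPolynomial (Fin (N + 1)) K),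
      (∀ a, (F a).IsHomogeneous e) ∧ (∀ a b, F a * G b - F b * G a ∈ I) ∧
      ∀ a, x (n + 1) a = eval (x n) (F a))
    (hdense : ∀ (e : ℕ) (p : MvPolynomial (Fin (N + 1)) K), p.IsHomogeneous e →
      (∀ n, eval (x n) p = 0) → p ∈ I) :
    Tendsto (fun n : ℕ => (max 1 (logHeight (x n))) ^ (1 / (n : ℝ))) atTop
      (𝓝 (dynDeg I G d 1)) := by
  obtain ⟨Φ, hΦ⟩ := Proj_map I G hdom
  have h1 : ∀ (n : ℕ) p, (Φ ^ n) (gen I p) = gen I ((aeval G)^[n] p) := by
    intro n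
    induction n with
    | zero => exact fun _ => rfl
    | succ n ih =>
      intro p
      rw [pow_succ, AlgHom.mul_apply, hΦ, ih, Function.iterate_succ_apply]
  have h2 : ∀ j, dynDeg I G d j = rate fun n =>
      (mixedDeg K d j (fun i => gen I (X i)) (fun i => (Φ ^ n) (gen I (X i))) : ℝ) := fun j => by
    simp only [h1]
    rfl
  rw [h2, h2] at hlt
  rw [h2]
  exact Proj_core hd I hI G D hG _ Φ (fun p => by rw [Proj_aeval, Proj_ker]) (Proj_gen I)
    ((Proj_trdeg I).trans hdim) (fun i => by rw [hΦ, aeval_X, Proj_aeval]) hlt x hx0 hxI hstep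
    hdense

end Pool.Agent.H69K
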