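import Mathlib

/-!
Dynamical degrees of a rational self-map of a projective variety, through intersection numbers
written as degrees of field extensions.
-/

namespace Pool.Agent.H69K

open IntermediateField Filter MvPolynomial

/-- For two points `ξ, ζ` of `L ^ σ`: the sum, over all choices of `j` coordinate ratios of `ζ` and
`d - j` coordinate ratios of `ξ`, of the degree of the field generated by all the ratios of `ξ`
over the field generated by the chosen ratios (`0` if the degree is infinite). -/
noncomputable def mixedDeg (k : Type*) {L σ : Type*} [Field k] [Field L] [Algebra k L] [Fintype σ]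
    (d j : ℕ) (ξ ζ : σ → L) : ℕ :=
  ∑ c : Fin j → σ × σ, ∑ c' : Fin (d - j) → σ × σ,
    relfinrank
      (adjoin k ((Set.range fun i => ζ (c i).1 / ζ (c i).2) ∪
        Set.range fun i => ξ (c' i).1 / ξ (c' i).2))
      (adjoin k (Set.range fun p : σ × σ => ξ p.1 / ξ p.2))

/-- The image of a polynomial in the fraction field of `k[X] ⧸ I`. -/
noncomputable def gen {k σ : Type*} [Field k] (I : Ideal (MvPolynomial σ k))
    (p : MvPolynomial σ k) : FractionRing (MvPolynomial σ k ⧸ I) :=
  algebraMap (MvPolynomial σ k ⧸ I) _ (Ideal.Quotient.mk I p)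

/-- The `j`-th dynamical degree of the self-map given by the forms `G` of the `d`-dimensional
projective variety with ideal `I`. -/
noncomputable def dynDeg {k σ : Type*} [Field k] [Fintype σ] (I : Ideal (MvPolynomial σ k))
    [I.IsPrime] (G : σ → MvPolynomial σ k) (d j : ℕ) : ℝ :=
  limsup (fun n : ℕ => (mixedDeg k d j (fun i => gen I (X i))
    (fun i => gen I ((aeval G)^[n] (X i))) : ℝ) ^ (1 / (n : ℝ))) atTop

end Pool.Agent.H69K
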